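import Pool.Agent.Helper3.HS.Slice2

/-!
# Slice variations with a general exponent and a general target
-/

set_option autoImplicit false
set_option linter.unusedSectionVars false
set_option linter.unusedVariables false

open Set MeasureTheory Metric Filter Topology
open scoped NNReal ENNReal Function

namespace Pool.Agent.Helper3.HS

variable {d m m' : ℕ}

/-- The diameter of the image of a cell. -/
noncomputable def gDiam (f : (Fin (d + 1) → ℝ) → (Fin m → ℝ)) (u₀ : Fin (d + 1) → ℝ)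
    (r : ℝ) (N : ℕ) (i : Fin (d + 1)) (t : ℝ) (c : Fin d → ℕ) : ℝ≥0∞ :=
  Metric.ediam ((fun w => f (slc i t w)) '' cell (corner u₀ r i) (2 * r / N) c)

/-- The slice variation with exponent `e`. -/
noncomputable def GV (e : ℕ) (f : (Fin (d + 1) → ℝ) → (Fin m → ℝ)) (u₀ : Fin (d + 1) → ℝ) (r : ℝ)
    (N : ℕ) : ℝ≥0∞ :=
  ∑ i, ∫⁻ t in Icc (u₀ i - r) (u₀ i + r),
    ∑ c : Fin d → Fin N, gDiam f u₀ r N i t (fun k => (c k : ℕ)) ^ e

theorem GV_hajlasz {e : ℕ} {u₀ : Fin (d + 1) → ℝ} {r : ℝ} (hr : 0 < r) {α s : ℝ} (hα0 : 0 < α)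
    (hs : 0 < s) (hαs : (d : ℝ) < α * s) (hsn : s ≤ e)
    {f : (Fin (d + 1) → ℝ) → (Fin (d + 1) → ℝ)} (hf : ContinuousOn f (closedBall u₀ r))
    {ρ : (Fin (d + 1) → ℝ) → ℝ≥0∞} (hρ : Measurable ρ)
    (hfρ : ∀ x ∈ closedBall u₀ r, ∀ z ∈ closedBall u₀ r,
      edist (f x) (f z) ≤ edist x z ^ α * (ρ x + ρ z)) {N : ℕ} (hN : 0 < N) :
    GV e f u₀ r N ≤ (d + 1) * (Metric.ediam (f '' closedBall u₀ r) ^ ((e : ℝ) - s) *
      (ENNReal.ofReal (morreyC d α s) * ENNReal.ofReal ((2 * r / N) ^ (α * s - d)) *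
        ∫⁻ x in closedBall u₀ r, ρ x ^ s)) := by
  have hN' : (0 : ℝ) < N := by exact_mod_cast hN
  have hh : 0 < 2 * r / N := by positivity
  set D := Metric.ediam (f '' closedBall u₀ r) with hD
  have hsm : ∀ i, Measurable (fun q : ℝ × (Fin d → ℝ) => slc i q.1 q.2) := fun i =>
    (continuous_slc i).measurable
  unfold GV
  have key : ∀ i : Fin (d + 1), ∫⁻ t in Icc (u₀ i - r) (u₀ i + r),
      ∑ c : Fin d → Fin N, gDiam f u₀ r N i t (fun k => (c k : ℕ)) ^ e ≤
      D ^ ((e : ℝ) - s) * (ENNReal.ofReal (morreyC d α s) *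
        ENNReal.ofReal ((2 * r / N) ^ (α * s - d)) * ∫⁻ x in closedBall u₀ r, ρ x ^ s) := by
    intro i
    have hpt : ∀ t ∈ Icc (u₀ i - r) (u₀ i + r),
        ∑ c : Fin d → Fin N, gDiam f u₀ r N i t (fun k => (c k : ℕ)) ^ e ≤
        D ^ ((e : ℝ) - s) * (ENNReal.ofReal (morreyC d α s) *
          ENNReal.ofReal ((2 * r / N) ^ (α * s - d))) *
          ∫⁻ w in fullSlice u₀ r i, ρ (slc i t w) ^ s := by
      intro t ht
      have hcell : ∀ c : Fin d → Fin N, gDiam f u₀ r N i t (fun k => (c k : ℕ)) ^ e ≤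
          D ^ ((e : ℝ) - s) * (ENNReal.ofReal (morreyC d α s) *
          ENNReal.ofReal ((2 * r / N) ^ (α * s - d))) *
          ∫⁻ w in cell (corner u₀ r i) (2 * r / N) (fun k => (c k : ℕ)), ρ (slc i t w) ^ s := by
        intro c
        set x := gDiam f u₀ r N i t (fun k => (c k : ℕ)) with hx
        have hsub : cell (corner u₀ r i) (2 * r / N) (fun k => (c k : ℕ)) ⊆ fullSlice u₀ r i :=
          cell_subset hr i hN (fun k => (c k).2)
        have hxD : x ≤ D := by
          apply Metric.ediam_mono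
          rintro _ ⟨w, hw, rfl⟩
          exact ⟨_, slc_mem_closedBall hr ht (hsub hw), rfl⟩
        have hmor : x ^ s ≤ ENNReal.ofReal (morreyC d α s) *
            ENNReal.ofReal ((2 * r / N) ^ (α * s - d)) *
            ∫⁻ w in cell (corner u₀ r i) (2 * r / N) (fun k => (c k : ℕ)),
              ρ (slc i t w) ^ s := by
          apply morrey (a := fun k => corner u₀ r i k + 2 * r / N * ((c k : ℕ) : ℝ)) hh hα0 hs
            hαs (f := fun w => f (slc i t w)) (ρ := fun w => ρ (slc i t w))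
          · apply hf.comp
            · exact ((continuous_slc i).comp (continuous_const.prodMk continuous_id)).continuousOn
            · intro w hw
              exact slc_mem_closedBall hr ht (hsub hw)
          · exact hρ.comp ((hsm i).comp (measurable_const.prodMk measurable_id))
          · intro w hw w' hw'
            have := hfρ _ (slc_mem_closedBall hr ht (hsub hw)) _
              (slc_mem_closedBall hr ht (hsub hw'))
            rwa [edist_slc] at this
        have hpow : x ^ e = x ^ ((e : ℝ) - s) * x ^ s := by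
          rw [← ENNReal.rpow_add_of_nonneg _ _ (by linarith) hs.le, sub_add_cancel,
            ENNReal.rpow_natCast]
        rw [hpow, mul_assoc]
        apply mul_le_mul'
        · exact ENNReal.rpow_le_rpow hxD (by linarith)
        · exact hmor
      refine (Finset.sum_le_sum fun c _ => hcell c).trans ?_
      rw [← Finset.mul_sum]
      gcongr
      exact sum_cell_le hr i hN _
    calc ∫⁻ t in Icc (u₀ i - r) (u₀ i + r),
        ∑ c : Fin d → Fin N, gDiam f u₀ r N i t (fun k => (c k : ℕ)) ^ e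
        ≤ ∫⁻ t in Icc (u₀ i - r) (u₀ i + r), D ^ ((e : ℝ) - s) *
          (ENNReal.ofReal (morreyC d α s) * ENNReal.ofReal ((2 * r / N) ^ (α * s - d))) *
          ∫⁻ w in fullSlice u₀ r i, ρ (slc i t w) ^ s :=
          setLIntegral_mono' measurableSet_Icc hpt
      _ = D ^ ((e : ℝ) - s) *
          (ENNReal.ofReal (morreyC d α s) * ENNReal.ofReal ((2 * r / N) ^ (α * s - d))) *
          ∫⁻ t in Icc (u₀ i - r) (u₀ i + r), ∫⁻ w in fullSlice u₀ r i, ρ (slc i t w) ^ s := by
          rw [lintegral_const_mul]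
          have : Measurable (fun q : ℝ × (Fin d → ℝ) => ρ (slc i q.1 q.2) ^ s) :=
            (hρ.comp (hsm i)).pow_const s
          exact this.lintegral_prod_right'
      _ ≤ _ := by
          rw [← mul_assoc, ← mul_assoc]
          rw [← mul_assoc]
          gcongr
          exact lintegral_slices hr i (hρ.pow_const s)
  refine (Finset.sum_le_sum fun i _ => key i).trans ?_
  rw [Finset.sum_const, Finset.card_univ, Fintype.card_fin, nsmul_eq_mul]
  push_cast
  exact le_rfl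

theorem lsc_gDiam {A : Type*} [TopologicalSpace A]
    {Γ : A → (Fin (d + 1) → ℝ) → (Fin m → ℝ)}
    (hΓ : Continuous (fun q : A × (Fin (d + 1) → ℝ) => Γ q.1 q.2)) (u₀ : Fin (d + 1) → ℝ) (r : ℝ)
    (N : ℕ) (i : Fin (d + 1)) (c : Fin d → ℕ) :
    LowerSemicontinuous (fun q : A × ℝ => gDiam (Γ q.1) u₀ r N i q.2 c) := by
  have h1 : (fun q : A × ℝ => gDiam (Γ q.1) u₀ r N i q.2 c) = fun q : A × ℝ =>
      ⨆ w : cell (corner u₀ r i) (2 * r / N) c, ⨆ w' : cell (corner u₀ r i) (2 * r / N) c,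
        edist (Γ q.1 (slc i q.2 w)) (Γ q.1 (slc i q.2 w')) := by
    funext q
    apply le_antisymm
    · apply Metric.ediam_le
      rintro _ ⟨w, hw, rfl⟩ _ ⟨w', hw', rfl⟩
      exact le_iSup_of_le ⟨w, hw⟩ (le_iSup_of_le ⟨w', hw'⟩ le_rfl)
    · apply iSup_le
      intro w
      apply iSup_le
      intro w'
      exact Metric.edist_le_ediam_of_mem ⟨w, w.2, rfl⟩ ⟨w', w'.2, rfl⟩
  rw [h1]
  apply lowerSemicontinuous_iSup
  intro w
  apply lowerSemicontinuous_iSup
  intro w'
  apply Continuous.lowerSemicontinuous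
  have h2 : ∀ v : Fin d → ℝ, Continuous (fun q : A × ℝ => Γ q.1 (slc i q.2 v)) := fun v =>
    hΓ.comp (continuous_fst.prodMk (continuous_slc' i continuous_snd continuous_const))
  exact (h2 w).edist (h2 w')

theorem lsc_gsum (e : ℕ) {A : Type*} [TopologicalSpace A]
    {Γ : A → (Fin (d + 1) → ℝ) → (Fin m → ℝ)}
    (hΓ : Continuous (fun q : A × (Fin (d + 1) → ℝ) => Γ q.1 q.2)) (u₀ : Fin (d + 1) → ℝ) (r : ℝ)
    (N : ℕ) (i : Fin (d + 1)) :
    LowerSemicontinuous (fun q : A × ℝ => ∑ c : Fin d → Fin N,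
      gDiam (Γ q.1) u₀ r N i q.2 (fun k => (c k : ℕ)) ^ e) := by
  have h1 : ∀ c ∈ (Finset.univ : Finset (Fin d → Fin N)), LowerSemicontinuous
      (fun q : A × ℝ => gDiam (Γ q.1) u₀ r N i q.2 (fun k => (c k : ℕ)) ^ e) := by
    intro c _
    exact (ENNReal.continuous_pow e).comp_lowerSemicontinuous
      (lsc_gDiam hΓ u₀ r N i _) (fun x y hxy => pow_le_pow_left₀ zero_le hxy _)
  exact lowerSemicontinuous_sum h1

theorem measurable_gsum (e : ℕ) {f : (Fin (d + 1) → ℝ) → (Fin m → ℝ)} (hf : Continuous f)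
    (u₀ : Fin (d + 1) → ℝ) (r : ℝ) (N : ℕ) (i : Fin (d + 1)) :
    Measurable (fun t : ℝ => ∑ c : Fin d → Fin N,
      gDiam f u₀ r N i t (fun k => (c k : ℕ)) ^ e) := by
  have h0 : Continuous (fun q : Unit × (Fin (d + 1) → ℝ) => f q.2) := hf.comp continuous_snd
  have h1 := lsc_gsum e (A := Unit) (Γ := fun _ => f) h0 u₀ r N i
  have h2 : Continuous (fun t : ℝ => (((), t) : Unit × ℝ)) := by fun_prop
  have h3 : LowerSemicontinuous (fun t : ℝ => ∑ c : Fin d → Fin N,
      gDiam f u₀ r N i t (fun k => (c k : ℕ)) ^ e) := by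
    intro t y hy
    exact h2.continuousAt.eventually (h1 ((), t) y hy)
  exact h3.measurable

theorem GV_congr {e : ℕ} {f g : (Fin (d + 1) → ℝ) → (Fin m → ℝ)} {u₀ : Fin (d + 1) → ℝ} {r : ℝ}
    (hr : 0 < r) {N : ℕ} (hN : 0 < N) (h : ∀ x ∈ closedBall u₀ r, f x = g x) :
    GV e f u₀ r N = GV e g u₀ r N := by
  unfold GV
  apply Finset.sum_congr rfl
  intro i _
  apply setLIntegral_congr_fun measurableSet_Icc
  intro t ht
  apply Finset.sum_congr rfl
  intro c _
  congr 1
  unfold gDiam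
  congr 1
  apply image_congr
  intro w hw
  exact h _ (slc_mem_closedBall hr ht (cell_subset hr i hN (c := fun k => (c k : ℕ))
    (fun k => (c k).2) hw))

/-- Comparison of the variations of two maps. -/
theorem GV_mono {e : ℕ} {f : (Fin (d + 1) → ℝ) → (Fin m → ℝ)}
    {g : (Fin (d + 1) → ℝ) → (Fin m' → ℝ)} {u₀ : Fin (d + 1) → ℝ} {r : ℝ}
    (hr : 0 < r) {N : ℕ} (hN : 0 < N) {L : ℝ≥0∞} (hL : L ≠ ∞)
    (h : ∀ x ∈ closedBall u₀ r, ∀ z ∈ closedBall u₀ r, edist (g x) (g z) ≤ L * edist (f x) (f z)) :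
    GV e g u₀ r N ≤ L ^ e * GV e f u₀ r N := by
  unfold GV
  rw [Finset.mul_sum]
  apply Finset.sum_le_sum
  intro i _
  rw [← lintegral_const_mul' _ _ (ENNReal.pow_ne_top hL)]
  apply setLIntegral_mono' measurableSet_Icc
  intro t ht
  rw [Finset.mul_sum]
  apply Finset.sum_le_sum
  intro c _
  rw [← mul_pow]
  apply pow_le_pow_left₀ zero_le
  apply Metric.ediam_le
  rintro _ ⟨w, hw, rfl⟩ _ ⟨w', hw', rfl⟩
  have hsub := cell_subset (u₀ := u₀) hr i hN (c := fun k => (c k : ℕ)) (fun k => (c k).2)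
  refine (h _ (slc_mem_closedBall hr ht (hsub hw)) _ (slc_mem_closedBall hr ht (hsub hw'))).trans ?_
  gcongr
  exact Metric.edist_le_ediam_of_mem ⟨w, hw, rfl⟩ ⟨w', hw', rfl⟩

/-- Closedness of the sets of maps with bounded slice variation. -/
theorem isClosed_GV {u₀ : Fin (d + 1) → ℝ} {r : ℝ} (hr : 0 < r) (e N : ℕ) (c : ℝ≥0∞) :
    IsClosed {f : C(closedBall u₀ r, Fin m → ℝ) |
      GV e (fun x => f ⟨clamp u₀ r x, clamp_mem hr x⟩) u₀ r N ≤ c} := by
  have : CompactSpace (closedBall u₀ r) := isCompact_iff_compactSpace.mp (isCompact_closedBall _ _)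
  set Γ : C(closedBall u₀ r, Fin m → ℝ) → (Fin (d + 1) → ℝ) → (Fin m → ℝ) :=
    fun f x => f ⟨clamp u₀ r x, clamp_mem hr x⟩ with hΓ
  have hΓc : Continuous (fun q : C(closedBall u₀ r, Fin m → ℝ) × (Fin (d + 1) → ℝ) =>
      Γ q.1 q.2) := by
    have h1 : Continuous (fun q : C(closedBall u₀ r, Fin m → ℝ) × (Fin (d + 1) → ℝ) =>
        (q.1, (⟨clamp u₀ r q.2, clamp_mem hr q.2⟩ : closedBall u₀ r))) :=
      continuous_fst.prodMk (((continuous_clamp u₀ r).comp continuous_snd).subtype_mk _)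
    exact ContinuousEval.continuous_eval.comp h1
  apply IsSeqClosed.isClosed
  intro fs f hfs hlim
  have hbound : ∀ k, GV e (Γ (fs k)) u₀ r N ≤ c := hfs
  change GV e (Γ f) u₀ r N ≤ c
  unfold GV at hbound ⊢
  have hpt : ∀ (i : Fin (d + 1)) (t : ℝ), ∑ c : Fin d → Fin N,
      gDiam (Γ f) u₀ r N i t (fun k => (c k : ℕ)) ^ e ≤
      liminf (fun k => ∑ c : Fin d → Fin N,
        gDiam (Γ (fs k)) u₀ r N i t (fun k => (c k : ℕ)) ^ e) atTop := by
    intro i t
    have h1 : LowerSemicontinuousAt (fun q : C(closedBall u₀ r, Fin m → ℝ) × ℝ =>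
      ∑ c : Fin d → Fin N, gDiam (Γ q.1) u₀ r N i q.2 (fun k => (c k : ℕ)) ^ e) (f, t) :=
      (lsc_gsum e hΓc u₀ r N i) (f, t)
    have h1' := h1.le_liminf
    have h2 : Tendsto (fun k => (fs k, t)) atTop (𝓝 (f, t)) := hlim.prodMk_nhds tendsto_const_nhds
    exact h1'.trans (liminf_le_liminf_of_le h2)
  calc ∑ i, ∫⁻ t in Icc (u₀ i - r) (u₀ i + r), ∑ c : Fin d → Fin N,
        gDiam (Γ f) u₀ r N i t (fun k => (c k : ℕ)) ^ e
      ≤ ∑ i, liminf (fun k => ∫⁻ t in Icc (u₀ i - r) (u₀ i + r), ∑ c : Fin d → Fin N,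
        gDiam (Γ (fs k)) u₀ r N i t (fun k => (c k : ℕ)) ^ e) atTop := by
        apply Finset.sum_le_sum
        intro i _
        refine (lintegral_mono (hpt i)).trans (lintegral_liminf_le ?_)
        intro k
        exact measurable_gsum e (hΓc.comp (continuous_const.prodMk continuous_id)) u₀ r N i
    _ ≤ liminf (fun k => ∑ i, ∫⁻ t in Icc (u₀ i - r) (u₀ i + r), ∑ c : Fin d → Fin N,
        gDiam (Γ (fs k)) u₀ r N i t (fun k => (c k : ℕ)) ^ e) atTop := by
        have hgen : ∀ (s : Finset (Fin (d + 1))) (a : Fin (d + 1) → ℕ → ℝ≥0∞),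
            ∑ i ∈ s, liminf (a i) atTop ≤ liminf (fun k => ∑ i ∈ s, a i k) atTop := by
          classical
          intro s a
          induction s using Finset.induction_on with
          | empty => simp
          | insert j s hj ih =>
            rw [Finset.sum_insert hj]
            simp_rw [Finset.sum_insert hj]
            exact (add_le_add le_rfl ih).trans (liminf_add_le_liminf _ _)
        exact hgen _ _
    _ ≤ c := by
        apply liminf_le_of_frequently_le'
        exact Frequently.of_forall hbound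

section average

variable {A : Type*} [TopologicalSpace A] [CompactSpace A] [MeasurableSpace A] [BorelSpace A]
  {ν : Measure A} [IsProbabilityMeasure ν]
  {Γ : A → (Fin (d + 1) → ℝ) → (Fin m → ℝ)}

theorem gavg_integrable (hΓ : Continuous (fun q : A × (Fin (d + 1) → ℝ) => Γ q.1 q.2))
    (x : Fin (d + 1) → ℝ) : Integrable (fun a => Γ a x) ν := by
  have hc : Continuous (fun a => Γ a x) := hΓ.comp (continuous_id.prodMk continuous_const)
  obtain ⟨M, hM⟩ := isCompact_univ.exists_bound_of_continuousOn hc.continuousOn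
  exact Integrable.of_bound hc.aestronglyMeasurable M (ae_of_all _ fun a => hM a (mem_univ a))

theorem gavg_continuous (hΓ : Continuous (fun q : A × (Fin (d + 1) → ℝ) => Γ q.1 q.2)) :
    Continuous (fun x => ∫ a, Γ a x ∂ν) := by
  have h := continuous_parametric_integral_of_continuous (μ := ν) (s := (univ : Set A))
    (f := fun (x : Fin (d + 1) → ℝ) (a : A) => Γ a x) (by
      have : Continuous (fun q : (Fin (d + 1) → ℝ) × A => Γ q.2 q.1) :=
        hΓ.comp (continuous_snd.prodMk continuous_fst)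
      exact this) isCompact_univ
  simpa using h

theorem gavg_edist (hΓ : Continuous (fun q : A × (Fin (d + 1) → ℝ) => Γ q.1 q.2))
    (x z : Fin (d + 1) → ℝ) : edist (∫ a, Γ a x ∂ν) (∫ a, Γ a z ∂ν) ≤
      ∫⁻ a, edist (Γ a x) (Γ a z) ∂ν := by
  rw [edist_eq_enorm_sub, ← integral_sub (gavg_integrable hΓ x) (gavg_integrable hΓ z)]
  refine (enorm_integral_le_lintegral_enorm _).trans_eq ?_
  congr 1
  funext a
  rw [edist_eq_enorm_sub]

theorem GV_avg {e : ℕ} (hΓ : Continuous (fun q : A × (Fin (d + 1) → ℝ) => Γ q.1 q.2))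
    (u₀ : Fin (d + 1) → ℝ) (r : ℝ) (N : ℕ) {c : ℝ≥0∞}
    (hc : ∀ a, GV (e + 1) (Γ a) u₀ r N ≤ c) :
    GV (e + 1) (fun x => ∫ a, Γ a x ∂ν) u₀ r N ≤ c := by
  have hcell : ∀ i t c, gDiam (fun x => ∫ a, Γ a x ∂ν) u₀ r N i t c ≤
      ∫⁻ a, gDiam (Γ a) u₀ r N i t c ∂ν := by
    intro i t c
    apply Metric.ediam_le
    rintro _ ⟨w, hw, rfl⟩ _ ⟨w', hw', rfl⟩
    refine (gavg_edist hΓ _ _).trans (lintegral_mono fun a => ?_)
    exact Metric.edist_le_ediam_of_mem ⟨w, hw, rfl⟩ ⟨w', hw', rfl⟩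
  have hmeas : ∀ i t c, Measurable (fun a => gDiam (Γ a) u₀ r N i t c) := by
    intro i t c
    have h1 := (lsc_gDiam hΓ u₀ r N i c)
    have h3 : Continuous (fun a : A => (a, t)) := continuous_id.prodMk continuous_const
    have h2 : LowerSemicontinuous (fun a : A => gDiam (Γ a) u₀ r N i t c) := by
      intro a y hy
      exact h3.continuousAt.eventually (h1 (a, t) y hy)
    exact h2.measurable
  unfold GV
  calc ∑ i, ∫⁻ t in Icc (u₀ i - r) (u₀ i + r), ∑ c : Fin d → Fin N,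
        gDiam (fun x => ∫ a, Γ a x ∂ν) u₀ r N i t (fun k => (c k : ℕ)) ^ (e + 1)
      ≤ ∑ i, ∫⁻ t in Icc (u₀ i - r) (u₀ i + r), (∫⁻ a, ∑ c : Fin d → Fin N,
        gDiam (Γ a) u₀ r N i t (fun k => (c k : ℕ)) ^ (e + 1) ∂ν) := by
        apply Finset.sum_le_sum
        intro i _
        apply lintegral_mono
        intro t
        refine le_trans ?_ (lintegral_finsetSum _ (fun c _ => (hmeas i t _).pow_const _)).symm.le
        apply Finset.sum_le_sum
        intro c _
        exact (pow_le_pow_left₀ zero_le (hcell i t _) _).trans (lintegral_pow_le (hmeas i t _) e)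
    _ = ∑ i, ∫⁻ a, (∫⁻ t in Icc (u₀ i - r) (u₀ i + r), ∑ c : Fin d → Fin N,
        gDiam (Γ a) u₀ r N i t (fun k => (c k : ℕ)) ^ (e + 1)) ∂ν := by
        apply Finset.sum_congr rfl
        intro i _
        have h1 := (lsc_gsum (e + 1) hΓ u₀ r N i).measurable
        exact lintegral_lintegral_swap (f := fun (t : ℝ) (a : A) => ∑ c : Fin d → Fin N,
          gDiam (Γ a) u₀ r N i t (fun k => (c k : ℕ)) ^ (e + 1))
          (h1.comp measurable_swap).aemeasurable
    _ = ∫⁻ a, (∑ i, ∫⁻ t in Icc (u₀ i - r) (u₀ i + r), ∑ c : Fin d → Fin N,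
        gDiam (Γ a) u₀ r N i t (fun k => (c k : ℕ)) ^ (e + 1)) ∂ν := by
        rw [lintegral_finsetSum]
        intro i _
        exact ((lsc_gsum (e + 1) hΓ u₀ r N i).measurable).lintegral_prod_right'
    _ ≤ ∫⁻ a, c ∂ν := lintegral_mono hc
    _ = c := by simp

end average

/-- If the slice variations tend to zero, then almost all slices have null images. -/
theorem ae_null_gslice {F : (Fin (d + 1) → ℝ) → (Fin m → ℝ)} (hF : Continuous F)
    {u₀ : Fin (d + 1) → ℝ} {r : ℝ} (hr : 0 < r)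
    (h0 : ∀ ε : ℝ≥0∞, 0 < ε → ∃ N : ℕ, 0 < N ∧ GV m F u₀ r N ≤ ε) (i : Fin (d + 1)) :
    ∀ᵐ t ∂(volume.restrict (Icc (u₀ i - r) (u₀ i + r))),
      volume (F '' ((fun w => slc i t w) '' fullSlice u₀ r i)) = 0 := by
  set Y : ℕ → ℝ → ℝ≥0∞ := fun N t => ∑ c : Fin d → Fin N,
    gDiam F u₀ r N i t (fun k => (c k : ℕ)) ^ m with hY
  have hYm : ∀ N, Measurable (Y N) := fun N => measurable_gsum m hF u₀ r N i
  set Z : ℝ → ℝ≥0∞ := fun t => ⨅ N : ℕ, Y (N + 1) t with hZ
  have hZm : Measurable Z := Measurable.iInf fun N => hYm (N + 1)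
  have hint : ∫⁻ t in Icc (u₀ i - r) (u₀ i + r), Z t = 0 := by
    by_contra hne
    have hpos : 0 < (∫⁻ t in Icc (u₀ i - r) (u₀ i + r), Z t) := pos_iff_ne_zero.mpr hne
    obtain ⟨ε, hε0, hε⟩ := exists_between hpos
    obtain ⟨N, hN, hSV⟩ := h0 ε hε0
    have h1 : ∫⁻ t in Icc (u₀ i - r) (u₀ i + r), Z t ≤ ∫⁻ t in Icc (u₀ i - r) (u₀ i + r), Y N t := by
      apply lintegral_mono
      intro t
      have : N = (N - 1) + 1 := by omega
      rw [this]
      exact iInf_le _ _
    have h2 : ∫⁻ t in Icc (u₀ i - r) (u₀ i + r), Y N t ≤ GV m F u₀ r N := by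
      unfold GV
      exact Finset.single_le_sum (f := fun i => ∫⁻ t in Icc (u₀ i - r) (u₀ i + r),
        ∑ c : Fin d → Fin N, gDiam F u₀ r N i t (fun k => (c k : ℕ)) ^ m)
        (fun _ _ => zero_le) (Finset.mem_univ i)
    exact absurd (h1.trans (h2.trans hSV)) (not_le.mpr hε)
  have hae := (lintegral_eq_zero_iff hZm).mp hint
  filter_upwards [hae] with t ht
  have hle : ∀ N : ℕ, volume (F '' ((fun w => slc i t w) '' fullSlice u₀ r i)) ≤ Y (N + 1) t := by
    intro N
    have hcov : F '' ((fun w => slc i t w) '' fullSlice u₀ r i) ⊆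
        ⋃ c : Fin d → Fin (N + 1), (fun w => F (slc i t w)) ''
          cell (corner u₀ r i) (2 * r / ((N + 1 : ℕ) : ℝ)) (fun k => (c k : ℕ)) := by
      rintro _ ⟨_, ⟨w, hw, rfl⟩, rfl⟩
      obtain ⟨c, hc⟩ := exists_cell hr i (Nat.succ_pos N) hw
      exact mem_iUnion.mpr ⟨c, w, hc, rfl⟩
    refine (measure_mono hcov).trans ((measure_iUnion_fintype_le _ _).trans ?_)
    apply Finset.sum_le_sum
    intro c _
    have := Real.volume_pi_le_diam_pow ((fun w => F (slc i t w)) ''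
          cell (corner u₀ r i) (2 * r / ((N + 1 : ℕ) : ℝ)) (fun k => (c k : ℕ)))
    rw [Fintype.card_fin] at this
    exact this
  have hle' : volume (F '' ((fun w => slc i t w) '' fullSlice u₀ r i)) ≤ Z t := le_iInf hle
  rw [ht] at hle'
  exact le_antisymm hle' zero_le

/-- A common grid of slices for countably many maps. -/
theorem exists_grid {ι : Type*} [Countable ι] {F : ι → (Fin (d + 1) → ℝ) → (Fin m → ℝ)}
    (hF : ∀ j, Continuous (F j)) {u₀ : Fin (d + 1) → ℝ} {r : ℝ} (hr : 0 < r)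
    (h0 : ∀ j, ∀ ε : ℝ≥0∞, 0 < ε → ∃ N : ℕ, 0 < N ∧ GV m (F j) u₀ r N ≤ ε) :
    ∃ H : Set (Fin (d + 1) → ℝ), ∃ Z : Set (Fin m → ℝ), volume Z = 0 ∧
      (∀ j, ∀ x ∈ H, F j x ∈ Z) ∧
      ∀ S ⊆ closedBall u₀ r, Disjoint S H → IsTotallyDisconnected S := by
  classical
  set P : Fin (d + 1) → ℝ → Prop := fun i t =>
    ∀ j, volume (F j '' ((fun w => slc i t w) '' fullSlice u₀ r i)) = 0 with hP
  have hex : ∀ (i : Fin (d + 1)) (a b : ℝ), a < b → u₀ i - r ≤ a → b ≤ u₀ i + r →
      ∃ t ∈ Ioo a b, P i t := by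
    intro i a b hab ha hb
    have h1 : ∀ᵐ t ∂(volume.restrict (Icc (u₀ i - r) (u₀ i + r))), P i t :=
      ae_all_iff.mpr fun j => ae_null_gslice (hF j) hr (h0 j) i
    have h2 : ∀ᵐ t ∂(volume.restrict (Ioo a b)), P i t :=
      ae_mono (Measure.restrict_mono_set _ (Ioo_subset_Icc_self.trans (Icc_subset_Icc ha hb))) h1
    have h3 : (volume.restrict (Ioo a b)) ≠ 0 := by
      rw [Ne, Measure.restrict_eq_zero, Real.volume_Ioo, ENNReal.ofReal_eq_zero, not_le]
      linarith
    have h4 : (ae (volume.restrict (Ioo a b))).NeBot := ae_neBot.mpr h3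
    obtain ⟨t, ht1, ht2⟩ := (h2.and (ae_restrict_mem measurableSet_Ioo)).exists
    exact ⟨t, ht2, ht1⟩
  choose! T hT hTP using hex
  set H : Set (Fin (d + 1) → ℝ) := ⋃ (q : Fin (d + 1) × ℚ × ℚ)
    (_ : (q.2.1 : ℝ) < q.2.2 ∧ u₀ q.1 - r ≤ q.2.1 ∧ (q.2.2 : ℝ) ≤ u₀ q.1 + r),
    ((fun w => slc q.1 (T q.1 q.2.1 q.2.2) w) '' fullSlice u₀ r q.1) with hH
  refine ⟨H, ⋃ j, F j '' H, ?_, ?_, ?_⟩
  · apply measure_iUnion_null
    intro j
    rw [hH, image_iUnion₂]
    apply measure_iUnion_null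
    intro q
    apply measure_iUnion_null
    intro hq
    exact hTP q.1 q.2.1 q.2.2 hq.1 hq.2.1 hq.2.2 j
  · intro j x hx
    exact mem_iUnion.mpr ⟨j, x, hx, rfl⟩
  · intro S hS hSH s hs hpre x hx z hz
    by_contra hne
    obtain ⟨i, hi⟩ := Function.ne_iff.mp hne
    have main : ∀ x z : Fin (d + 1) → ℝ, x ∈ s → z ∈ s → x i < z i → False := by
      intro x z hx hz hlt
      obtain ⟨b, hb1, hb2⟩ := exists_rat_btwn hlt
      obtain ⟨a, ha1, ha2⟩ := exists_rat_btwn hb1
      have hxc := mem_closedBall_coord hr (hS (hs hx)) i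
      have hzc := mem_closedBall_coord hr (hS (hs hz)) i
      have hcond : (a : ℝ) < b ∧ u₀ i - r ≤ a ∧ (b : ℝ) ≤ u₀ i + r :=
        ⟨ha2, by linarith [hxc.1], by linarith [hzc.2]⟩
      have hTm := hT i a b hcond.1 hcond.2.1 hcond.2.2
      set t := T i a b with ht
      have hno : ∀ w ∈ s, w i ≠ t := by
        intro w hw hwt
        apply Set.disjoint_left.mp hSH (hs hw)
        rw [hH]
        refine mem_iUnion₂.mpr ⟨(i, a, b), hcond, ?_⟩
        refine ⟨fun k => w (i.succAbove k), mem_fullSlice_of_mem hr (hS (hs hw)) i, ?_⟩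
        simp only
        rw [← ht, ← hwt]
        exact slc_removeNth i w
      have hcont : Continuous (fun w : Fin (d + 1) → ℝ => w i) := continuous_apply i
      have o1 : IsOpen {w : Fin (d + 1) → ℝ | w i < t} := isOpen_lt hcont continuous_const
      have o2 : IsOpen {w : Fin (d + 1) → ℝ | t < w i} := isOpen_lt continuous_const hcont
      have o3 : Disjoint {w : Fin (d + 1) → ℝ | w i < t} {w : Fin (d + 1) → ℝ | t < w i} := by
        rw [Set.disjoint_left]
        intro w hw hw'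
        have a1 : w i < t := hw
        have a2 : t < w i := hw'
        linarith
      rcases hpre.subset_or_subset o1 o2 o3
        (fun w hw => (lt_or_gt_of_ne (hno w hw))) with h | h
      · have h1 : z i < t := h hz
        linarith [hTm.2]
      · have h1 : t < x i := h hx
        linarith [hTm.1]
    rcases lt_or_gt_of_ne hi with h | h
    · exact main x z hx hz h
    · exact main z x hz hx h

end Pool.Agent.Helper3.HS
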