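import Pool.Agent.Helper3.HS2.Core1

/-!
# Divisibility of the degree from good neighbourhoods
-/

set_option autoImplicit false
set_option linter.unusedSectionVars false
set_option linter.unusedVariables false

open Set MeasureTheory Metric Filter Topology
open scoped NNReal ENNReal Function

namespace Pool.Agent.Helper3.HS

variable {V : Type*} [NormedAddCommGroup V] [NormedSpace ℝ V] [FiniteDimensional ℝ V]
  [MeasurableSpace V] [BorelSpace V] {μ : Measure V} [μ.IsAddHaarMeasure]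
  {p : ℕ} [hp : Fact p.Prime]

/-- Good open sets. -/
structure Good (μ : Measure V) (D : PreDat V p) (F : V → V) (y : V) (H P : Set V) : Prop where
  op : IsOpen P
  cl : closure P ⊆ D.U
  inv : ∀ b : ℤ_[p], ∀ z ∈ P, D.g (p * b) z ∈ P
  disj : ∀ j : ℕ, 0 < j → j < p → Disjoint (D.g (j : ℤ_[p]) '' closure P) (closure P)
  null : ∀ j : ℕ, j < p → μ (D.g (j : ℤ_[p]) '' frontier P) = 0
  miss : ∀ j : ℕ, j < p → ∀ z ∈ frontier P, F z = y → D.g (j : ℤ_[p]) z ∉ H

namespace Good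

variable {D : PreDat V p} {F : V → V} {y : V} {H P : Set V}

theorem sub (h : Good μ D F y H P) : P ⊆ D.U := subset_closure.trans h.cl

theorem compact (h : Good μ D F y H P) : IsCompact (closure P) := by
  have : ProperSpace V := FiniteDimensional.proper ℝ V
  exact (D.hUb.subset h.sub).isCompact_closure

theorem inv_closure (h : Good μ D F y H P) (b : ℤ_[p]) {z : V} (hz : z ∈ closure P) :
    D.g (p * b) z ∈ closure P := by
  have h1 : D.g (p * b) '' closure P ⊆ closure (D.g (p * b) '' P) :=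
    image_closure_subset_closure_image (D.hg _)
  have h2 : D.g (p * b) '' P ⊆ P := by
    rintro _ ⟨w, hw, rfl⟩
    exact h.inv b w hw
  exact closure_mono h2 (h1 ⟨z, hz, rfl⟩)

theorem inv_frontier (h : Good μ D F y H P) (b : ℤ_[p]) {z : V} (hz : z ∈ frontier P) :
    D.g (p * b) z ∈ frontier P := by
  rw [h.op.frontier_eq] at hz ⊢
  refine ⟨h.inv_closure b hz.1, fun hmem => hz.2 ?_⟩
  have h1 := h.inv (-b) _ hmem
  rwa [mul_neg, D.inv _ (h.cl hz.1)] at h1

end Good

theorem good_core (D : Dat μ p) {F : V → V} (hF : ContinuousOn F (closure D.U))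
    (hFinv : ∀ a, ∀ x ∈ D.U, F (D.g a x) = F x) {y : V} (hfr : ∀ x ∈ frontier D.U, F x ≠ y)
    {H : Set V} (hH : ∀ S ⊆ D.U, Disjoint S H → IsTotallyDisconnected S)
    (hgood : ∀ x ∈ D.U, F x = y → ∃ P, Good μ D.toPreDat F y H P ∧ x ∈ P)
    {k : ℝ} (hk : HasDeg μ D.U F y k) : ∃ m : ℤ, k = p * m := by
  classical
  have : ProperSpace V := FiniteDimensional.proper ℝ V
  have hUcl : D.U ⊆ closure D.U := subset_closure
  have hclU : IsCompact (closure D.U) := D.hUb.isCompact_closure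
  set K : Set V := {x | x ∈ D.U ∧ F x = y} with hKdef
  have hKcl : K = closure D.U ∩ F ⁻¹' {y} := by
    ext x
    constructor
    · rintro ⟨h1, h2⟩; exact ⟨hUcl h1, h2⟩
    · rintro ⟨h1, h2⟩
      refine ⟨?_, h2⟩
      by_contra hn
      exact hfr x (by rw [D.hU.frontier_eq]; exact ⟨h1, hn⟩) h2
  have hKc : IsCompact K := by
    rw [hKcl]
    exact hclU.of_isClosed_subset (hF.preimage_isClosed_of_isClosed isClosed_closure
      isClosed_singleton) inter_subset_left
  -- the finite cover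
  obtain ⟨M, P, hP, hKP⟩ : ∃ (M : ℕ) (P : ℕ → Set V), (∀ i < M, Good μ D.toPreDat F y H (P i)) ∧
      ∀ x ∈ K, ∃ i < M, x ∈ P i := by
    apply hKc.induction_on (p := fun s => ∃ (M : ℕ) (P : ℕ → Set V),
      (∀ i < M, Good μ D.toPreDat F y H (P i)) ∧ ∀ x ∈ s, ∃ i < M, x ∈ P i)
    · exact ⟨0, fun _ => ∅, by simp, by simp⟩
    · rintro s t hst ⟨M, P, h1, h2⟩
      exact ⟨M, P, h1, fun x hx => h2 x (hst hx)⟩
    · rintro s t ⟨M, P, h1, h2⟩ ⟨M', P', h1', h2'⟩
      refine ⟨M + M', fun i => if i < M then P i else P' (i - M), ?_, ?_⟩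
      · intro i hi
        simp only
        by_cases h : i < M
        · rw [if_pos h]; exact h1 i h
        · rw [if_neg h]; exact h1' _ (by omega)
      · rintro x (hx | hx)
        · obtain ⟨i, hi, hxi⟩ := h2 x hx
          exact ⟨i, by omega, by simp only; rw [if_pos hi]; exact hxi⟩
        · obtain ⟨i, hi, hxi⟩ := h2' x hx
          refine ⟨M + i, by omega, ?_⟩
          simp only
          rw [if_neg (by omega)]
          have : M + i - M = i := by omega
          rw [this]; exact hxi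
    · intro x hx
      obtain ⟨P, hP, hxP⟩ := hgood x hx.1 hx.2
      refine ⟨P, mem_nhdsWithin_of_mem_nhds (hP.op.mem_nhds hxP), 1, fun _ => P, fun _ _ => hP,
        fun z hz => ⟨0, one_pos, hz⟩⟩
  have hPfr : ∀ i < M, IsCompact (frontier (P i)) := fun i hi =>
    (hP i hi).compact.of_isClosed_subset isClosed_frontier frontier_subset_closure
  have hPfrU : ∀ i < M, frontier (P i) ⊆ D.U := fun i hi =>
    frontier_subset_closure.trans (hP i hi).cl
  -- the walls
  set B : Set V := ⋃ i ∈ Finset.range M, ⋃ j ∈ Finset.range p, D.g (j : ℤ_[p]) '' frontier (P i)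
    with hB
  have hBmem : ∀ x, x ∈ B ↔ ∃ i < M, ∃ j < p, ∃ z ∈ frontier (P i), D.g (j : ℤ_[p]) z = x := by
    intro x
    rw [hB]
    simp only [mem_iUnion, Finset.mem_range, exists_prop, mem_image]
  have hBc : IsCompact B := by
    apply (Finset.range M).isCompact_biUnion
    intro i hi
    apply (Finset.range p).isCompact_biUnion
    intro j _
    exact (hPfr i (Finset.mem_range.mp hi)).image (D.hg _)
  have hBU : B ⊆ D.U := by
    intro x hx
    obtain ⟨i, hi, j, hj, z, hz, rfl⟩ := (hBmem x).mp hx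
    exact D.hgU _ z (hPfrU i hi hz)
  have hBinv : ∀ a, ∀ x ∈ B, D.g a x ∈ B := by
    intro a x hx
    obtain ⟨i, hi, j, hj, z, hz, rfl⟩ := (hBmem x).mp hx
    obtain ⟨j', hj', b, hb⟩ := exists_digit (a + (j : ℤ_[p]))
    refine (hBmem _).mpr ⟨i, hi, j', hj', D.g (p * b) z, (hP i hi).inv_frontier b hz, ?_⟩
    rw [← D.hgadd _ _ z (hPfrU i hi hz), ← D.hgadd _ _ z (hPfrU i hi hz), hb]
  have hB0 : μ B = 0 := by
    rw [hB]
    apply (measure_biUnion_null_iff (Finset.range M).countable_toSet).mpr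
    intro i hi
    apply (measure_biUnion_null_iff (Finset.range p).countable_toSet).mpr
    intro j hj
    exact (hP i (Finset.mem_range.mp hi)).null j (Finset.mem_range.mp hj)
  -- the chambers
  set E : ℕ → Set V := fun i => ⋃ l ∈ Finset.range i, ⋃ j ∈ Finset.range p,
    D.g (j : ℤ_[p]) '' closure (P l) with hE
  have hEmem : ∀ i x, x ∈ E i ↔ ∃ l < i, ∃ j < p, ∃ z ∈ closure (P l), D.g (j : ℤ_[p]) z = x := by
    intro i x
    rw [hE]
    simp only [mem_iUnion, Finset.mem_range, exists_prop, mem_image]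
  have hEc : ∀ i ≤ M, IsClosed (E i) := by
    intro i hi
    apply IsCompact.isClosed
    apply (Finset.range i).isCompact_biUnion
    intro l hl
    apply (Finset.range p).isCompact_biUnion
    intro j _
    exact (hP l (lt_of_lt_of_le (Finset.mem_range.mp hl) hi)).compact.image (D.hg _)
  set X : ℕ → Set V := fun i => P i \ E i with hX
  have hXo : ∀ i < M, IsOpen (X i) := fun i hi => (hP i hi).op.sdiff (hEc i hi.le)
  have hXP : ∀ i, X i ⊆ P i := fun i => sdiff_subset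
  have hXc : ∀ i < M, closure (X i) ⊆ D.U := fun i hi => (closure_mono (hXP i)).trans (hP i hi).cl
  have hXB : ∀ i < M, frontier (X i) ⊆ B := by
    intro i hi x hx
    have hxc : x ∈ closure (P i) := closure_mono (hXP i) (frontier_subset_closure hx)
    by_cases hxP : x ∈ P i
    · have hxE : x ∈ E i := by
        by_contra hn
        rw [(hXo i hi).frontier_eq] at hx
        exact hx.2 ⟨hxP, hn⟩
      obtain ⟨l, hl, j, hj, z, hz, rfl⟩ := (hEmem i x).mp hxE
      have hlM : l < M := hl.trans hi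
      refine (hBmem _).mpr ⟨l, hlM, j, hj, z, ?_, rfl⟩
      rw [(hP l hlM).op.frontier_eq]
      refine ⟨hz, fun hzP => ?_⟩
      have hopen : IsOpen (D.g (j : ℤ_[p]) '' P l) := D.image_open _ (hP l hlM).sub (hP l hlM).op
      have hdis : Disjoint (D.g (j : ℤ_[p]) '' P l) (X i) := by
        rw [Set.disjoint_left]
        rintro _ ⟨w, hw, rfl⟩ hw'
        exact hw'.2 ((hEmem i _).mpr ⟨l, hl, j, hj, w, subset_closure hw, rfl⟩)
      exact Set.disjoint_left.mp (hdis.closure_right hopen) ⟨z, hzP, rfl⟩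
        (frontier_subset_closure hx)
    · refine (hBmem _).mpr ⟨i, hi, 0, hp.out.pos, x, ?_, ?_⟩
      · rw [(hP i hi).op.frontier_eq]; exact ⟨hxc, hxP⟩
      · rw [Nat.cast_zero]; exact D.hg0 x ((hP i hi).cl hxc)
  have hXinv : ∀ i < M, ∀ b : ℤ_[p], ∀ z ∈ X i, D.g (p * b) z ∈ X i := by
    intro i hi b z hz
    have hzU := (hP i hi).sub (hXP i hz)
    refine ⟨(hP i hi).inv b z hz.1, fun hmem => hz.2 ?_⟩
    obtain ⟨l, hl, j, hj, w, hw, hwz⟩ := (hEmem i _).mp hmem
    have hwU := (hP l (hl.trans hi)).cl hw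
    refine (hEmem i z).mpr ⟨l, hl, j, hj, D.g (p * (-b)) w,
      (hP l (hl.trans hi)).inv_closure (-b) hw, ?_⟩
    rw [← D.inv (p * b) hzU, ← hwz, ← D.hgadd _ _ w hwU, ← D.hgadd _ _ w hwU]
    congr 1
    ring
  have hXd : ∀ i < M, ∀ i' < M, ∀ j < p, ∀ j' < p, (i, j) ≠ (i', j') →
      Disjoint (D.g (j : ℤ_[p]) '' X i) (D.g (j' : ℤ_[p]) '' X i') := by
    have c1 : ∀ i < M, ∀ j j' : ℕ, j < j' → j' < p →
        Disjoint (D.g (j : ℤ_[p]) '' X i) (D.g (j' : ℤ_[p]) '' X i) := by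
      intro i hi j j' hjj hj'
      rw [Set.disjoint_left]
      rintro _ ⟨z, hz, rfl⟩ ⟨w, hw, hwz⟩
      have hzU := (hP i hi).sub (hXP i hz)
      have hwU := (hP i hi).sub (hXP i hw)
      have h1 : D.g ((j' - j : ℕ) : ℤ_[p]) w = z := by
        rw [← D.inv (j : ℤ_[p]) hzU, ← hwz, ← D.hgadd _ _ w hwU, Nat.cast_sub hjj.le]
        congr 1
        ring
      exact Set.disjoint_left.mp ((hP i hi).disj (j' - j) (by omega) (by omega))
        ⟨w, subset_closure (hXP i hw), h1⟩ (subset_closure (hXP i hz))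
    have c2 : ∀ i i' : ℕ, i < i' → i' < M → ∀ j < p, ∀ j' < p,
        Disjoint (D.g (j : ℤ_[p]) '' X i) (D.g (j' : ℤ_[p]) '' X i') := by
      intro i i' hii hi' j hj j' hj'
      rw [Set.disjoint_left]
      rintro _ ⟨z, hz, rfl⟩ ⟨w, hw, hwz⟩
      have hiM := hii.trans hi'
      have hzU := (hP i hiM).sub (hXP i hz)
      have hwU := (hP i' hi').sub (hXP i' hw)
      apply hw.2
      obtain ⟨j'', hj'', b, hb⟩ := exists_digit (-(j' : ℤ_[p]) + (j : ℤ_[p]))
      refine (hEmem i' w).mpr ⟨i, hii, j'', hj'', D.g (p * b) z,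
        (hP i hiM).inv_closure b (subset_closure (hXP i hz)), ?_⟩
      rw [← D.hgadd _ _ z hzU, ← hb, D.hgadd _ _ z hzU, ← hwz, D.inv _ hwU]
    intro i hi i' hi' j hj j' hj' hne
    rcases lt_trichotomy i i' with h | h | h
    · exact c2 i i' h hi' j hj j' hj'
    · subst h
      have hjj : j ≠ j' := fun h => hne (by rw [h])
      rcases lt_or_gt_of_ne hjj with h | h
      · exact c1 i hi j j' h hj'
      · exact (c1 i hi j' j h hj).symm
    · exact (c2 i' i h hi j' hj' j hj).symm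
  -- the open cover
  set O : Set V := ⋃ i ∈ Finset.range M, ⋃ j ∈ Finset.range p, D.g (j : ℤ_[p]) '' P i with hOdef
  have hOmem : ∀ x, x ∈ O ↔ ∃ i < M, ∃ j < p, ∃ z ∈ P i, D.g (j : ℤ_[p]) z = x := by
    intro x
    rw [hOdef]
    simp only [mem_iUnion, Finset.mem_range, exists_prop, mem_image]
  have hOo : IsOpen O := isOpen_biUnion fun i hi => isOpen_biUnion fun j _ =>
    D.image_open _ (hP i (Finset.mem_range.mp (Finset.mem_coe.mp hi))).sub
      (hP i (Finset.mem_range.mp (Finset.mem_coe.mp hi))).op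
  have hKO : ∀ x ∈ D.U, F x = y → x ∈ O := by
    intro x hx heq
    obtain ⟨i, hi, hxi⟩ := hKP x ⟨hx, heq⟩
    refine (hOmem x).mpr ⟨i, hi, 0, hp.out.pos, x, hxi, ?_⟩
    rw [Nat.cast_zero]; exact D.hg0 x hx
  have hO : ∀ x ∈ O, x ∉ B → ∃ i < M, ∃ j < p, x ∈ D.g (j : ℤ_[p]) '' X i := by
    intro x hx hxB
    have hex : ∃ i, i < M ∧ ∃ j < p, ∃ z ∈ P i, D.g (j : ℤ_[p]) z = x := by
      obtain ⟨i, hi, h⟩ := (hOmem x).mp hx
      exact ⟨i, hi, h⟩
    obtain ⟨hi, j, hj, z, hz, hzx⟩ := Nat.find_spec hex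
    set i := Nat.find hex with hidef
    have hzU := (hP i hi).sub hz
    refine ⟨i, hi, j, hj, z, ⟨hz, fun hzE => ?_⟩, hzx⟩
    obtain ⟨l, hl, j', hj', w, hw, hwz⟩ := (hEmem i z).mp hzE
    have hlM : l < M := hl.trans hi
    have hwU := (hP l hlM).cl hw
    obtain ⟨j'', hj'', b, hb⟩ := exists_digit ((j : ℤ_[p]) + (j' : ℤ_[p]))
    have h1 : D.g (j'' : ℤ_[p]) (D.g (p * b) w) = x := by
      rw [← D.hgadd _ _ w hwU, ← hb, D.hgadd _ _ w hwU, hwz, hzx]
    by_cases hwP : D.g (p * b) w ∈ P l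
    · exact Nat.find_min hex hl ⟨hlM, j'', hj'', _, hwP, h1⟩
    · apply hxB
      refine (hBmem x).mpr ⟨l, hlM, j'', hj'', _, ?_, h1⟩
      rw [(hP l hlM).op.frontier_eq]
      exact ⟨(hP l hlM).inv_closure b hw, hwP⟩
  -- the fibre on the walls
  set Δ : Set V := {x | x ∈ B ∧ F x = y} with hΔ
  have hΔU : Δ ⊆ D.U := fun x hx => hBU hx.1
  have hΔc : IsCompact Δ := by
    have h1 : Δ = B ∩ F ⁻¹' {y} := rfl
    rw [h1]
    exact hBc.of_isClosed_subset ((hF.mono (hBU.trans hUcl)).preimage_isClosed_of_isClosed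
      hBc.isClosed isClosed_singleton) inter_subset_left
  have hΔtd : IsTotallyDisconnected Δ := by
    apply hH Δ hΔU
    rw [Set.disjoint_left]
    intro x hx
    obtain ⟨i, hi, j, hj, z, hz, rfl⟩ := (hBmem x).mp hx.1
    apply (hP i hi).miss j hj z hz
    rw [← hFinv (j : ℤ_[p]) z (hPfrU i hi hz)]
    exact hx.2
  have hTΔ : ∀ a, ∀ x ∈ Δ, D.g a x ∈ Δ := fun a x hx =>
    ⟨hBinv a x hx.1, by rw [hFinv a x (hΔU hx)]; exact hx.2⟩
  have hΔcs : CompactSpace Δ := isCompact_iff_compactSpace.mp hΔc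
  have hΔtds : TotallyDisconnectedSpace Δ := totallyDisconnectedSpace_subtype_iff.mpr hΔtd
  set T : ℤ_[p] → Δ → Δ := fun a x => ⟨D.g a x, hTΔ a x x.2⟩ with hT
  have hTc : Continuous (fun q : ℤ_[p] × Δ => T q.1 q.2) := by
    apply Continuous.subtype_mk
    have h1 : Continuous (fun q : ℤ_[p] × Δ => ((q.1, (q.2 : V)) : ℤ_[p] × V)) := by fun_prop
    exact D.hgj.comp_continuous h1 (fun q => ⟨mem_univ _, hΔU q.2.2⟩)
  obtain ⟨A, hAc, hAinv, hAcov, hAd⟩ := exists_split_inv hTc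
    (fun x => Subtype.ext (D.hg0 x (hΔU x.2))) (fun a b x => Subtype.ext (D.hgadd a b x (hΔU x.2)))
    (fun x => by
      obtain ⟨i, hi, j, hj, z, hz, hzx⟩ := (hBmem x).mp x.2.1
      refine ⟨1, fun heq => ?_⟩
      have hzU := hPfrU i hi hz
      have h1 : D.g 1 (x : V) = x := congrArg Subtype.val heq
      have h2 : D.g ((1 : ℕ) : ℤ_[p]) z = z := by
        rw [← hzx, ← D.hgadd _ _ z hzU] at h1
        have h3 := congrArg (D.g (-(j : ℤ_[p]))) h1
        rw [D.inv _ hzU, ← D.hgadd _ _ z hzU] at h3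
        have e : -(j : ℤ_[p]) + (1 + (j : ℤ_[p])) = ((1 : ℕ) : ℤ_[p]) := by push_cast; ring
        rwa [e] at h3
      have hzc := frontier_subset_closure hz
      exact Set.disjoint_left.mp ((hP i hi).disj 1 one_pos hp.out.one_lt) ⟨z, hzc, h2⟩ hzc)
  set A' : Set V := Subtype.val '' A with hA'
  have hA'Δ : A' ⊆ Δ := by rintro _ ⟨x, -, rfl⟩; exact x.2
  apply wall_core D hF hFinv hfr hBc hBU hBinv hB0 (A := A')
    ((hAc.isClosed.isCompact).image continuous_subtype_val) (fun x hx => (hA'Δ hx).1)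
    _ _ _ hXo hXc hXB hXinv hXd hOo hKO hO hk
  · rintro b _ ⟨x, hx, rfl⟩
    exact ⟨T (p * b) x, hAinv b x hx, rfl⟩
  · intro x hx heq
    obtain ⟨i, hi, z, hz, hzx⟩ := hAcov ⟨x, hx, heq⟩
    exact ⟨i, hi, z, ⟨z, hz, rfl⟩, congrArg Subtype.val hzx⟩
  · rintro i hi j hj hij _ ⟨z, hz, rfl⟩ _ ⟨w, hw, rfl⟩ heq
    exact hAd i hi j hj hij z hz w hw (Subtype.ext heq)

end Pool.Agent.Helper3.HS
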