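import Pool.Agent.Helper3.HS.AvgFibre
import Pool.Agent.Helper3.HS2.GSlice
import Pool.Agent.Helper3.HS2.Good

/-!
# Averages and good neighbourhoods
-/

set_option autoImplicit false
set_option linter.unusedSectionVars false
set_option linter.unusedVariables false

open Set MeasureTheory Metric Filter Topology
open scoped NNReal ENNReal Function

namespace Pool.Agent.Helper3.HS

variable {d : ℕ} {p : ℕ} [hp : Fact p.Prime]

/-- Fubini's theorem for null sets. -/
theorem ae_cons {m : ℕ} {Z : Set (Fin (m + 1) → ℝ)} (hZ : volume Z = 0) :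
    ∀ᵐ y ∂(volume : Measure (Fin m → ℝ)), ∀ᵐ t ∂(volume : Measure ℝ),
      (Fin.cons t y : Fin (m + 1) → ℝ) ∉ Z := by
  set Z' := toMeasurable volume Z with hZ'
  have hZ'm : MeasurableSet Z' := measurableSet_toMeasurable _ _
  have hZ'0 : volume Z' = 0 := by rw [hZ', measure_toMeasurable]; exact hZ
  have hmp := (volume_preserving_piFinSuccAbove (fun _ : Fin (m + 1) => ℝ) 0).symm
  have h1 : ∀ᵐ z ∂(volume : Measure (ℝ × (Fin m → ℝ))),
      (MeasurableEquiv.piFinSuccAbove (fun _ : Fin (m + 1) => ℝ) 0).symm z ∉ Z' := by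
    have h2 : ∀ᵐ v ∂(volume : Measure (Fin (m + 1) → ℝ)), v ∉ Z' :=
      measure_eq_zero_iff_ae_notMem.mp hZ'0
    exact hmp.quasiMeasurePreserving.ae h2
  have h2 : ∀ᵐ z ∂((volume : Measure ℝ).prod (volume : Measure (Fin m → ℝ))),
      (Fin.cons z.1 z.2 : Fin (m + 1) → ℝ) ∉ Z' := by
    have h3 : (volume : Measure (ℝ × (Fin m → ℝ))) = (volume : Measure ℝ).prod volume := rfl
    rw [← h3]
    filter_upwards [h1] with z hz
    have e : (MeasurableEquiv.piFinSuccAbove (fun _ : Fin (m + 1) => ℝ) 0).symm z =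
        (Fin.cons z.1 z.2 : Fin (m + 1) → ℝ) := by
      change (Fin.insertNth (α := fun _ => ℝ) 0 z.1 z.2 : Fin (m + 1) → ℝ) = _
      exact Fin.insertNth_zero _ _
    rwa [e] at hz
  have hmeas : MeasurableSet {z : ℝ × (Fin m → ℝ) | (Fin.cons z.1 z.2 : Fin (m + 1) → ℝ) ∉ Z'} := by
    have hc : Continuous (fun z : ℝ × (Fin m → ℝ) => (Fin.cons z.1 z.2 : Fin (m + 1) → ℝ)) := by
      apply continuous_pi
      intro i
      refine Fin.cases ?_ (fun i => ?_) i
      · simp only [Fin.cons_zero]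
        exact continuous_fst
      · simp only [Fin.cons_succ]
        exact (continuous_apply i).comp continuous_snd
    exact hc.measurable hZ'm.compl
  have h3 := (Measure.ae_ae_comm (μ := (volume : Measure ℝ))
    (ν := (volume : Measure (Fin m → ℝ)))
    (p := fun t y => (Fin.cons t y : Fin (m + 1) → ℝ) ∉ Z') hmeas).mp
    (Measure.ae_ae_of_ae_prod h2)
  filter_upwards [h3] with y hy
  filter_upwards [hy] with t ht
  exact fun h => ht (subset_toMeasurable _ _ h)

/-- The variation of a pair. -/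
theorem GV_cons {m m' e : ℕ} {f : (Fin (d + 1) → ℝ) → (Fin m → ℝ)}
    {h : (Fin (d + 1) → ℝ) → (Fin m' → ℝ)} {g : (Fin (d + 1) → ℝ) → ℝ} (hf : Continuous f)
    {u₀ : Fin (d + 1) → ℝ} {r : ℝ} (N : ℕ)
    (hg : ∀ x z, edist (g x) (g z) ≤ edist (h x) (h z)) :
    GV e (fun x => (Fin.cons (g x) (f x) : Fin (m + 1) → ℝ)) u₀ r N ≤
      GV e f u₀ r N + GV e h u₀ r N := by
  unfold GV
  rw [← Finset.sum_add_distrib]
  apply Finset.sum_le_sum
  intro i _
  rw [← lintegral_add_left (measurable_gsum e hf u₀ r N i)]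
  apply lintegral_mono
  intro t
  simp only
  rw [← Finset.sum_add_distrib]
  apply Finset.sum_le_sum
  intro c _
  set A := gDiam f u₀ r N i t (fun k => (c k : ℕ)) with hA
  set B := gDiam h u₀ r N i t (fun k => (c k : ℕ)) with hB
  have h1 : gDiam (fun x => (Fin.cons (g x) (f x) : Fin (m + 1) → ℝ)) u₀ r N i t
      (fun k => (c k : ℕ)) ≤ max A B := by
    apply Metric.ediam_le
    rintro _ ⟨w, hw, rfl⟩ _ ⟨w', hw', rfl⟩
    rw [edist_pi_le_iff]
    intro k
    refine Fin.cases ?_ (fun k => ?_) k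
    · simp only [Fin.cons_zero]
      refine (hg _ _).trans (le_trans ?_ (le_max_right _ _))
      exact Metric.edist_le_ediam_of_mem ⟨w, hw, rfl⟩ ⟨w', hw', rfl⟩
    · simp only [Fin.cons_succ]
      refine (edist_le_pi_edist _ _ k).trans (le_trans ?_ (le_max_left _ _))
      exact Metric.edist_le_ediam_of_mem (s := (fun w => f (slc i t w)) '' _)
        ⟨w, hw, rfl⟩ ⟨w', hw', rfl⟩
  refine (pow_le_pow_left₀ zero_le h1 e).trans ?_
  rcases le_total A B with h2 | h2
  · rw [max_eq_right h2]; exact le_add_self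
  · rw [max_eq_left h2]; exact le_self_add

/-- A point with a nontrivial orbit is moved by every unit. -/
theorem moved_unit {V : Type*} [NormedAddCommGroup V] (D : PreDat V p) {u : V} (hu : u ∈ D.U)
    (hm : ∃ a, D.g a u ≠ u) {c : ℤ_[p]} (hc : IsUnit c) : D.g c u ≠ u := by
  intro hcu
  obtain ⟨a, ha⟩ := hm
  apply ha
  have hgc : Continuous (fun a : ℤ_[p] => D.g a u) := by
    have h1 : Continuous (fun a : ℤ_[p] => ((a, u) : ℤ_[p] × V)) := by fun_prop
    exact D.hgj.comp_continuous h1 (fun a => ⟨mem_univ _, hu⟩)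
  have hcl : IsClosed {a : ℤ_[p] | D.g (a * c) u = u} := by
    apply isClosed_eq _ continuous_const
    exact hgc.comp (continuous_id.mul continuous_const)
  have hnat : ∀ n : ℕ, D.g ((n : ℤ_[p]) * c) u = u := by
    intro n
    induction n with
    | zero => rw [Nat.cast_zero, zero_mul, D.hg0 u hu]
    | succ n ih => rw [Nat.cast_succ, add_mul, one_mul, D.hgadd _ _ u hu, hcu, ih]
  have hall : ∀ a : ℤ_[p], D.g (a * c) u = u := by
    intro a
    have : a ∈ closure (Set.range (Nat.cast : ℕ → ℤ_[p])) := PadicInt.denseRange_natCast a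
    apply hcl.closure_subset_iff.mpr _ this
    rintro _ ⟨n, rfl⟩
    exact hnat n
  obtain ⟨v, hv⟩ := hc
  have := hall (a * (v⁻¹ : (ℤ_[p])ˣ))
  rwa [mul_assoc, ← hv, Units.inv_mul, mul_one] at this

section avg

variable {A : Type*} [TopologicalSpace A] [CompactSpace A] [MeasurableSpace A] [BorelSpace A]
  {ν : Measure A} [IsProbabilityMeasure ν]

theorem ravg_continuous {f : (Fin (d + 1) → ℝ) → A → ℝ}
    (hf : Continuous (fun q : (Fin (d + 1) → ℝ) × A => f q.1 q.2)) : Continuous (fun x => ∫ a, f x a ∂ν) := by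
  have h := continuous_parametric_integral_of_continuous (μ := ν) (s := (univ : Set A))
    (f := f) hf isCompact_univ
  simpa using h

theorem int_lt {f : A → ℝ} (hf : Continuous f) {t : ℝ} (h : ∀ a, f a < t) [Nonempty A] :
    ∫ a, f a ∂ν < t := by
  obtain ⟨a₀, -, ha₀⟩ := isCompact_univ.exists_isMaxOn univ_nonempty hf.continuousOn
  obtain ⟨M, hM⟩ := isCompact_univ.exists_bound_of_continuousOn hf.continuousOn
  have hint : Integrable f ν :=
    Integrable.of_bound hf.aestronglyMeasurable M (ae_of_all _ fun a => hM a (mem_univ a))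
  have h1 : ∫ a, f a ∂ν ≤ ∫ _a, f a₀ ∂ν :=
    integral_mono hint (integrable_const _) (fun a => ha₀ (mem_univ a))
  rw [integral_const] at h1
  have h2 : ν.real univ = 1 := by simp
  rw [h2, one_smul] at h1
  exact h1.trans_lt (h a₀)

theorem exists_lt_of_int {f : A → ℝ} (hf : Continuous f) {t : ℝ} (h : ∫ a, f a ∂ν < t)
    [Nonempty A] : ∃ a, f a < t := by
  by_contra hcon
  push Not at hcon
  obtain ⟨M, hM⟩ := isCompact_univ.exists_bound_of_continuousOn hf.continuousOn
  have hint : Integrable f ν :=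
    Integrable.of_bound hf.aestronglyMeasurable M (ae_of_all _ fun a => hM a (mem_univ a))
  have h1 : ∫ _a, t ∂ν ≤ ∫ a, f a ∂ν := integral_mono (integrable_const _) hint hcon
  rw [integral_const] at h1
  have h2 : ν.real univ = 1 := by simp
  rw [h2, one_smul] at h1
  linarith

end avg

end Pool.Agent.Helper3.HS
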