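import Pool.Agent.Helper3.HS2.GoodSet

/-!
# The averaged map and its good neighbourhoods
-/

set_option autoImplicit false
set_option linter.unusedSectionVars false
set_option linter.unusedVariables false

open Set MeasureTheory Metric Filter Topology
open scoped NNReal ENNReal Function

namespace Pool.Agent.Helper3.HS

variable {d : ℕ} {p : ℕ} [hp : Fact p.Prime]

theorem avg_good (D : PreDat (Fin (d + 1) → ℝ) p) {c : Fin (d + 1) → ℝ} {σ : ℝ} (hσ : 0 < σ)
    (hDU : D.U ⊆ closedBall c σ) {Γ : ℤ_[p] → (Fin (d + 1) → ℝ) → (Fin (d + 1) → ℝ)}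
    (hΓ : Continuous (fun q : ℤ_[p] × (Fin (d + 1) → ℝ) => Γ q.1 q.2))
    (hΓg : ∀ a b, ∀ u ∈ D.U, Γ a (D.g b u) = Γ (a + b) u)
    (hinj : InjOn (Γ 0) (closedBall c σ)) {K : ℝ≥0∞} (hK : K ≠ ∞) {ε : ℝ} (hε : 0 < ε)
    (hGV : ∀ a, ∀ N : ℕ, 0 < N →
      GV (d + 2) (Γ a) c σ N ≤ K * ENNReal.ofReal ((N : ℝ) ^ (-ε))) :
    ∃ F : (Fin (d + 1) → ℝ) → (Fin (d + 1) → ℝ), Continuous F ∧
      (∃ H Z : Set (Fin (d + 1) → ℝ), volume Z = 0 ∧
        (∀ S ⊆ closedBall c σ, Disjoint S H → IsTotallyDisconnected S) ∧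
        ∀ y ∉ Z, ∀ u ∈ D.U, F u = y → (∃ a, D.g a u ≠ u) → ∃ P, Good volume D F y H P ∧ u ∈ P) ∧
      (∀ x x' b, (∀ a, Γ a x' = Γ (a + b) x) → F x' = F x) ∧
      (∀ x v δ, (∀ a, dist (Γ a x) v ≤ δ) → dist (F x) v ≤ δ) ∧
      (∀ (ℓ : (Fin (d + 1) → ℝ) →L[ℝ] ℝ) x, (∀ a, 0 < ℓ (Γ a x)) → 0 < ℓ (F x)) := by
  let _ : MeasurableSpace ℤ_[p] := borel ℤ_[p]
  have : BorelSpace ℤ_[p] := ⟨rfl⟩
  set ν : Measure ℤ_[p] :=
    Measure.addHaarMeasure (⊤ : TopologicalSpace.PositiveCompacts ℤ_[p]) with hν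
  have hprob : IsProbabilityMeasure ν := by
    constructor
    have := Measure.addHaarMeasure_self (K₀ := (⊤ : TopologicalSpace.PositiveCompacts ℤ_[p]))
    simpa using this
  set F : (Fin (d + 1) → ℝ) → (Fin (d + 1) → ℝ) := fun x => ∫ a, Γ a x ∂ν with hF
  have hinvF : ∀ x x' b, (∀ a, Γ a x' = Γ (a + b) x) → F x' = F x := by
    intro x x' b h
    rw [hF]
    simp only [h]
    exact integral_add_right_eq_self (fun a => Γ a x) b
  have hFinv : ∀ a, ∀ x ∈ D.U, F (D.g a x) = F x := fun b x hx =>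
    hinvF x _ b fun a => hΓg a b x hx
  refine ⟨F, gavg_continuous hΓ, ?_, hinvF, ?_, ?_⟩
  · -- the dense sequence
    set qs : ℕ → (Fin (d + 1) → ℝ) := TopologicalSpace.denseSeq (Fin (d + 1) → ℝ) with hqs
    have hqsd : DenseRange qs := TopologicalSpace.denseRange_denseSeq _
    set S : ℕ → Set (Fin (d + 1) → ℝ) := fun n => range (fun b : ℤ_[p] => Γ (p * b) (qs n)) with hS
    set Γ' : ℕ × ℕ → ℤ_[p] → (Fin (d + 1) → ℝ) → (Fin (d + 2) → ℝ) := fun i a x =>
      Fin.cons (infDist (Γ (p * a + (-(i.2 : ℤ_[p]))) x) (S i.1)) (Γ a x) with hΓ'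
    have hΓ'c : ∀ i, Continuous (fun q : ℤ_[p] × (Fin (d + 1) → ℝ) => Γ' i q.1 q.2) := by
      intro i
      apply continuous_pi
      intro k
      refine Fin.cases ?_ (fun k => ?_) k
      · simp only [hΓ', Fin.cons_zero]
        exact (cont_arg hΓ (S i.1) (-(i.2 : ℤ_[p]))).comp
          (f := fun q : ℤ_[p] × (Fin (d + 1) → ℝ) => (q.2, q.1)) (by fun_prop)
      · simp only [hΓ', Fin.cons_succ]
        exact (continuous_apply k).comp hΓ
    have hGV' : ∀ i a, ∀ N : ℕ, 0 < N → GV (d + 2) (Γ' i a) c σ N ≤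
        (2 * K) * ENNReal.ofReal ((N : ℝ) ^ (-ε)) := by
      intro i a N hN
      have h1 := GV_cons (e := d + 2) (f := Γ a) (h := Γ (p * a + (-(i.2 : ℤ_[p]))))
        (g := fun x => infDist (Γ (p * a + (-(i.2 : ℤ_[p]))) x) (S i.1)) (u₀ := c) (r := σ)
        (hΓ.comp (continuous_const.prodMk continuous_id)) N
        (fun x z => by
          have := (lipschitz_infDist_pt (S i.1)).edist_le_mul
            (Γ (p * a + (-(i.2 : ℤ_[p]))) x) (Γ (p * a + (-(i.2 : ℤ_[p]))) z)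
          rwa [ENNReal.coe_one, one_mul] at this)
      refine h1.trans ((add_le_add (hGV a N hN) (hGV _ N hN)).trans_eq ?_)
      rw [two_mul, add_mul]
    set Φ : ℕ × ℕ → (Fin (d + 1) → ℝ) → (Fin (d + 2) → ℝ) := fun i x => ∫ a, Γ' i a x ∂ν with hΦ
    have hΦc : ∀ i, Continuous (Φ i) := fun i => gavg_continuous (hΓ'c i)
    have hΦeq : ∀ i x, Φ i x = Fin.cons (lev ν Γ (S i.1) (-(i.2 : ℤ_[p])) x) (F x) := by
      intro i x
      have hint : Integrable (fun a => Γ' i a x) ν := gavg_integrable (hΓ'c i) x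
      have hproj : ∀ k, Φ i x k = ∫ a, Γ' i a x k ∂ν := fun k =>
        ((ContinuousLinearMap.proj (R := ℝ) (φ := fun _ : Fin (d + 2) => ℝ) k).integral_comp_comm
          hint).symm
      have hprojF : ∀ k, F x k = ∫ a, Γ a x k ∂ν := fun k =>
        ((ContinuousLinearMap.proj (R := ℝ) (φ := fun _ : Fin (d + 1) => ℝ) k).integral_comp_comm
          (gavg_integrable hΓ x)).symm
      funext k
      rw [hproj]
      refine Fin.cases ?_ (fun k => ?_) k
      · simp only [hΓ', Fin.cons_zero]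
        rfl
      · simp only [hΓ', Fin.cons_succ]
        rw [hprojF]
    obtain ⟨H, Z', hZ', hHZ', hH⟩ := exists_grid hΦc hσ (u₀ := c) (fun i η hη => by
      obtain ⟨N, hN, hle⟩ := tendsto_bound (K := 2 * K)
        (ENNReal.mul_ne_top (by norm_num) hK) hε hη
      exact ⟨N, hN, (GV_avg (hΓ'c i) c σ N (fun a => hGV' i a N hN)).trans hle⟩)
    have hae := ae_cons hZ'
    refine ⟨H, {y | ¬ ∀ᵐ t ∂(volume : Measure ℝ), (Fin.cons t y : Fin (d + 2) → ℝ) ∉ Z'},
      hae, hH, ?_⟩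
    intro y hy u hu heq hm
    have hy' : ∀ᵐ t ∂(volume : Measure ℝ), (Fin.cons t y : Fin (d + 2) → ℝ) ∉ Z' := by
      by_contra hcon
      exact hy hcon
    apply exists_good_set D hDU hΓ hΓg hinj hqsd (ν := ν) _ hFinv hu hm
    intro n j
    filter_upwards [hy'] with t ht w hw hFw hlev hwH
    apply ht
    have h1 := hHZ' (n, j) w hwH
    rw [hΦeq] at h1
    simp only at h1
    rwa [hFw, hlev] at h1
  · intro x v δ h
    have h1 : (∫ a, Γ a x ∂ν) - v = ∫ a, (Γ a x - v) ∂ν := by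
      rw [integral_sub (gavg_integrable hΓ x) (integrable_const v), integral_const]
      simp
    rw [dist_eq_norm, hF]
    simp only
    rw [h1]
    have h2 := norm_integral_le_of_norm_le_const (μ := ν) (f := fun a => Γ a x - v) (C := δ)
      (ae_of_all _ fun a => by rw [← dist_eq_norm]; exact h a)
    simpa using h2
  · intro ℓ x h
    have hc : Continuous (fun a => ℓ (Γ a x)) :=
      ℓ.continuous.comp (hΓ.comp (continuous_id.prodMk continuous_const))
    obtain ⟨a₀, -, ha₀⟩ := isCompact_univ.exists_isMinOn (univ_nonempty) hc.continuousOn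
    have h1 : ℓ (∫ a, Γ a x ∂ν) = ∫ a, ℓ (Γ a x) ∂ν :=
      (ContinuousLinearMap.integral_comp_comm ℓ (gavg_integrable hΓ x)).symm
    rw [hF]
    simp only
    rw [h1]
    have h2 : ∫ a : ℤ_[p], ℓ (Γ a₀ x) ∂ν ≤ ∫ a, ℓ (Γ a x) ∂ν := by
      apply integral_mono (integrable_const _) (ℓ.integrable_comp (gavg_integrable hΓ x))
      intro a
      exact ha₀ (mem_univ a)
    rw [integral_const] at h2
    have h3 : ν.real univ = 1 := by simp
    rw [h3, one_smul] at h2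
    exact (h a₀).trans_le h2

end Pool.Agent.Helper3.HS
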