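import Pool.Agent.Helper3.HS.ChartAct
import Pool.Agent.Helper3.HS2.AvgGood2

/-!
# The core lemma in a chart
-/

set_option autoImplicit false
set_option linter.unusedSectionVars false
set_option linter.unusedVariables false

open Set MeasureTheory Metric Filter Topology
open scoped NNReal ENNReal

namespace Pool.Agent.Helper3.HS

variable {d : ℕ} {X : Type*} [MetricSpace X] {G : Type*} [Group G] [TopologicalSpace G]
  [MulAction G X] [ContinuousSMul G X] {p : ℕ} [hp : Fact p.Prime]

/-- The action in a chart. -/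
noncomputable def cpre {e : OpenPartialHomeomorph X (Fin (d + 1) → ℝ)}
    {θ : Multiplicative ℤ_[p] →* G} {c : Fin (d + 1) → ℝ} {σ : ℝ} (hθ : Continuous θ)
    (hσ : 0 < σ) (hB : closedBall c σ ⊆ e.target)
    (hsrc : ∀ a : ℤ_[p], ∀ u ∈ closedBall c σ, θ (Multiplicative.ofAdd a) • e.symm u ∈ e.source) :
    PreDat (Fin (d + 1) → ℝ) p where
  U := invSet e θ c σ
  g := fun a u => act e θ a (clamp c σ u)
  hU := invSet_isOpen hθ hB hsrc
  hUb := isBounded_ball.subset (fun u hu => hu.1)
  hg := fun a => by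
    have h1 : ContinuousOn (fun u => act e θ a u) (closedBall c σ) := by
      have h5 : Continuous (fun x : Fin (d + 1) → ℝ => ((a, x) : ℤ_[p] × (Fin (d + 1) → ℝ))) := by
        fun_prop
      exact (act_continuousOn hθ hB hsrc).comp h5.continuousOn (fun x hx => ⟨mem_univ _, hx⟩)
    exact h1.comp_continuous (continuous_clamp c σ) (fun u => clamp_mem hσ u)
  hgj := by
    apply Continuous.continuousOn
    exact (act_continuousOn hθ hB hsrc).comp_continuous
      (f := fun q : ℤ_[p] × (Fin (d + 1) → ℝ) => (q.1, clamp c σ q.2))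
      (continuous_fst.prodMk ((continuous_clamp c σ).comp continuous_snd))
      (fun q => ⟨mem_univ _, clamp_mem hσ _⟩)
  hgU := fun a u hu => by
    rw [clamp_of_mem hσ (ball_subset_closedBall hu.1)]
    exact invSet_act hsrc a hu
  hg0 := fun u hu => by
    rw [clamp_of_mem hσ (ball_subset_closedBall hu.1)]
    exact act_zero hB (ball_subset_closedBall hu.1)
  hgadd := fun a b u hu => by
    rw [clamp_of_mem hσ (ball_subset_closedBall hu.1),
      clamp_of_mem hσ (ball_subset_closedBall (hu.2 b))]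
    exact act_add hsrc a b (ball_subset_closedBall hu.1)

section

variable {e : OpenPartialHomeomorph X (Fin (d + 1) → ℝ)} {θ : Multiplicative ℤ_[p] →* G}
  {c : Fin (d + 1) → ℝ} {σ : ℝ} (hθ : Continuous θ) (hσ : 0 < σ) (hB : closedBall c σ ⊆ e.target)
  (hsrc : ∀ a : ℤ_[p], ∀ u ∈ closedBall c σ, θ (Multiplicative.ofAdd a) • e.symm u ∈ e.source)

theorem cpre_g {u : Fin (d + 1) → ℝ} (hu : u ∈ closedBall c σ) (a : ℤ_[p]) :
    (cpre hθ hσ hB hsrc).g a u = act e θ a u := by
  change act e θ a (clamp c σ u) = _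
  rw [clamp_of_mem hσ hu]

theorem core_chart2 {F : (Fin (d + 1) → ℝ) → (Fin (d + 1) → ℝ)} (hF : Continuous F)
    (hFT : ∀ a, ∀ u ∈ invSet e θ c σ, F (act e θ a u) = F u) {y : Fin (d + 1) → ℝ}
    {H : Set (Fin (d + 1) → ℝ)}
    (hH : ∀ S ⊆ closedBall c σ, Disjoint S H → IsTotallyDisconnected S)
    (hgood : ∀ u ∈ invSet e θ c σ, F u = y →
      ∃ P, Good volume (cpre hθ hσ hB hsrc) F y H P ∧ u ∈ P)
    {k : ℝ} (hk : HasDeg volume (invSet e θ c σ) F y k) : ∃ m : ℤ, k = p * m := by
  set D := cpre hθ hσ hB hsrc with hD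
  have hkne := HasDeg.ne volume hk
  set U := invSet e θ c σ with hU
  have hUo : IsOpen U := invSet_isOpen hθ hB hsrc
  have hUQ : U ⊆ ball c σ := fun u hu => hu.1
  have hUc : U ⊆ closedBall c σ := hUQ.trans ball_subset_closedBall
  have hUb : Bornology.IsBounded U := isBounded_ball.subset hUQ
  have hcl : closure (ball c σ) = closedBall c σ := closure_ball c hσ.ne'
  have hFinv : ∀ a, ∀ x ∈ D.U, F (D.g a x) = F x := by
    intro a x hx
    rw [hD, cpre_g hθ hσ hB hsrc (hUc hx)]
    exact hFT a x hx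
  have hgim : ∀ a, ∀ O ⊆ ball c σ, D.g a '' O = act e θ a '' O := fun a O hO =>
    image_congr fun x hx => cpre_g hθ hσ hB hsrc (ball_subset_closedBall (hO hx)) a
  have hsign : ∀ a : ℤ_[p], ∃ s : ℝ, (s = 1 ∨ s = -1) ∧ ∀ U' ⊆ ball c σ, IsOpen U' → ∀ x ∈ U',
      HasDeg volume U' (D.g a) (D.g a x) s := by
    intro a
    apply exists_sign volume isOpen_ball isBounded_ball (convex_ball c σ).isPreconnected
      ⟨c, mem_ball_self hσ⟩ (D.hg a)
    · rw [hcl]
      intro x hx z hz h
      rw [cpre_g hθ hσ hB hsrc hx, cpre_g hθ hσ hB hsrc hz] at h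
      exact act_injOn hB hsrc a hx hz h
    · rw [hgim a _ Subset.rfl]
      exact smul_chart_isOpen hB (θ (Multiplicative.ofAdd a)) (hsrc a) _ Subset.rfl isOpen_ball
  by_cases hall : ∀ a, ∀ X' ⊆ U, IsOpen X' → ∀ x ∈ X', HasDeg volume X' (D.g a) (D.g a x) 1
  · set D' : Dat (volume : Measure (Fin (d + 1) → ℝ)) p := { toPreDat := D, hpos := hall } with hD'
    exact good_core D' (F := F) (y := y) (H := H) hF.continuousOn hFinv hkne
      (fun S hS hSH => hH S (hS.trans hUc) hSH) hgood hk
  · -- an orientation-reversing element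
    push Not at hall
    obtain ⟨a, X', hX'U, hX'o, x₀, hx₀, hne⟩ := hall
    obtain ⟨s, hs1, hs⟩ := hsign a
    have hs' : s = -1 := by
      rcases hs1 with h | h
      · exact absurd (h ▸ hs X' (hX'U.trans hUQ) hX'o x₀ hx₀) hne
      · exact h
    have hclinv : ∀ x ∈ closure U, F (D.g a x) = F x := by
      have h1 : IsClosed {x | F (D.g a x) = F x} := isClosed_eq (hF.comp (D.hg a)) hF
      exact fun x hx => closure_minimal (fun x hx => hFinv a x hx) h1 hx
    have hin : ∀ x ∈ closure U, F x = y → x ∈ U := by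
      intro x hx heq
      by_contra hn
      exact hkne x (by rw [hUo.frontier_eq]; exact ⟨hx, hn⟩) heq
    have hcomp := HasDeg.comp volume hUo hUb hUo hUb (D.hg a) hF (y := y) (s := s) (k := k)
      (fun x hx heq => by
        rw [hclinv x hx] at heq
        exact D.hgU a x (hin x hx heq))
      (fun x hx heq => by
        rw [hclinv x (frontier_subset_closure hx)] at heq
        exact hkne x hx heq)
      (fun z hz _ => by
        have h1 := hs U hUQ hUo (D.g (-a) z) (D.hgU _ z hz)
        rwa [D.inv' a hz] at h1) hk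
    have hcomp' := hcomp.congr volume (F' := F) (fun x hx => hclinv x (frontier_subset_closure hx))
    have h2 := HasDeg.unique volume hUo hUb hF.continuousOn hk hcomp'
    rw [hs'] at h2
    refine ⟨0, ?_⟩
    push_cast
    linarith

end

end Pool.Agent.Helper3.HS
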