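import Pool.Agent.Helper3.HS2.Wall

/-!
# Invariance of the local degrees
-/

set_option autoImplicit false
set_option linter.unusedSectionVars false
set_option linter.unusedVariables false

open Set MeasureTheory Metric Filter Topology
open scoped NNReal ENNReal Function

namespace Pool.Agent.Helper3.HS

variable {V : Type*} [NormedAddCommGroup V] [NormedSpace ℝ V] [FiniteDimensional ℝ V]
  [MeasurableSpace V] [BorelSpace V] {μ : Measure V} [μ.IsAddHaarMeasure]
  {p : ℕ} [hp : Fact p.Prime]

namespace Wall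

variable {D : Dat μ p} {W : Wall D}

/-- Chambers. -/
structure IsChamber (W : Wall D) (X : Set V) : Prop where
  op : IsOpen X
  cl : closure X ⊆ D.U
  fr : frontier X ⊆ W.B
  inv : ∀ b : ℤ_[p], ∀ z ∈ X, D.g (p * b) z ∈ X

variable {X : Set V}

theorem IsChamber.sub (hX : IsChamber W X) : X ⊆ D.U := subset_closure.trans hX.cl

theorem IsChamber.bdd (hX : IsChamber W X) : Bornology.IsBounded X := D.hUb.subset hX.sub

theorem IsChamber.image (hX : IsChamber W X) : D.g (p : ℤ_[p]) '' X = X := by
  apply Subset.antisymm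
  · rintro _ ⟨z, hz, rfl⟩
    have := hX.inv 1 z hz
    rwa [mul_one] at this
  · intro x hx
    refine ⟨D.g (-(p : ℤ_[p])) x, ?_, D.inv' _ (hX.sub hx)⟩
    have := hX.inv (-1) x hx
    rwa [mul_neg, mul_one] at this

theorem sum_shift (hX : IsChamber W X) {P : ℕ → V → V} (hP : ∀ l < p, W.Adm (P l)) :
    ∑ l ∈ Finset.range p, W.u X l (fun x => P l (D.g (p : ℤ_[p]) x)) =
      ∑ l ∈ Finset.range p, W.u X l (P l) := by
  obtain ⟨v, hv⟩ := exists_sum hX.op hX.cl hX.fr
  have h1 := hv P hP
  have hmix := adm_mix hP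
  have h2 : HasDeg μ (D.g (p : ℤ_[p]) '' X) (W.mix P) W.y
      (v + ∑ l ∈ Finset.range p, W.u X l (P l)) := by rw [hX.image]; exact h1
  have h3 := D.transport (p : ℤ_[p]) hX.op hX.sub hmix.1 h2
    (fun x hx => (hmix.comp (p : ℤ_[p])).2.2 x (hX.fr hx))
  have hPg : ∀ l < p, W.Adm (fun x => P l (D.g (p : ℤ_[p]) x)) := fun l hl => (hP l hl).comp _
  have h4 := deg_congr hX.op hX.cl hX.fr (hmix.comp (p : ℤ_[p])) (adm_mix hPg)
    (fun l hl x hxB hx => by
      have h5 : D.g (p : ℤ_[p]) x ∈ W.Nc l := by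
        have := W.hpshift l hl 1 x hx
        rwa [mul_one] at this
      rw [mix_core hl h5, mix_core hl hx]) h3
  have h5 := hv _ hPg
  have h6 := HasDeg.unique μ hX.op hX.bdd (adm_mix hPg).1.continuousOn h4 h5
  linarith

theorem shift_const (hX : IsChamber W X) {l : ℕ} (hl : l < p) {P P' : V → V} (hP : W.Adm P)
    (hP' : W.Adm P') : W.u X l (fun x => P (D.g (p : ℤ_[p]) x)) - W.u X l P =
      W.u X l (fun x => P' (D.g (p : ℤ_[p]) x)) - W.u X l P' := by
  classical
  have key : ∀ {P : V → V}, W.Adm P → W.u X l (fun x => P (D.g (p : ℤ_[p]) x)) - W.u X l P =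
      ∑ i ∈ (Finset.range p).erase l, W.u X i W.G -
      ∑ i ∈ (Finset.range p).erase l, W.u X i (fun x => W.G (D.g (p : ℤ_[p]) x)) := by
    intro P hP
    set Q : ℕ → V → V := fun i => if i = l then P else W.G with hQ
    have hQA : ∀ i < p, W.Adm (Q i) := by
      intro i _
      rw [hQ]
      simp only
      split_ifs
      · exact hP
      · exact W.adm_G
    have h1 := sum_shift hX hQA
    rw [← Finset.add_sum_erase _ _ (Finset.mem_range.mpr hl),
      ← Finset.add_sum_erase _ _ (Finset.mem_range.mpr hl)] at h1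
    have e1 : Q l = P := by rw [hQ]; simp
    have e2 : ∀ i ∈ (Finset.range p).erase l, Q i = W.G := by
      intro i hi
      rw [hQ]
      simp only
      rw [if_neg (Finset.ne_of_mem_erase hi)]
    rw [e1, Finset.sum_congr rfl (fun i hi => by rw [e2 i hi]),
      Finset.sum_congr (s₁ := (Finset.range p).erase l)
        (f := fun i => W.u X i (Q i)) rfl (fun i hi => by rw [e2 i hi])] at h1
    linarith
  rw [key hP, key hP']

/-- Small translations do not change the local degrees. -/
theorem u_small (hX : IsChamber W X) {l : ℕ} (hl : l < p) {P : V → V} (hP : W.Adm P) :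
    ∀ᶠ a in 𝓝 (0 : ℤ_[p]), W.u X l (fun x => P (D.g a x)) = W.u X l P := by
  obtain ⟨r, hr, hgap⟩ := exists_gap W.hBc hP.1.continuousOn hP.2.2
  have hev : ∀ᶠ a in 𝓝 (0 : ℤ_[p]), ∀ x ∈ W.B, dist (P (D.g a x)) (P x) < r := by
    apply W.hBc.eventually_forall_of_forall_eventually
    intro x hx
    have hxU := W.hBU hx
    have h1 : ContinuousAt (fun q : ℤ_[p] × V => D.g q.1 q.2) (0, x) := by
      apply D.hgj.continuousAt
      exact (isOpen_univ.prod D.hU).mem_nhds ⟨mem_univ _, hxU⟩
    have h2 : ContinuousAt (fun q : ℤ_[p] × V => dist (P (D.g q.1 q.2)) (P q.2)) (0, x) :=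
      Filter.Tendsto.dist
        (ContinuousAt.comp (g := P) (f := fun q : ℤ_[p] × V => D.g q.1 q.2)
          hP.1.continuousAt h1)
        (ContinuousAt.comp (g := P) (f := fun q : ℤ_[p] × V => q.2)
          hP.1.continuousAt continuousAt_snd)
    have h3 : dist (P (D.g 0 x)) (P x) < r := by rw [D.hg0 x hxU, dist_self]; exact hr
    exact h2.eventually (gt_mem_nhds h3)
  filter_upwards [hev] with a ha
  symm
  apply u_unique hX.op hX.cl hX.fr hl hP
  have hPa := hP.comp a
  apply HasDeg.homotopy μ (hX.op.inter (W.hN l hl)) (bounded_sub hX.cl inter_subset_left)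
    (continuous_loc hPa.1 hl).continuousOn (continuous_loc hP.1 hl).continuousOn
    (u_spec hX.op hX.cl hX.fr hl hPa)
  intro x hx t ht heq
  set A := W.loc l (fun x => P (D.g a x)) x with hA
  set A' := W.loc l P x with hA'
  have e : (1 - t) • (A - W.y) + t • (A' - W.y) = ((1 - t) • A + t • A') - W.y := by
    module
  rw [e] at heq
  have heq' := sub_eq_zero.mp heq
  have hout : x ∉ W.N l → ((1 - t) • A + t • A') = W.G x := by
    intro h2
    rw [hA, hA', loc_out hl h2, loc_out hl h2, ← add_smul, sub_add_cancel, one_smul]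
  rcases frontier_piece hX.op hX.fr hl hx with h | h
  · by_cases hxc : x ∈ W.Nc l
    · rw [hA, hA', loc_core hl hxc, loc_core hl hxc] at heq'
      have h1 := ha x h
      have h2 := hgap x h
      have h3 : dist W.y (P x) ≤ r := by
        rw [← heq', dist_eq_norm]
        have e2 : (1 - t) • P (D.g a x) + t • P x - P x = (1 - t) • (P (D.g a x) - P x) := by
          module
        rw [e2, norm_smul, Real.norm_of_nonneg (by linarith [ht.2]), ← dist_eq_norm]
        calc (1 - t) * dist (P (D.g a x)) (P x) ≤ 1 * r :=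
              mul_le_mul (by linarith [ht.1]) h1.le dist_nonneg zero_le_one
          _ = r := one_mul r
      rw [dist_comm] at h3
      linarith
    by_cases hxN : x ∈ W.N l
    · have h2 : (1 - t) • A + t • A' ∈ closedBall (W.F x) W.ε := by
        apply convex_closedBall _ _ _ _ (by linarith [ht.2]) ht.1 (by ring)
        · exact mem_closedBall.mpr (dist_loc hl (W.hBU h) (hPa.2.1 x (W.hBU h)))
        · exact mem_closedBall.mpr (dist_loc hl (W.hBU h) (hP.2.1 x (W.hBU h)))
      refine far h ?_ (mem_closedBall.mp h2) heq'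
      intro l' hl' hx'
      by_cases hll : l' = l
      · rw [hll] at hx'
        exact hxc hx'
      · exact other hl hxN l' hl' hll (W.hNcN l' hl' hx')
    · rw [hout hxN] at heq'
      exact W.hGB x h heq'
  · have h2 : x ∉ W.N l := by
      rw [(W.hN l hl).frontier_eq] at h
      exact h.2
    rw [hout h2] at heq'
    exact W.hGN l hl x h heq'

/-- The local degrees are invariant under the translation by `p`. -/
theorem u_shift (hX : IsChamber W X) {l : ℕ} (hl : l < p) {P : V → V} (hP : W.Adm P) :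
    W.u X l (fun x => P (D.g (p : ℤ_[p]) x)) = W.u X l P := by
  set κ := W.u X l (fun x => P (D.g (p : ℤ_[p]) x)) - W.u X l P with hκ
  have hiter : ∀ r : ℕ, W.u X l (fun x => P (D.g (p * (r : ℤ_[p])) x)) = W.u X l P + r * κ := by
    intro r
    induction r with
    | zero =>
      have : W.u X l (fun x => P (D.g (p * ((0 : ℕ) : ℤ_[p])) x)) = W.u X l P := by
        apply u_congr hX.op hX.cl hX.fr hl (hP.comp _) hP
        intro x hx
        rw [Nat.cast_zero, mul_zero, D.hg0 x hx]
      rw [this]
      simp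
    | succ r ih =>
      have h1 := shift_const hX hl (hP.comp (p * (r : ℤ_[p]))) hP
      have h2 : W.u X l (fun x => P (D.g (p * (((r + 1 : ℕ)) : ℤ_[p])) x)) =
          W.u X l (fun x => P (D.g (p * (r : ℤ_[p])) (D.g (p : ℤ_[p]) x))) := by
        apply u_congr hX.op hX.cl hX.fr hl (hP.comp _) ((hP.comp _).comp _)
        intro x hx
        rw [← D.hgadd _ _ x hx]
        congr 2
        push_cast
        ring
      rw [h2]
      push_cast
      rw [← hκ, ih] at h1
      linarith
  have hsm := u_small hX hl hP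
  have hlim : Tendsto (fun m : ℕ => (p : ℤ_[p]) * (((p ^ m : ℕ)) : ℤ_[p])) atTop (𝓝 0) := by
    have h1 : Tendsto (fun m : ℕ => ((p : ℤ_[p])) ^ m) atTop (𝓝 0) := by
      apply tendsto_pow_atTop_nhds_zero_of_norm_lt_one
      rw [PadicInt.norm_p]
      exact inv_lt_one_of_one_lt₀ (by exact_mod_cast hp.out.one_lt)
    have h2 := h1.const_mul (p : ℤ_[p])
    rw [mul_zero] at h2
    refine h2.congr fun m => ?_
    push_cast
    rfl
  obtain ⟨m, hm⟩ := (hlim.eventually hsm).exists
  rw [hiter (p ^ m)] at hm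
  have h3 : ((p ^ m : ℕ) : ℝ) * κ = 0 := by linarith
  have h4 : ((p ^ m : ℕ) : ℝ) ≠ 0 := by
    have := hp.out.pos
    positivity
  have h5 : κ = 0 := by
    rcases mul_eq_zero.mp h3 with h | h
    · exact absurd h h4
    · exact h
  rw [hκ] at h5
  linarith

/-- The equivariant modification. -/
noncomputable def star (W : Wall D) : V → V :=
  W.mix (fun l x => W.G (D.g (-(l : ℤ_[p])) x))

theorem adm_star : W.Adm W.star := adm_mix fun l _ => W.adm_G.comp _

theorem frontier_image_sub (hX : IsChamber W X) (a : ℤ_[p]) :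
    frontier (D.g a '' X) ⊆ W.B := by
  intro x hx
  obtain ⟨z, hz, rfl⟩ := D.frontier_image a hX.op hX.cl hx
  exact W.hBinv a z (hX.fr hz)

theorem chamber_deg (hX : IsChamber W X) {j : ℕ} (hj : j < p) {κ : ℝ}
    (hκ : HasDeg μ X W.star W.y κ) : HasDeg μ (D.g (j : ℤ_[p]) '' X) W.star W.y κ := by
  have hstar := adm_star (W := W)
  obtain ⟨κ', hκ'⟩ := HasDeg.exists μ (D.image_open (j : ℤ_[p]) hX.sub hX.op)
    (D.hUb.subset (D.image_sub (j : ℤ_[p]) hX.sub)) (F := W.star) hstar.1.continuousOn
    (y := W.y) (fun x hx => hstar.2.2 x (frontier_image_sub hX _ hx))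
  suffices κ' = κ by rwa [this] at hκ'
  have h1 := D.transport (j : ℤ_[p]) hX.op hX.sub hstar.1 hκ'
    (fun x hx => (hstar.comp _).2.2 x (hX.fr hx))
  obtain ⟨v, hv⟩ := exists_sum hX.op hX.cl hX.fr
  set P : ℕ → V → V := fun l x => W.G (D.g (-(l : ℤ_[p])) x) with hP
  have hPA : ∀ l < p, W.Adm (P l) := fun l _ => W.adm_G.comp _
  set P' : ℕ → V → V := fun l => if l + j < p then P l else
    (fun x => P l (D.g (p : ℤ_[p]) x)) with hP'
  have hPA' : ∀ l < p, W.Adm (P' l) := by
    intro l hl
    rw [hP']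
    simp only
    split_ifs
    · exact hPA l hl
    · exact (hPA l hl).comp _
  have h2 := deg_congr hX.op hX.cl hX.fr (hstar.comp _) (adm_mix hPA')
    (fun l hl x hxB hx => by
      have hxU := W.hBU hxB
      rw [mix_core hl hx, hP']
      simp only
      by_cases hlj : l + j < p
      · rw [if_pos hlj]
        have h3 := W.hshift l hl j hj x hx hlj
        change W.mix (fun l x => W.G (D.g (-(l : ℤ_[p])) x)) (D.g (j : ℤ_[p]) x) = _
        rw [mix_core hlj h3, ← D.hgadd _ _ x hxU, hP]
        simp only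
        congr 2
        push_cast
        ring
      · rw [if_neg hlj]
        rw [not_lt] at hlj
        have h3 := W.hshift' l hl j hj x hx hlj
        change W.mix (fun l x => W.G (D.g (-(l : ℤ_[p])) x)) (D.g (j : ℤ_[p]) x) = _
        rw [mix_core (by omega) h3, ← D.hgadd _ _ x hxU, hP]
        simp only
        rw [← D.hgadd _ _ x hxU]
        congr 2
        rw [Nat.cast_sub hlj]
        push_cast
        ring) h1
  have h3 := HasDeg.unique μ hX.op hX.bdd (adm_mix hPA').1.continuousOn h2 (hv P' hPA')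
  have h4 := HasDeg.unique μ hX.op hX.bdd hstar.1.continuousOn hκ (hv P hPA)
  rw [h3, h4]
  congr 1
  apply Finset.sum_congr rfl
  intro l hl
  have hl' := Finset.mem_range.mp hl
  rw [hP']
  simp only
  split_ifs
  · rfl
  · exact u_shift hX hl' (hPA l hl')

end Wall

end Pool.Agent.Helper3.HS
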