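import Pool.Agent.Helper3.HS.Core
import Pool.Agent.Helper3.HS2.Wall2

/-!
# Divisibility of the degree from a decomposition into chambers
-/

set_option autoImplicit false
set_option linter.unusedSectionVars false
set_option linter.unusedVariables false

open Set MeasureTheory Metric Filter Topology
open scoped NNReal ENNReal Function

namespace Pool.Agent.Helper3.HS

variable {V : Type*} [NormedAddCommGroup V] [NormedSpace ℝ V] [FiniteDimensional ℝ V]
  [MeasurableSpace V] [BorelSpace V] {μ : Measure V} [μ.IsAddHaarMeasure]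

/-- Compact sets have neighbourhoods with null frontier. -/
theorem exists_null_nhd (μ : Measure V) [μ.IsAddHaarMeasure] {C O : Set V} (hC : IsCompact C)
    (hO : IsOpen O) (hCO : C ⊆ O) :
    ∃ N : Set V, IsOpen N ∧ C ⊆ N ∧ closure N ⊆ O ∧ μ (frontier N) = 0 := by
  suffices h : ∀ s : Set V, IsCompact s → s ⊆ O → ∃ N : Set V, IsOpen N ∧ s ⊆ N ∧
      closure N ⊆ O ∧ μ (frontier N) = 0 from h C hC hCO
  intro s hs hsO
  suffices h : ∃ N : Set V, IsOpen N ∧ s ⊆ N ∧ closure N ⊆ O ∧ μ (frontier N) = 0 from h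
  apply hs.induction_on (p := fun s => ∃ N : Set V, IsOpen N ∧ s ⊆ N ∧ closure N ⊆ O ∧
    μ (frontier N) = 0)
  · exact ⟨∅, isOpen_empty, Subset.rfl, by simp, by simp⟩
  · rintro s t hst ⟨N, h1, h2, h3, h4⟩
    exact ⟨N, h1, hst.trans h2, h3, h4⟩
  · rintro s t ⟨N, h1, h2, h3, h4⟩ ⟨N', h1', h2', h3', h4'⟩
    refine ⟨N ∪ N', h1.union h1', union_subset_union h2 h2', ?_, ?_⟩
    · rw [closure_union]; exact union_subset h3 h3'
    · have h5 : frontier (N ∪ N') ⊆ frontier N ∪ frontier N' := by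
        refine (frontier_union_subset N N').trans ?_
        exact union_subset_union inter_subset_left inter_subset_right
      exact measure_mono_null h5 (measure_union_null h4 h4')
  · intro x hx
    obtain ⟨r, hr, hb⟩ := Metric.nhds_basis_closedBall.mem_iff.mp (hO.mem_nhds (hsO hx))
    refine ⟨ball x r, mem_nhdsWithin_of_mem_nhds (ball_mem_nhds x hr), ball x r, isOpen_ball,
      Subset.rfl, closure_ball_subset_closedBall.trans hb, (convex_ball x r).addHaar_frontier μ⟩

variable {p : ℕ} [hp : Fact p.Prime]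

theorem wall_core (D : Dat μ p) {F : V → V} (hF : ContinuousOn F (closure D.U))
    (hFinv : ∀ a, ∀ x ∈ D.U, F (D.g a x) = F x) {y : V} (hfr : ∀ x ∈ frontier D.U, F x ≠ y)
    {B : Set V} (hBc : IsCompact B) (hBU : B ⊆ D.U) (hBinv : ∀ a, ∀ x ∈ B, D.g a x ∈ B)
    (hB0 : μ B = 0) {A : Set V} (hAc : IsCompact A) (hAB : A ⊆ B)
    (hAinv : ∀ b : ℤ_[p], ∀ x ∈ A, D.g (p * b) x ∈ A)
    (hAcov : ∀ x ∈ B, F x = y → ∃ l < p, ∃ z ∈ A, D.g (l : ℤ_[p]) z = x)
    (hAd : ∀ i < p, ∀ j < p, i ≠ j → ∀ z ∈ A, ∀ w ∈ A, D.g (i : ℤ_[p]) z ≠ D.g (j : ℤ_[p]) w)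
    {M : ℕ} {X : ℕ → Set V} (hXo : ∀ i < M, IsOpen (X i)) (hXc : ∀ i < M, closure (X i) ⊆ D.U)
    (hXB : ∀ i < M, frontier (X i) ⊆ B)
    (hXinv : ∀ i < M, ∀ b : ℤ_[p], ∀ z ∈ X i, D.g (p * b) z ∈ X i)
    (hXd : ∀ i < M, ∀ i' < M, ∀ j < p, ∀ j' < p, (i, j) ≠ (i', j') →
      Disjoint (D.g (j : ℤ_[p]) '' X i) (D.g (j' : ℤ_[p]) '' X i'))
    {O : Set V} (hOo : IsOpen O) (hKO : ∀ x ∈ D.U, F x = y → x ∈ O)
    (hO : ∀ x ∈ O, x ∉ B → ∃ i < M, ∃ j < p, x ∈ D.g (j : ℤ_[p]) '' X i)
    {k : ℝ} (hk : HasDeg μ D.U F y k) : ∃ m : ℤ, k = p * m := by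
  classical
  have : ProperSpace V := FiniteDimensional.proper ℝ V
  have hAU : A ⊆ D.U := hAB.trans hBU
  set C : ℕ → Set V := fun l => D.g (l : ℤ_[p]) '' A with hC
  have hCc : ∀ l < p, IsCompact (C l) := fun l _ => hAc.image (D.hg _)
  have hCd : ∀ i < p, ∀ j < p, i ≠ j → Disjoint (C i) (C j) := by
    intro i hi j hj hij
    rw [Set.disjoint_left]
    rintro _ ⟨z, hz, rfl⟩ ⟨w, hw, hzw⟩
    exact hAd i hi j hj hij z hz w hw hzw.symm
  obtain ⟨O', hO'o, hCO', hO'd⟩ := exists_disjoint_open p hCc hCd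
  have hCU : ∀ l, C l ⊆ D.U := fun l => D.image_sub _ hAU
  -- the neighbourhoods
  have hNex : ∀ l, ∃ N N' : Set V, l < p → IsOpen N ∧ IsOpen N' ∧ C l ⊆ N' ∧ closure N' ⊆ N ∧
      N ⊆ O' l ∧ μ (frontier N) = 0 := by
    intro l
    by_cases hl : l < p
    · obtain ⟨N, h1, h2, h3, h4⟩ := exists_null_nhd μ (hCc l hl) ((hO'o l hl).inter D.hU)
        (subset_inter (hCO' l hl) (hCU l))
      obtain ⟨N', h5, h6, h7⟩ := normal_exists_closure_subset (hCc l hl).isClosed h1 h2
      exact ⟨N, N', fun _ => ⟨h1, h5, h6, h7, (subset_closure.trans h3).trans inter_subset_left,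
        h4⟩⟩
    · exact ⟨∅, ∅, fun h => absurd h hl⟩
  choose N N' hNN using hNex
  have hNo : ∀ l < p, IsOpen (N l) := fun l hl => (hNN l hl).1
  have hN'o : ∀ l < p, IsOpen (N' l) := fun l hl => (hNN l hl).2.1
  have hCN' : ∀ l < p, C l ⊆ N' l := fun l hl => (hNN l hl).2.2.1
  have hN'N : ∀ l < p, closure (N' l) ⊆ N l := fun l hl => (hNN l hl).2.2.2.1
  have hNO' : ∀ l < p, N l ⊆ O' l := fun l hl => (hNN l hl).2.2.2.2.1
  have hN0 : ∀ l < p, μ (frontier (N l)) = 0 := fun l hl => (hNN l hl).2.2.2.2.2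
  have hNd : ∀ l < p, ∀ l' < p, l ≠ l' → Disjoint (N l) (N l') := fun l hl l' hl' h =>
    (hO'd l hl l' hl' h).mono (hNO' l hl) (hNO' l' hl')
  -- the invariant neighbourhoods
  set Nc0 : Set V := ⋂ l ∈ Finset.range p,
    {x | x ∈ D.U ∧ ∀ b : ℤ_[p], D.g (p * b + (l : ℤ_[p])) x ∈ N' l} with hNc0
  have hNc0o : IsOpen Nc0 := isOpen_biInter_finset fun l hl =>
    D.isOpen_all (hN'o l (Finset.mem_range.mp hl)) _
  have hmem0 : ∀ x ∈ Nc0, x ∈ D.U ∧ ∀ l < p, ∀ b : ℤ_[p], D.g (p * b + (l : ℤ_[p])) x ∈ N' l :=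
    fun x hx => ⟨(mem_iInter₂.mp hx 0 (Finset.mem_range.mpr hp.out.pos)).1, fun l hl =>
      (mem_iInter₂.mp hx l (Finset.mem_range.mpr hl)).2⟩
  have hNc0U : Nc0 ⊆ D.U := fun x hx => (hmem0 x hx).1
  have hNc0inv : ∀ b : ℤ_[p], ∀ x ∈ Nc0, D.g (p * b) x ∈ Nc0 := by
    intro b x hx
    obtain ⟨hxU, hx'⟩ := hmem0 x hx
    refine mem_iInter₂.mpr fun l hl => ⟨D.hgU _ x hxU, fun b' => ?_⟩
    rw [← D.hgadd _ _ x hxU]
    have e : (p : ℤ_[p]) * b' + l + p * b = p * (b' + b) + l := by ring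
    rw [e]
    exact hx' l (Finset.mem_range.mp hl) _
  have hANc0 : A ⊆ Nc0 := by
    intro x hx
    refine mem_iInter₂.mpr fun l hl => ⟨hAU hx, fun b => ?_⟩
    apply hCN' l (Finset.mem_range.mp hl)
    rw [add_comm, D.hgadd _ _ x (hAU hx)]
    exact ⟨_, hAinv b x hx, rfl⟩
  set Nc : ℕ → Set V := fun l => D.g (l : ℤ_[p]) '' Nc0 with hNc
  have hNco : ∀ l, IsOpen (Nc l) := fun l => D.image_open _ hNc0U hNc0o
  have hNcN' : ∀ l < p, Nc l ⊆ N' l := by
    rintro l hl _ ⟨x, hx, rfl⟩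
    have := (hmem0 x hx).2 l hl 0
    rwa [mul_zero, zero_add] at this
  -- cutoff functions
  have hlamex : ∀ l, ∃ f : V → ℝ, l < p → Continuous f ∧ (∀ x, f x ∈ Icc (0 : ℝ) 1) ∧
      (∀ x ∉ N l, f x = 0) ∧ ∀ x ∈ N' l, f x = 1 := by
    intro l
    by_cases hl : l < p
    · have hdis : Disjoint (N l)ᶜ (closure (N' l)) := by
        rw [Set.disjoint_left]
        intro x hx hx'
        exact hx (hN'N l hl hx')
      obtain ⟨f, h1, h2, h3⟩ := exists_continuous_zero_one_of_isClosed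
        (hNo l hl).isClosed_compl isClosed_closure hdis
      exact ⟨f, fun _ => ⟨f.continuous, h3, fun x hx => h1 hx, fun x hx => h2 (subset_closure hx)⟩⟩
    · exact ⟨fun _ => 0, fun h => absurd h hl⟩
  choose lam hlam using hlamex
  -- the gap
  set Kc : Set V := frontier D.U ∪ (closure D.U \ O) ∪ (B \ ⋃ l ∈ Finset.range p, Nc l) with hKc
  have hclU : IsCompact (closure D.U) := D.hUb.isCompact_closure
  have hKcc : IsCompact Kc := by
    apply IsCompact.union
    · apply IsCompact.union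
      · exact hclU.of_isClosed_subset isClosed_frontier frontier_subset_closure
      · exact hclU.diff hOo
    · exact hBc.diff (isOpen_biUnion fun l _ => hNco l)
  have hBcl : B ⊆ closure D.U := hBU.trans subset_closure
  have hKcsub : Kc ⊆ closure D.U := by
    apply union_subset
    · exact union_subset frontier_subset_closure sdiff_subset
    · exact sdiff_subset.trans hBcl
  have hUcl : D.U ⊆ closure D.U := subset_closure
  obtain ⟨ε, hε, hgap⟩ := exists_gap hKcc (hF.mono hKcsub) (y := y) (by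
    rintro x ((hx | hx) | hx) heq
    · exact hfr x hx heq
    · by_cases hxU : x ∈ D.U
      · exact hx.2 (hKO x hxU heq)
      · exact hfr x (by rw [D.hU.frontier_eq]; exact ⟨hx.1, hxU⟩) heq
    · obtain ⟨l, hl, z, hz, rfl⟩ := hAcov x hx.1 heq
      exact hx.2 (mem_biUnion (Finset.mem_coe.mpr (Finset.mem_range.mpr hl)) ⟨z, hANc0 hz, rfl⟩))
  obtain ⟨G, hG, hGd⟩ := exists_approx isClosed_closure hF hε
  set S : Set V := B ∪ ⋃ l ∈ Finset.range p, frontier (N l) with hS
  have hS0 : μ S = 0 := by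
    apply measure_union_null hB0
    apply (measure_biUnion_null_iff (Finset.range p).countable_toSet).mpr
    intro l hl
    exact hN0 l (Finset.mem_range.mp hl)
  have hGS : μ (G '' S) = 0 :=
    addHaar_image_eq_zero_of_differentiableOn_of_addHaar_eq_zero μ
      (hG.differentiable one_ne_zero).differentiableOn hS0
  obtain ⟨y', hy', hy'S⟩ : ∃ y' ∈ ball y ε, y' ∉ G '' S := by
    by_contra hcon
    push Not at hcon
    have h1 : μ (ball y ε) ≤ μ (G '' S) := measure_mono hcon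
    rw [hGS] at h1
    exact absurd h1 (not_le.mpr (measure_ball_pos μ y hε))
  rw [mem_ball] at hy'
  have hgap' : ∀ x ∈ Kc, 2 * ε < dist (F x) y' := by
    intro x hx
    have h1 := hgap x hx
    have h2 := dist_triangle (F x) y' y
    linarith
  set W : Wall D := {
    F := F
    G := G
    y := y'
    ε := ε
    B := B
    N := N
    Nc := Nc
    lam := lam
    hBc := hBc
    hBU := hBU
    hBinv := hBinv
    hFinv := hFinv
    hN := hNo
    hNd := hNd
    hNcN := fun l hl => (hNcN' l hl).trans (subset_closure.trans (hN'N l hl))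
    hlamc := fun l hl => (hlam l hl).1
    hlam0 := fun l hl x => ((hlam l hl).2.1 x).1
    hlam1 := fun l hl x => ((hlam l hl).2.1 x).2
    hlamN := fun l hl x hx => (hlam l hl).2.2.1 x hx
    hlamNc := fun l hl x hx => (hlam l hl).2.2.2 x (hNcN' l hl hx)
    hshift := by
      rintro l hl j hj _ ⟨z, hz, rfl⟩ hlj
      refine ⟨z, hz, ?_⟩
      rw [← D.hgadd _ _ z (hNc0U hz)]
      congr 1
      push_cast
      ring
    hshift' := by
      rintro l hl j hj _ ⟨z, hz, rfl⟩ hlj
      refine ⟨D.g (p * 1) z, hNc0inv 1 z hz, ?_⟩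
      rw [← D.hgadd _ _ z (hNc0U hz), ← D.hgadd _ _ z (hNc0U hz)]
      congr 1
      rw [Nat.cast_sub hlj]
      push_cast
      ring
    hpshift := by
      rintro l hl b _ ⟨z, hz, rfl⟩
      refine ⟨D.g (p * b) z, hNc0inv b z hz, ?_⟩
      rw [← D.hgadd _ _ z (hNc0U hz), ← D.hgadd _ _ z (hNc0U hz)]
      congr 1
      ring
    hε := hε
    hgap := by
      intro x hx hxN
      apply hgap'
      refine Or.inr ⟨hx, fun h => ?_⟩
      obtain ⟨l, hl, hxl⟩ := mem_iUnion₂.mp h
      exact hxN l (Finset.mem_range.mp hl) hxl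
    hG := hG.continuous
    hGF := fun x hx => (hGd x (hUcl hx)).le
    hGB := fun x hx heq => hy'S ⟨x, Or.inl hx, heq⟩
    hGN := fun l hl x hx heq => hy'S ⟨x, Or.inr (mem_biUnion (Finset.mem_coe.mpr
      (Finset.mem_range.mpr hl)) hx), heq⟩ } with hW
  have hstar := Wall.adm_star (W := W)
  have hnear : ∀ x ∈ closure D.U, dist (W.star x) (F x) ≤ ε := by
    intro x hx
    have h1 : ContinuousOn (fun x => dist (W.star x) (F x)) (closure D.U) :=
      continuous_dist.comp_continuousOn (hstar.1.continuousOn.prodMk hF)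
    exact le_on_closure (f := fun x => dist (W.star x) (F x)) (g := fun _ => ε)
      (fun x hx => hstar.2.1 x hx) h1 continuousOn_const hx
  -- the degree of the modified map
  have hdegs : HasDeg μ D.U W.star y' k := by
    apply HasDeg.homotopy μ D.hU D.hUb (hF.mono frontier_subset_closure)
      hstar.1.continuousOn hk
    intro x hx t ht heq
    have h1 := hgap x (Or.inl (Or.inl hx))
    have h2 := hnear x (frontier_subset_closure hx)
    have e : (1 - t) • (F x - y) + t • (W.star x - y') =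
        (F x - y) + t • ((W.star x - F x) - (y' - y)) := by module
    rw [e] at heq
    have h3 : F x - y = -(t • ((W.star x - F x) - (y' - y))) := eq_neg_of_add_eq_zero_left heq
    have h4 : dist (F x) y ≤ 2 * ε := by
      rw [dist_eq_norm, h3, norm_neg, norm_smul, Real.norm_of_nonneg ht.1]
      have h5 : ‖(W.star x - F x) - (y' - y)‖ ≤ ‖W.star x - F x‖ + ‖y' - y‖ := norm_sub_le _ _
      have h6 : ‖W.star x - F x‖ ≤ ε := by rw [← dist_eq_norm]; exact h2
      have h7 : ‖y' - y‖ ≤ ε := by rw [← dist_eq_norm]; exact hy'.le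
      calc t * ‖W.star x - F x - (y' - y)‖ ≤ 1 * (2 * ε) := by
            apply mul_le_mul ht.2 _ (norm_nonneg _) zero_le_one
            linarith
        _ = 2 * ε := one_mul _
    linarith
  have hXch : ∀ i < M, Wall.IsChamber W (X i) := fun i hi =>
    ⟨hXo i hi, hXc i hi, hXB i hi, hXinv i hi⟩
  have hκex : ∀ i, ∃ m : ℤ, i < M → HasDeg μ (X i) W.star y' m := by
    intro i
    by_cases hi : i < M
    · have hch := hXch i hi
      obtain ⟨κ, hκ⟩ := HasDeg.exists μ (hXo i hi) hch.bdd (F := W.star)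
        hstar.1.continuousOn (y := y') (fun x hx => hstar.2.2 x (hXB i hi hx))
      obtain ⟨m, hm⟩ := HasDeg.int μ (hXo i hi) hch.bdd hstar.1.continuousOn hκ
      exact ⟨m, fun _ => by rw [← hm]; exact hκ⟩
    · exact ⟨0, fun h => absurd h hi⟩
  choose m hm using hκex
  have hsum := HasDeg.sum μ ((Finset.range M) ×ˢ (Finset.range p)) D.hU D.hUb
    (W := fun q : ℕ × ℕ => D.g (q.2 : ℤ_[p]) '' X q.1) (F := W.star) (y := y')
    (k := fun q => (m q.1 : ℝ))
    (by
      rintro ⟨i, j⟩ hq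
      rw [Finset.mem_product, Finset.mem_range, Finset.mem_range] at hq
      exact D.image_open _ (hXch i hq.1).sub (hXo i hq.1))
    (by
      rintro ⟨i, j⟩ hq
      rw [Finset.mem_product, Finset.mem_range, Finset.mem_range] at hq
      exact D.image_sub _ (hXch i hq.1).sub)
    (by
      rintro ⟨i, j⟩ hq ⟨i', j'⟩ hq' hne
      rw [Finset.mem_coe, Finset.mem_product, Finset.mem_range, Finset.mem_range] at hq hq'
      exact hXd i hq.1 i' hq'.1 j hq.2 j' hq'.2 hne)
    hstar.1.continuousOn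
    (by
      intro x hx heq
      have hxO : x ∈ O := by
        by_contra hn
        have h1 := hgap' x (Or.inl (Or.inr ⟨hx, hn⟩))
        have h2 := hnear x hx
        rw [heq, dist_comm] at h2
        linarith
      have hxB : x ∉ B := fun h => hstar.2.2 x h heq
      obtain ⟨i, hi, j, hj, hij⟩ := hO x hxO hxB
      exact ⟨(i, j), by rw [Finset.mem_product, Finset.mem_range, Finset.mem_range]; exact ⟨hi, hj⟩,
        hij⟩)
    (by
      rintro ⟨i, j⟩ hq
      rw [Finset.mem_product, Finset.mem_range, Finset.mem_range] at hq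
      exact Wall.chamber_deg (hXch i hq.1) hq.2 (hm i hq.1))
  have hkeq := HasDeg.unique μ D.hU D.hUb hstar.1.continuousOn hdegs hsum
  refine ⟨∑ i ∈ Finset.range M, m i, ?_⟩
  rw [hkeq, Finset.sum_product]
  simp only [Finset.sum_const, Finset.card_range, nsmul_eq_mul]
  rw [← Finset.mul_sum]
  push_cast
  rfl

end Pool.Agent.Helper3.HS
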