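import Pool.Agent.Helper3.HS.Defs

/-!
# Hilbert–Smith for Sobolev homeomorphisms: the regularity class
-/

set_option autoImplicit false

open Set MeasureTheory Metric Filter Topology
open scoped NNReal ENNReal

namespace Pool.Agent.Helper3.HS

/-- The map `f` is Hölder continuous with exponent `β` near the point `x`. -/
def HoelderAt {X : Type*} [MetricSpace X] (β : ℝ) (f : X → X) (x : X) : Prop :=
  ∃ W ∈ 𝓝 x, ∃ H : ℝ≥0, ∀ y ∈ W, ∀ z ∈ W, edist (f y) (f z) ≤ H * edist y z ^ β

/-- The regularity class near the point `x`: for some `α, s > 0` the map `f` is of Hajłasz–Sobolev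
class `M^{α,s}` near `x` and
* either `α s > n - 1` and `s ≤ n + 1`,
* or `α s ≤ n - 1` and `f` is Hölder continuous near `x` with some exponent `β > 0` such that
  `s + (n - 1 - α s) / β < n + 1`. -/
def RegAt {X : Type*} [MetricSpace X] [MeasurableSpace X] [BorelSpace X] (n : ℕ)
    (f : X → X) (x : X) : Prop :=
  ∃ α s : ℝ, 0 < α ∧ 0 < s ∧ HajlaszAt n α s f x ∧
    (((n : ℝ) - 1 < α * s ∧ s ≤ n + 1) ∨
      (α * s ≤ (n : ℝ) - 1 ∧ ∃ β : ℝ, 0 < β ∧ s + ((n : ℝ) - 1 - α * s) / β < n + 1 ∧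
        HoelderAt β f x))

end Pool.Agent.Helper3.HS
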