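import Pool.Agent.Helper3.HS.Pull
import Pool.Agent.Helper3.HS2.GSlice

/-!
# The slice variation of Hajłasz maps in charts
-/

set_option autoImplicit false
set_option linter.unusedSectionVars false
set_option linter.unusedVariables false

open Set MeasureTheory Metric Filter Topology
open scoped NNReal ENNReal

namespace Pool.Agent.Helper3.HS

variable {d : ℕ}

/-- The slice variation of a Hajłasz map in a chart. -/
theorem hajlasz_chart2 {X : Type*} [MetricSpace X] [MeasurableSpace X] [BorelSpace X]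
    (e : OpenPartialHomeomorph X (Fin (d + 1) → ℝ)) {C : ℝ≥0}
    (hC : LipschitzOnWith C e e.source) (hC' : LipschitzOnWith C e.symm e.target) {x : X}
    (hx : x ∈ e.source) {f : X → X} (hf : Continuous f) (hfx : f x ∈ e.source) {α s : ℝ}
    (hs : 0 < s) (hαs : (d : ℝ) < α * s) (hsn : s ≤ d + 2)
    (hH : HajlaszAt (d + 1) α s f x) :
    ∃ r > 0, closedBall (e x) r ⊆ e.target ∧ (∀ u ∈ closedBall (e x) r, f (e.symm u) ∈ e.source) ∧
      ∃ K : ℝ≥0∞, K ≠ ∞ ∧ ∃ ε : ℝ, 0 < ε ∧ ∀ r' : ℝ, 0 < r' → r' ≤ r → ∀ N : ℕ, 0 < N →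
        GV (d + 2) (fun u => e (f (e.symm u))) (e x) r' N ≤ K * ENNReal.ofReal ((N : ℝ) ^ (-ε)) := by
  classical
  have hsn' : s ≤ ((d + 2 : ℕ) : ℝ) := by push_cast; exact hsn
  have hα0 : 0 < α := by
    by_contra hn
    rw [not_lt] at hn
    have h1 : α * s ≤ 0 := mul_nonpos_of_nonpos_of_nonneg hn hs.le
    have h2 : (0 : ℝ) ≤ d := Nat.cast_nonneg d
    linarith
  obtain ⟨W, hW, ρ, hρ, hint, hfρ⟩ := hH
  -- the radius
  have hex : e x ∈ e.target := e.map_source hx
  have hcont : ContinuousAt e.symm (e x) := e.symm.continuousAt hex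
  have hsx : e.symm (e x) = x := e.left_inv hx
  have h1 : e.target ∩ e.symm ⁻¹' (W ∩ f ⁻¹' e.source) ∈ 𝓝 (e x) := by
    apply inter_mem (e.open_target.mem_nhds hex)
    apply hcont.preimage_mem_nhds
    rw [hsx]
    exact inter_mem hW ((e.open_source.preimage hf).mem_nhds hfx)
  obtain ⟨r₀, hr₀, hball⟩ := Metric.nhds_basis_closedBall.mem_iff.mp h1
  set r := min r₀ (1 / 2) with hr
  have hr0 : 0 < r := lt_min hr₀ (by norm_num)
  have hB : ∀ u ∈ closedBall (e x) r, u ∈ e.target ∧ e.symm u ∈ W ∧ f (e.symm u) ∈ e.source := by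
    intro u hu
    have := hball (closedBall_subset_closedBall (min_le_left _ _) hu)
    exact ⟨this.1, this.2.1, this.2.2⟩
  refine ⟨r, hr0, fun u hu => (hB u hu).1, fun u hu => (hB u hu).2.2, ?_⟩
  set B := closedBall (e x) r with hBdef
  have hBm : MeasurableSet B := measurableSet_closedBall
  have hBc : IsCompact B := isCompact_closedBall _ _
  set ψ : (Fin (d + 1) → ℝ) → X := B.piecewise e.symm (fun _ => x) with hψ
  have hψm : Measurable ψ := ContinuousOn.measurable_piecewise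
    (e.symm.continuousOn.mono fun u hu => (hB u hu).1) continuousOn_const hBm
  have hψB : ∀ u ∈ B, ψ u = e.symm u := fun u hu => piecewise_eq_of_mem _ _ _ hu
  set c₁ : ℝ≥0∞ := (C : ℝ≥0∞) * (C : ℝ≥0∞) ^ α with hc₁
  have hc₁t : c₁ ≠ ∞ := ENNReal.mul_ne_top ENNReal.coe_ne_top
    (ENNReal.rpow_ne_top_of_nonneg hα0.le ENNReal.coe_ne_top)
  set ρ' : (Fin (d + 1) → ℝ) → ℝ≥0∞ := fun u => c₁ * ρ (ψ u) with hρ'
  have hρ'm : Measurable ρ' := (hρ.comp hψm).const_mul c₁
  -- the measure comparison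
  have hmeas : (μH[((d + 1 : ℕ) : ℝ)].restrict B).map ψ ≤
      ((C : ℝ≥0∞) ^ ((d + 1 : ℕ) : ℝ)) • (μH[((d + 1 : ℕ) : ℝ)] : Measure X).restrict W := by
    rw [Measure.le_iff]
    intro A hA
    rw [Measure.map_apply hψm hA, Measure.restrict_apply (hψm hA), Measure.smul_apply,
      Measure.restrict_apply hA, smul_eq_mul]
    have hsub : ψ ⁻¹' A ∩ B ⊆ e '' (A ∩ W ∩ e.source) := by
      rintro u ⟨huA, huB⟩
      rw [mem_preimage, hψB u huB] at huA
      exact ⟨e.symm u, ⟨⟨huA, (hB u huB).2.1⟩, e.map_target (hB u huB).1⟩,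
        e.right_inv (hB u huB).1⟩
    refine (measure_mono hsub).trans ?_
    refine ((hC.mono inter_subset_right).hausdorffMeasure_image_le (Nat.cast_nonneg _)).trans ?_
    exact mul_le_mul' le_rfl (measure_mono inter_subset_left)
  have hJ : ∫⁻ u in B, ρ' u ^ s < ∞ := by
    have e1 : ∫⁻ u in B, ρ' u ^ s = c₁ ^ s * ∫⁻ u in B, ρ (ψ u) ^ s := by
      rw [← lintegral_const_mul' _ _ (ENNReal.rpow_ne_top_of_nonneg hs.le hc₁t)]
      congr 1
      funext u
      rw [hρ', ENNReal.mul_rpow_of_nonneg _ _ hs.le]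
    rw [e1]
    apply ENNReal.mul_lt_top (ENNReal.rpow_lt_top_of_nonneg hs.le hc₁t)
    rw [← hausdorff_eq_volume]
    have e2 : ∫⁻ u in B, ρ (ψ u) ^ s ∂(μH[((d + 1 : ℕ) : ℝ)]) =
        ∫⁻ y, ρ y ^ s ∂((μH[((d + 1 : ℕ) : ℝ)].restrict B).map ψ) := by
      rw [lintegral_map (hρ.pow_const s) hψm]
    rw [e2]
    refine (lintegral_mono' hmeas le_rfl).trans_lt ?_
    rw [lintegral_smul_measure]
    apply ENNReal.mul_lt_top (ENNReal.rpow_lt_top_of_nonneg (Nat.cast_nonneg _) ENNReal.coe_ne_top)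
    exact hint
  set F : (Fin (d + 1) → ℝ) → (Fin (d + 1) → ℝ) := fun u => e (f (e.symm u)) with hF
  have hFc : ContinuousOn F B := by
    have c1 : ContinuousOn e.symm B := e.symm.continuousOn.mono fun u hu => (hB u hu).1
    have c2 : ContinuousOn (fun u => f (e.symm u)) B := hf.comp_continuousOn c1
    exact e.continuousOn.comp c2 fun u hu => (hB u hu).2.2
  have hFρ : ∀ u ∈ B, ∀ v ∈ B, edist (F u) (F v) ≤ edist u v ^ α * (ρ' u + ρ' v) := by
    intro u hu v hv
    have e1 := hC (hB u hu).2.2 (hB v hv).2.2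
    have e2 := hfρ _ (hB u hu).2.1 _ (hB v hv).2.1
    have e3 := hC' (hB u hu).1 (hB v hv).1
    calc edist (F u) (F v) ≤ C * edist (f (e.symm u)) (f (e.symm v)) := e1
      _ ≤ C * (edist (e.symm u) (e.symm v) ^ α * (ρ (e.symm u) + ρ (e.symm v))) := by gcongr
      _ ≤ C * ((C * edist u v) ^ α * (ρ (e.symm u) + ρ (e.symm v))) := by gcongr
      _ = edist u v ^ α * (ρ' u + ρ' v) := by
        rw [hρ', hc₁]
        simp only
        rw [hψB u hu, hψB v hv, ENNReal.mul_rpow_of_nonneg _ _ hα0.le]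
        ring
  set D := Metric.ediam (F '' B) with hD
  have hDt : D ≠ ∞ := (hBc.image_of_continuousOn hFc).isBounded.ediam_ne_top
  refine ⟨(d + 1) * (D ^ (((d + 2 : ℕ) : ℝ) - s) * (ENNReal.ofReal (morreyC d α s) *
    ∫⁻ u in B, ρ' u ^ s)), ?_, α * s - d, by linarith, ?_⟩
  · apply ENNReal.mul_ne_top
    · exact ENNReal.add_ne_top.mpr ⟨ENNReal.natCast_ne_top d, ENNReal.one_ne_top⟩
    · apply ENNReal.mul_ne_top (ENNReal.rpow_ne_top_of_nonneg (by linarith) hDt)
      exact ENNReal.mul_ne_top ENNReal.ofReal_ne_top hJ.ne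
  · intro r' hr' hr'r N hN
    have hsub : closedBall (e x) r' ⊆ B := closedBall_subset_closedBall hr'r
    have hN' : (1 : ℝ) ≤ N := by exact_mod_cast hN
    have hmain := GV_hajlasz hr' hα0 hs hαs hsn' (hFc.mono hsub) hρ'm
      (fun u hu v hv => hFρ u (hsub hu) v (hsub hv)) hN
    refine hmain.trans ?_
    have h2 : ENNReal.ofReal ((2 * r' / N) ^ (α * s - d)) ≤
        ENNReal.ofReal ((N : ℝ) ^ (-(α * s - d))) := by
      apply ENNReal.ofReal_le_ofReal
      rw [Real.rpow_neg (by linarith), ← Real.inv_rpow (by linarith)]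
      apply Real.rpow_le_rpow (by positivity) _ (by linarith)
      rw [div_eq_mul_inv]
      have h3 : 2 * r' ≤ 1 := by
        have : r ≤ 1 / 2 := min_le_right _ _
        linarith
      have h4 : (0 : ℝ) ≤ (N : ℝ)⁻¹ := by positivity
      nlinarith
    calc ((d : ℝ≥0∞) + 1) * (Metric.ediam (F '' closedBall (e x) r') ^ (((d + 2 : ℕ) : ℝ) - s) *
        (ENNReal.ofReal (morreyC d α s) * ENNReal.ofReal ((2 * r' / N) ^ (α * s - d)) *
          ∫⁻ x in closedBall (e x) r', ρ' x ^ s))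
        ≤ (d + 1) * (D ^ (((d + 2 : ℕ) : ℝ) - s) * (ENNReal.ofReal (morreyC d α s) *
          ENNReal.ofReal ((N : ℝ) ^ (-(α * s - d))) * ∫⁻ u in B, ρ' u ^ s)) := by
          have h5 : Metric.ediam (F '' closedBall (e x) r') ≤ D :=
            Metric.ediam_mono (image_mono hsub)
          have h6 : (0 : ℝ) ≤ ((d + 2 : ℕ) : ℝ) - s := by push_cast; linarith
          have h7 := ENNReal.rpow_le_rpow h5 h6
          have h8 : ∫⁻ x in closedBall (e x) r', ρ' x ^ s ≤ ∫⁻ u in B, ρ' u ^ s :=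
            lintegral_mono_set hsub
          gcongr
      _ = _ := by ring

end Pool.Agent.Helper3.HS
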