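import Pool.Agent.Helper3.HS2.Morrey2
import Pool.Agent.Helper3.HS2.Pull2
import Pool.Agent.Helper3.HS2.Defs2

/-!
# The slice variation of Hölder continuous Hajłasz maps
-/

set_option autoImplicit false
set_option linter.unusedSectionVars false
set_option linter.unusedVariables false

open Set MeasureTheory Metric Filter Topology
open scoped NNReal ENNReal

namespace Pool.Agent.Helper3.HS

variable {d : ℕ}

/-- The slice variation of a Hölder continuous Hajłasz map. -/
theorem GV_mixed {e : ℕ} {u₀ : Fin (d + 1) → ℝ} {r : ℝ} (hr : 0 < r) {α s β Hc : ℝ} (hα0 : 0 < α)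
    (hs : 0 < s) (hβ : 0 < β) (hHc : 0 < Hc) (hαs : α * s < d) (hq : s + (d - α * s) / β ≤ e)
    {f : (Fin (d + 1) → ℝ) → (Fin (d + 1) → ℝ)}
    {ρ : (Fin (d + 1) → ℝ) → ℝ≥0∞} (hρ : Measurable ρ)
    (hfρ : ∀ x ∈ closedBall u₀ r, ∀ z ∈ closedBall u₀ r,
      edist (f x) (f z) ≤ edist x z ^ α * (ρ x + ρ z))
    (hfβ : ∀ x ∈ closedBall u₀ r, ∀ z ∈ closedBall u₀ r,
      edist (f x) (f z) ≤ ENNReal.ofReal Hc * edist x z ^ β) {N : ℕ} (hN : 0 < N) :
    GV e f u₀ r N ≤ (d + 1) * (ENNReal.ofReal (Hc * (2 * r / N) ^ β) ^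
      ((e : ℝ) - (s + (d - α * s) / β)) *
      (ENNReal.ofReal (mixC d α s β Hc) * ∫⁻ x in closedBall u₀ r, ρ x ^ s)) := by
  have hN' : (0 : ℝ) < N := by exact_mod_cast hN
  have hh : 0 < 2 * r / N := by positivity
  set q : ℝ := s + (d - α * s) / β with hqdef
  have hq0 : 0 < q := by
    have : 0 < (d - α * s) / β := div_pos (by linarith) hβ
    linarith
  set D : ℝ≥0∞ := ENNReal.ofReal (Hc * (2 * r / N) ^ β) with hD
  have hsm : ∀ i, Measurable (fun q : ℝ × (Fin d → ℝ) => slc i q.1 q.2) := fun i =>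
    (continuous_slc i).measurable
  unfold GV
  have key : ∀ i : Fin (d + 1), ∫⁻ t in Icc (u₀ i - r) (u₀ i + r),
      ∑ c : Fin d → Fin N, gDiam f u₀ r N i t (fun k => (c k : ℕ)) ^ e ≤
      D ^ ((e : ℝ) - q) * (ENNReal.ofReal (mixC d α s β Hc) *
        ∫⁻ x in closedBall u₀ r, ρ x ^ s) := by
    intro i
    have hpt : ∀ t ∈ Icc (u₀ i - r) (u₀ i + r),
        ∑ c : Fin d → Fin N, gDiam f u₀ r N i t (fun k => (c k : ℕ)) ^ e ≤
        D ^ ((e : ℝ) - q) * ENNReal.ofReal (mixC d α s β Hc) *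
          ∫⁻ w in fullSlice u₀ r i, ρ (slc i t w) ^ s := by
      intro t ht
      have hcell : ∀ c : Fin d → Fin N, gDiam f u₀ r N i t (fun k => (c k : ℕ)) ^ e ≤
          D ^ ((e : ℝ) - q) * ENNReal.ofReal (mixC d α s β Hc) *
          ∫⁻ w in cell (corner u₀ r i) (2 * r / N) (fun k => (c k : ℕ)), ρ (slc i t w) ^ s := by
        intro c
        set x := gDiam f u₀ r N i t (fun k => (c k : ℕ)) with hx
        have hsub : cell (corner u₀ r i) (2 * r / N) (fun k => (c k : ℕ)) ⊆ fullSlice u₀ r i :=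
          cell_subset hr i hN (fun k => (c k).2)
        have hdc : ∀ w ∈ cell (corner u₀ r i) (2 * r / N) (fun k => (c k : ℕ)),
            ∀ w' ∈ cell (corner u₀ r i) (2 * r / N) (fun k => (c k : ℕ)),
            edist w w' ≤ ENNReal.ofReal (2 * r / N) := by
          intro w hw w' hw'
          rw [edist_dist]
          apply ENNReal.ofReal_le_ofReal
          rw [dist_pi_le_iff hh.le]
          intro k
          unfold cell at hw hw'
          rw [mem_Icc, Pi.le_def, Pi.le_def] at hw hw'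
          have h1 := hw.1 k
          have h2 := hw.2 k
          have h3 := hw'.1 k
          have h4 := hw'.2 k
          try simp only at h1 h2 h3 h4
          rw [Real.dist_eq, abs_le]
          constructor <;> linarith
        have hxD : x ≤ D := by
          apply Metric.ediam_le
          rintro _ ⟨w, hw, rfl⟩ _ ⟨w', hw', rfl⟩
          refine (hfβ _ (slc_mem_closedBall hr ht (hsub hw)) _
            (slc_mem_closedBall hr ht (hsub hw'))).trans ?_
          rw [edist_slc, hD, ENNReal.ofReal_mul hHc.le, ← ENNReal.ofReal_rpow_of_pos hh]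
          gcongr
          exact hdc w hw w' hw'
        have hmor : x ^ q ≤ ENNReal.ofReal (mixC d α s β Hc) *
            ∫⁻ w in cell (corner u₀ r i) (2 * r / N) (fun k => (c k : ℕ)),
              ρ (slc i t w) ^ s := by
          apply morrey_mixed (a := fun k => corner u₀ r i k + 2 * r / N * ((c k : ℕ) : ℝ)) hh hα0
            hs hβ hHc hαs (f := fun w => f (slc i t w)) (ρ := fun w => ρ (slc i t w))
          · exact hρ.comp ((hsm i).comp (measurable_const.prodMk measurable_id))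
          · intro w hw w' hw'
            have := hfρ _ (slc_mem_closedBall hr ht (hsub hw)) _
              (slc_mem_closedBall hr ht (hsub hw'))
            rwa [edist_slc] at this
          · intro w hw w' hw'
            have := hfβ _ (slc_mem_closedBall hr ht (hsub hw)) _
              (slc_mem_closedBall hr ht (hsub hw'))
            rwa [edist_slc] at this
        have hpow : x ^ e = x ^ ((e : ℝ) - q) * x ^ q := by
          rw [← ENNReal.rpow_add_of_nonneg _ _ (by linarith) hq0.le, sub_add_cancel,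
            ENNReal.rpow_natCast]
        rw [hpow, mul_assoc]
        apply mul_le_mul'
        · exact ENNReal.rpow_le_rpow hxD (by linarith)
        · exact hmor
      refine (Finset.sum_le_sum fun c _ => hcell c).trans ?_
      rw [← Finset.mul_sum]
      gcongr
      exact sum_cell_le hr i hN _
    calc ∫⁻ t in Icc (u₀ i - r) (u₀ i + r),
        ∑ c : Fin d → Fin N, gDiam f u₀ r N i t (fun k => (c k : ℕ)) ^ e
        ≤ ∫⁻ t in Icc (u₀ i - r) (u₀ i + r), D ^ ((e : ℝ) - q) *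
          ENNReal.ofReal (mixC d α s β Hc) *
          ∫⁻ w in fullSlice u₀ r i, ρ (slc i t w) ^ s :=
          setLIntegral_mono' measurableSet_Icc hpt
      _ = D ^ ((e : ℝ) - q) * ENNReal.ofReal (mixC d α s β Hc) *
          ∫⁻ t in Icc (u₀ i - r) (u₀ i + r), ∫⁻ w in fullSlice u₀ r i, ρ (slc i t w) ^ s := by
          rw [lintegral_const_mul]
          have : Measurable (fun q : ℝ × (Fin d → ℝ) => ρ (slc i q.1 q.2) ^ s) :=
            (hρ.comp (hsm i)).pow_const s
          exact this.lintegral_prod_right'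
      _ ≤ _ := by
          rw [← mul_assoc]
          gcongr
          exact lintegral_slices hr i (hρ.pow_const s)
  refine (Finset.sum_le_sum fun i _ => key i).trans ?_
  rw [Finset.sum_const, Finset.card_univ, Fintype.card_fin, nsmul_eq_mul]
  push_cast
  exact le_rfl

/-- The slice variation of a Hölder continuous Hajłasz map in a chart. -/
theorem mixed_chart2 {X : Type*} [MetricSpace X] [MeasurableSpace X] [BorelSpace X]
    (e : OpenPartialHomeomorph X (Fin (d + 1) → ℝ)) {C : ℝ≥0}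
    (hC : LipschitzOnWith C e e.source) (hC' : LipschitzOnWith C e.symm e.target) {x : X}
    (hx : x ∈ e.source) {f : X → X} (hf : Continuous f) (hfx : f x ∈ e.source) {α s β : ℝ}
    (hα0 : 0 < α) (hs : 0 < s) (hβ : 0 < β) (hαs : α * s < d)
    (hq : s + (d - α * s) / β < d + 2)
    (hH : HajlaszAt (d + 1) α s f x) (hHo : HoelderAt β f x) :
    ∃ r > 0, closedBall (e x) r ⊆ e.target ∧ (∀ u ∈ closedBall (e x) r, f (e.symm u) ∈ e.source) ∧
      ∃ K : ℝ≥0∞, K ≠ ∞ ∧ ∃ ε : ℝ, 0 < ε ∧ ∀ r' : ℝ, 0 < r' → r' ≤ r → ∀ N : ℕ, 0 < N →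
        GV (d + 2) (fun u => e (f (e.symm u))) (e x) r' N ≤ K * ENNReal.ofReal ((N : ℝ) ^ (-ε)) := by
  classical
  obtain ⟨W₁, hW₁, ρ, hρ, hint, hfρ₁⟩ := hH
  obtain ⟨W₂, hW₂, H, hHol₂⟩ := hHo
  set W := W₁ ∩ W₂ with hWdef
  have hW : W ∈ 𝓝 x := inter_mem hW₁ hW₂
  have hfρ : ∀ y ∈ W, ∀ z ∈ W, edist (f y) (f z) ≤ edist y z ^ α * (ρ y + ρ z) :=
    fun y hy z hz => hfρ₁ y hy.1 z hz.1
  have hHol : ∀ y ∈ W, ∀ z ∈ W, edist (f y) (f z) ≤ H * edist y z ^ β :=
    fun y hy z hz => hHol₂ y hy.2 z hz.2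
  have hint' : ∫⁻ y in W, ρ y ^ s ∂(μH[((d + 1 : ℕ) : ℝ)] : Measure X) < ∞ :=
    (lintegral_mono_set inter_subset_left).trans_lt hint
  -- the radius
  have hex : e x ∈ e.target := e.map_source hx
  have hcont : ContinuousAt e.symm (e x) := e.symm.continuousAt hex
  have hsx : e.symm (e x) = x := e.left_inv hx
  have h1 : e.target ∩ e.symm ⁻¹' (W ∩ f ⁻¹' e.source) ∈ 𝓝 (e x) := by
    apply inter_mem (e.open_target.mem_nhds hex)
    apply hcont.preimage_mem_nhds
    rw [hsx]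
    exact inter_mem hW ((e.open_source.preimage hf).mem_nhds hfx)
  obtain ⟨r₀, hr₀, hball⟩ := Metric.nhds_basis_closedBall.mem_iff.mp h1
  set r := min r₀ (1 / 2) with hr
  have hr0 : 0 < r := lt_min hr₀ (by norm_num)
  have hB : ∀ u ∈ closedBall (e x) r, u ∈ e.target ∧ e.symm u ∈ W ∧ f (e.symm u) ∈ e.source := by
    intro u hu
    have := hball (closedBall_subset_closedBall (min_le_left _ _) hu)
    exact ⟨this.1, this.2.1, this.2.2⟩
  refine ⟨r, hr0, fun u hu => (hB u hu).1, fun u hu => (hB u hu).2.2, ?_⟩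
  set B := closedBall (e x) r with hBdef
  have hBm : MeasurableSet B := measurableSet_closedBall
  have hBc : IsCompact B := isCompact_closedBall _ _
  set ψ : (Fin (d + 1) → ℝ) → X := B.piecewise e.symm (fun _ => x) with hψ
  have hψm : Measurable ψ := ContinuousOn.measurable_piecewise
    (e.symm.continuousOn.mono fun u hu => (hB u hu).1) continuousOn_const hBm
  have hψB : ∀ u ∈ B, ψ u = e.symm u := fun u hu => piecewise_eq_of_mem _ _ _ hu
  set c₁ : ℝ≥0∞ := (C : ℝ≥0∞) * (C : ℝ≥0∞) ^ α with hc₁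
  have hc₁t : c₁ ≠ ∞ := ENNReal.mul_ne_top ENNReal.coe_ne_top
    (ENNReal.rpow_ne_top_of_nonneg hα0.le ENNReal.coe_ne_top)
  set c₂ : ℝ≥0∞ := (C : ℝ≥0∞) * (H * (C : ℝ≥0∞) ^ β) with hc₂
  have hc₂t : c₂ ≠ ∞ := ENNReal.mul_ne_top ENNReal.coe_ne_top
    (ENNReal.mul_ne_top ENNReal.coe_ne_top
      (ENNReal.rpow_ne_top_of_nonneg hβ.le ENNReal.coe_ne_top))
  set Hc : ℝ := c₂.toReal + 1 with hHc
  have hHc0 : 0 < Hc := by positivity
  have hc₂le : c₂ ≤ ENNReal.ofReal Hc := by
    rw [hHc]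
    rw [ENNReal.le_ofReal_iff_toReal_le hc₂t (by positivity)]
    linarith
  set ρ' : (Fin (d + 1) → ℝ) → ℝ≥0∞ := fun u => c₁ * ρ (ψ u) with hρ'
  have hρ'm : Measurable ρ' := (hρ.comp hψm).const_mul c₁
  -- the measure comparison
  have hmeas : (μH[((d + 1 : ℕ) : ℝ)].restrict B).map ψ ≤
      ((C : ℝ≥0∞) ^ ((d + 1 : ℕ) : ℝ)) • (μH[((d + 1 : ℕ) : ℝ)] : Measure X).restrict W := by
    rw [Measure.le_iff]
    intro A hA
    rw [Measure.map_apply hψm hA, Measure.restrict_apply (hψm hA), Measure.smul_apply,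
      Measure.restrict_apply hA, smul_eq_mul]
    have hsub : ψ ⁻¹' A ∩ B ⊆ e '' (A ∩ W ∩ e.source) := by
      rintro u ⟨huA, huB⟩
      rw [mem_preimage, hψB u huB] at huA
      exact ⟨e.symm u, ⟨⟨huA, (hB u huB).2.1⟩, e.map_target (hB u huB).1⟩,
        e.right_inv (hB u huB).1⟩
    refine (measure_mono hsub).trans ?_
    refine ((hC.mono inter_subset_right).hausdorffMeasure_image_le (Nat.cast_nonneg _)).trans ?_
    exact mul_le_mul' le_rfl (measure_mono inter_subset_left)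
  have hJ : ∫⁻ u in B, ρ' u ^ s < ∞ := by
    have e1 : ∫⁻ u in B, ρ' u ^ s = c₁ ^ s * ∫⁻ u in B, ρ (ψ u) ^ s := by
      rw [← lintegral_const_mul' _ _ (ENNReal.rpow_ne_top_of_nonneg hs.le hc₁t)]
      congr 1
      funext u
      rw [hρ', ENNReal.mul_rpow_of_nonneg _ _ hs.le]
    rw [e1]
    apply ENNReal.mul_lt_top (ENNReal.rpow_lt_top_of_nonneg hs.le hc₁t)
    rw [← hausdorff_eq_volume]
    have e2 : ∫⁻ u in B, ρ (ψ u) ^ s ∂(μH[((d + 1 : ℕ) : ℝ)]) =
        ∫⁻ y, ρ y ^ s ∂((μH[((d + 1 : ℕ) : ℝ)].restrict B).map ψ) := by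
      rw [lintegral_map (hρ.pow_const s) hψm]
    rw [e2]
    refine (lintegral_mono' hmeas le_rfl).trans_lt ?_
    rw [lintegral_smul_measure]
    apply ENNReal.mul_lt_top (ENNReal.rpow_lt_top_of_nonneg (Nat.cast_nonneg _) ENNReal.coe_ne_top)
    exact hint'
  set F : (Fin (d + 1) → ℝ) → (Fin (d + 1) → ℝ) := fun u => e (f (e.symm u)) with hF
  have hFρ : ∀ u ∈ B, ∀ v ∈ B, edist (F u) (F v) ≤ edist u v ^ α * (ρ' u + ρ' v) := by
    intro u hu v hv
    have e1 := hC (hB u hu).2.2 (hB v hv).2.2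
    have e2 := hfρ _ (hB u hu).2.1 _ (hB v hv).2.1
    have e3 := hC' (hB u hu).1 (hB v hv).1
    calc edist (F u) (F v) ≤ C * edist (f (e.symm u)) (f (e.symm v)) := e1
      _ ≤ C * (edist (e.symm u) (e.symm v) ^ α * (ρ (e.symm u) + ρ (e.symm v))) := by gcongr
      _ ≤ C * ((C * edist u v) ^ α * (ρ (e.symm u) + ρ (e.symm v))) := by gcongr
      _ = edist u v ^ α * (ρ' u + ρ' v) := by
        rw [hρ', hc₁]
        simp only
        rw [hψB u hu, hψB v hv, ENNReal.mul_rpow_of_nonneg _ _ hα0.le]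
        ring
  have hFβ : ∀ u ∈ B, ∀ v ∈ B, edist (F u) (F v) ≤ ENNReal.ofReal Hc * edist u v ^ β := by
    intro u hu v hv
    have e1 := hC (hB u hu).2.2 (hB v hv).2.2
    have e2 := hHol _ (hB u hu).2.1 _ (hB v hv).2.1
    have e3 := hC' (hB u hu).1 (hB v hv).1
    calc edist (F u) (F v) ≤ C * edist (f (e.symm u)) (f (e.symm v)) := e1
      _ ≤ C * (H * edist (e.symm u) (e.symm v) ^ β) := by gcongr
      _ ≤ C * (H * (C * edist u v) ^ β) := by gcongr
      _ = c₂ * edist u v ^ β := by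
        rw [hc₂, ENNReal.mul_rpow_of_nonneg _ _ hβ.le]
        ring
      _ ≤ _ := by gcongr
  set q : ℝ := s + (d - α * s) / β with hqdef
  have hε : 0 < β * (((d + 2 : ℕ) : ℝ) - q) := by
    apply mul_pos hβ
    push_cast
    linarith
  refine ⟨(d + 1) * (ENNReal.ofReal (Hc ^ (((d + 2 : ℕ) : ℝ) - q)) *
    (ENNReal.ofReal (mixC d α s β Hc) * ∫⁻ u in B, ρ' u ^ s)), ?_,
    β * (((d + 2 : ℕ) : ℝ) - q), hε, ?_⟩
  · apply ENNReal.mul_ne_top
    · exact ENNReal.add_ne_top.mpr ⟨ENNReal.natCast_ne_top d, ENNReal.one_ne_top⟩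
    · apply ENNReal.mul_ne_top ENNReal.ofReal_ne_top
      exact ENNReal.mul_ne_top ENNReal.ofReal_ne_top hJ.ne
  · intro r' hr' hr'r N hN
    have hsub : closedBall (e x) r' ⊆ B := closedBall_subset_closedBall hr'r
    have hN' : (1 : ℝ) ≤ N := by exact_mod_cast hN
    have hmain := GV_mixed (e := d + 2) hr' hα0 hs hβ hHc0 hαs
      (by push_cast; linarith) hρ'm
      (fun u hu v hv => hFρ u (hsub hu) v (hsub hv))
      (fun u hu v hv => hFβ u (hsub hu) v (hsub hv)) hN
    refine hmain.trans ?_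
    have h2 : ENNReal.ofReal (Hc * (2 * r' / N) ^ β) ^ (((d + 2 : ℕ) : ℝ) - q) ≤
        ENNReal.ofReal (Hc ^ (((d + 2 : ℕ) : ℝ) - q)) *
          ENNReal.ofReal ((N : ℝ) ^ (-(β * (((d + 2 : ℕ) : ℝ) - q)))) := by
      have hpos : 0 < 2 * r' / N := by positivity
      have hexp : 0 < ((d + 2 : ℕ) : ℝ) - q := by push_cast; linarith
      rw [ENNReal.ofReal_rpow_of_pos (by positivity), ← ENNReal.ofReal_mul (by positivity)]
      apply ENNReal.ofReal_le_ofReal
      rw [Real.mul_rpow hHc0.le (by positivity), ← Real.rpow_mul hpos.le]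
      gcongr
      rw [Real.rpow_neg (by linarith), ← Real.inv_rpow (by linarith)]
      apply Real.rpow_le_rpow (by positivity) _ hε.le
      rw [div_eq_mul_inv]
      have h3 : 2 * r' ≤ 1 := by
        have : r ≤ 1 / 2 := min_le_right _ _
        linarith
      have h4 : (0 : ℝ) ≤ (N : ℝ)⁻¹ := by positivity
      nlinarith
    have h8 : ∫⁻ x in closedBall (e x) r', ρ' x ^ s ≤ ∫⁻ u in B, ρ' u ^ s :=
      lintegral_mono_set hsub
    calc ((d : ℝ≥0∞) + 1) * (ENNReal.ofReal (Hc * (2 * r' / N) ^ β) ^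
          (((d + 2 : ℕ) : ℝ) - q) * (ENNReal.ofReal (mixC d α s β Hc) *
          ∫⁻ x in closedBall (e x) r', ρ' x ^ s))
        ≤ (d + 1) * ((ENNReal.ofReal (Hc ^ (((d + 2 : ℕ) : ℝ) - q)) *
          ENNReal.ofReal ((N : ℝ) ^ (-(β * (((d + 2 : ℕ) : ℝ) - q))))) *
          (ENNReal.ofReal (mixC d α s β Hc) * ∫⁻ u in B, ρ' u ^ s)) := by
          gcongr
      _ = _ := by ring

/-- Lowering the exponent `α`. -/
theorem HajlaszAt.mono_alpha {X : Type*} [MetricSpace X] [MeasurableSpace X] [BorelSpace X]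
    {n : ℕ} {α α' s : ℝ} (hα : α' ≤ α) (hα' : 0 ≤ α') {f : X → X} {x : X}
    (h : HajlaszAt n α s f x) : HajlaszAt n α' s f x := by
  obtain ⟨W, hW, ρ, hρ, hint, hf⟩ := h
  refine ⟨W ∩ Metric.ball x (1 / 2), inter_mem hW (Metric.ball_mem_nhds x (by norm_num)), ρ, hρ,
    (lintegral_mono_set inter_subset_left).trans_lt hint, ?_⟩
  intro y hy z hz
  refine (hf y hy.1 z hz.1).trans ?_
  gcongr ?_ * _
  apply ENNReal.rpow_le_rpow_of_exponent_ge _ hα
  have h1 : dist y z < 1 := by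
    have h2 := hy.2
    have h3 := hz.2
    rw [Metric.mem_ball] at h2 h3
    calc dist y z ≤ dist y x + dist x z := dist_triangle _ _ _
      _ < 1 / 2 + 1 / 2 := by rw [dist_comm x z]; linarith
      _ = 1 := by norm_num
  rw [edist_dist]
  exact ENNReal.ofReal_le_one.mpr h1.le

/-- The slice variation in a chart of a map in the regularity class. -/
theorem reg_chart2 {X : Type*} [MetricSpace X] [MeasurableSpace X] [BorelSpace X]
    (e : OpenPartialHomeomorph X (Fin (d + 1) → ℝ)) {C : ℝ≥0}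
    (hC : LipschitzOnWith C e e.source) (hC' : LipschitzOnWith C e.symm e.target) {x : X}
    (hx : x ∈ e.source) {f : X → X} (hf : Continuous f) (hfx : f x ∈ e.source)
    (hR : RegAt (d + 1) f x) :
    ∃ r > 0, closedBall (e x) r ⊆ e.target ∧ (∀ u ∈ closedBall (e x) r, f (e.symm u) ∈ e.source) ∧
      ∃ K : ℝ≥0∞, K ≠ ∞ ∧ ∃ ε : ℝ, 0 < ε ∧ ∀ r' : ℝ, 0 < r' → r' ≤ r → ∀ N : ℕ, 0 < N →
        GV (d + 2) (fun u => e (f (e.symm u))) (e x) r' N ≤ K * ENNReal.ofReal ((N : ℝ) ^ (-ε)) := by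
  obtain ⟨α, s, hα, hs, hH, h⟩ := hR
  have hd : (((d + 1 : ℕ) : ℝ) - 1) = d := by push_cast; ring
  have hd' : (((d + 1 : ℕ) : ℝ) + 1) = d + 2 := by push_cast; ring
  rw [hd, hd'] at h
  rcases h with ⟨h1, h2⟩ | ⟨h1, β, hβ, h2, h3⟩
  · exact hajlasz_chart2 e hC hC' hx hf hfx hs h1 h2 hH
  · rcases h1.lt_or_eq with h1 | h1
    · exact mixed_chart2 e hC hC' hx hf hfx hα hs hβ h1 h2 hH h3
    · -- lower the exponent slightly
      have hs2 : 0 < d + 2 - s := by
        rw [h1, sub_self, zero_div] at h2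
        linarith
      set t : ℝ := min (α / 2) (β * (d + 2 - s) / (2 * s)) with ht
      have ht0 : 0 < t := lt_min (by linarith) (by positivity)
      have ht1 : t ≤ α / 2 := min_le_left _ _
      have ht2 : t * s ≤ β * (d + 2 - s) / 2 := by
        have := min_le_right (α / 2) (β * (d + 2 - s) / (2 * s))
        rw [← ht] at this
        rw [le_div_iff₀ (by positivity)] at this
        linarith
      apply mixed_chart2 e hC hC' hx hf hfx (α := α - t) (s := s) (β := β) (by linarith) hs hβ _ _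
        (hH.mono_alpha (by linarith) (by linarith)) h3
      · nlinarith
      · have e1 : (d - (α - t) * s) / β = t * s / β := by
          rw [← h1]; ring
        rw [e1]
        have e2 : t * s / β ≤ (d + 2 - s) / 2 := by
          rw [div_le_iff₀ hβ]
          linarith
        linarith

end Pool.Agent.Helper3.HS
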