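import Pool.Agent.Helper3.HS.UC2
import Pool.Agent.Helper3.HS2.UCb
import Pool.Agent.Helper3.HS2.Mixed2

/-!
# Unique continuation, second version
-/

set_option autoImplicit false
set_option linter.unusedSectionVars false
set_option linter.unusedVariables false

open Set MeasureTheory Metric Filter Topology
open scoped NNReal ENNReal

namespace Pool.Agent.Helper3.HS

variable {d : ℕ} {X : Type*} [MetricSpace X] {G : Type*} [Group G] [TopologicalSpace G]
  [MulAction G X] [ContinuousSMul G X] {p : ℕ} [hp : Fact p.Prime]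

theorem uc_local2 [MeasurableSpace X] [BorelSpace X] {R : Set X} (hRo : IsOpen R)
    (hR : R ⊆ regPts (d + 1) X) {x₁ : X} (hx₁ : x₁ ∈ R)
    {θ : Multiplicative ℤ_[p] →* G} (hθ : Continuous θ)
    (hH : ∀ g : G, ∀ x ∈ R, RegAt (d + 1) (fun y : X => g • y) x)
    (hpw : ∀ᶠ x in 𝓝 x₁, ∀ a : ℤ_[p], θ (Multiplicative.ofAdd (p * a)) • x = x)
    (hcl : x₁ ∈ closure {x | ∀ᶠ x' in 𝓝 x, ∀ a : ℤ_[p], θ (Multiplicative.ofAdd a) • x' = x'}) :
    ∀ᶠ x in 𝓝 x₁, ∀ a : ℤ_[p], θ (Multiplicative.ofAdd a) • x = x := by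
  classical
  obtain ⟨e, C, hxe, hC, hC'⟩ := hR hx₁
  set u₁ := e x₁ with hu₁
  have hu₁t : u₁ ∈ e.target := e.map_source hxe
  have hsu₁ : e.symm u₁ = x₁ := e.left_inv hxe
  -- the point `x₁` is fixed
  have hx₁f : ∀ a : ℤ_[p], θ (Multiplicative.ofAdd a) • x₁ = x₁ := by
    have h1 : closure {x : X | ∀ᶠ x' in 𝓝 x, ∀ a : ℤ_[p], θ (Multiplicative.ofAdd a) • x' = x'} ⊆
        {x : X | ∀ a : ℤ_[p], θ (Multiplicative.ofAdd a) • x = x} :=
      closure_minimal (fun x hx => hx.self_of_nhds) (isClosed_fixed θ)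
    exact h1 hcl
  -- the ball
  have h2 : e.target ∩ e.symm ⁻¹' (({x | ∀ a : ℤ_[p], θ (Multiplicative.ofAdd (p * a)) • x = x} ∩
      R) ∩ {x | ∀ a : ℤ_[p], θ (Multiplicative.ofAdd a) • x ∈ e.source}) ∈ 𝓝 u₁ := by
    apply inter_mem (e.open_target.mem_nhds hu₁t)
    apply (e.symm.continuousAt hu₁t).preimage_mem_nhds
    rw [hsu₁]
    apply inter_mem (inter_mem hpw (hRo.mem_nhds hx₁))
    apply (isOpen_stay hθ e.open_source).mem_nhds
    intro a
    rw [hx₁f a]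
    exact hxe
  obtain ⟨r₀, hr₀, hball⟩ := Metric.nhds_basis_closedBall.mem_iff.mp h2
  have hB : closedBall u₁ r₀ ⊆ e.target := fun u hu => (hball hu).1
  have hsrc : ∀ a : ℤ_[p], ∀ u ∈ closedBall u₁ r₀,
      θ (Multiplicative.ofAdd a) • e.symm u ∈ e.source := fun a u hu => (hball hu).2.2 a
  have hpfix : ∀ a : ℤ_[p], ∀ u ∈ closedBall u₁ r₀, act e θ (p * a) u = u := by
    intro a u hu
    unfold act
    rw [(hball hu).2.1.1 a, e.right_inv (hB hu)]
  have hactc : ∀ a, ContinuousOn (act e θ a) (closedBall u₁ r₀) := by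
    intro a
    have h5 : Continuous (fun x : Fin (d + 1) → ℝ => ((a, x) : ℤ_[p] × (Fin (d + 1) → ℝ))) := by
      fun_prop
    exact (act_continuousOn hθ hB hsrc).comp h5.continuousOn (fun x hx => ⟨mem_univ _, hx⟩)
  -- the fixed open set
  set A : Set (Fin (d + 1) → ℝ) :=
    ball u₁ r₀ ∩ {u | ∀ᶠ u' in 𝓝 u, ∀ a, act e θ a u' = u'} with hA
  have hAo : IsOpen A := isOpen_ball.inter isOpen_setOfPred_eventually_nhds
  have hAfix : ∀ u ∈ A, ∀ a, act e θ a u = u := fun u hu => hu.2.self_of_nhds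
  have hclA : u₁ ∈ closure A := by
    rw [mem_closure_iff_nhds]
    intro W hW
    have h3 : e ⁻¹' (W ∩ ball u₁ r₀) ∩ e.source ∈ 𝓝 x₁ :=
      inter_mem ((e.continuousAt hxe).preimage_mem_nhds
        (inter_mem hW (ball_mem_nhds _ hr₀))) (e.open_source.mem_nhds hxe)
    obtain ⟨x, ⟨⟨hxW, hxb⟩, hxs⟩, hxO⟩ := mem_closure_iff_nhds.mp hcl _ h3
    refine ⟨e x, hxW, hxb, ?_⟩
    have h4 : Tendsto e.symm (𝓝 (e x)) (𝓝 x) := by
      have := e.symm.continuousAt (e.map_source hxs)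
      rwa [ContinuousAt, e.left_inv hxs] at this
    have h5 := h4.eventually hxO
    filter_upwards [h5, e.open_target.mem_nhds (e.map_source hxs)] with u' h6 h7 a
    unfold act
    rw [h6 a, e.right_inv h7]
  by_cases hu₁A : u₁ ∈ A
  · have h3 : Tendsto e (𝓝 x₁) (𝓝 u₁) := e.continuousAt hxe
    have h4 := h3.eventually (hAo.mem_nhds hu₁A)
    filter_upwards [h4, e.open_source.mem_nhds hxe] with x h5 h6 a
    have h7 := hAfix _ h5 a
    unfold act at h7
    have h8 := hsrc a (e x) (ball_subset_closedBall h5.1)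
    rw [e.left_inv h6] at h7 h8
    exact e.injOn h8 h6 h7
  exfalso
  -- the point `z` and the contact point
  have hqc : ContinuousAt (fun u : Fin (d + 1) → ℝ => qf (u - u₁)) u₁ :=
    (continuous_qf.comp (continuous_id.sub continuous_const)).continuousAt
  have hq0 : (fun u : Fin (d + 1) → ℝ => qf (u - u₁)) u₁ < (r₀ / 4) ^ 2 := by
    simp only [sub_self, qf_zero]
    positivity
  obtain ⟨z, hz1, hzA⟩ := mem_closure_iff_nhds.mp hclA _ (hqc.eventually (gt_mem_nhds hq0))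
  simp only [mem_ofPred_eq] at hz1
  have hcomp : IsCompact (closedBall u₁ r₀ \ A) := (isCompact_closedBall _ _).diff hAo
  have hu₁B : u₁ ∈ closedBall u₁ r₀ \ A := ⟨mem_closedBall_self hr₀.le, hu₁A⟩
  obtain ⟨x₂, hx₂, hmin⟩ := hcomp.exists_isMinOn (f := fun u => qf (u - z)) ⟨u₁, hu₁B⟩
    (continuous_qf.comp (continuous_id.sub continuous_const)).continuousOn
  have hmin' : ∀ u ∈ closedBall u₁ r₀ \ A, qf (x₂ - z) ≤ qf (u - z) := fun u hu => hmin hu
  have hqsymm : qf (u₁ - z) = qf (z - u₁) := by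
    have : u₁ - z = (-1 : ℝ) • (z - u₁) := by module
    rw [this, qf_smul]
    norm_num
  have hx₂z : ‖x₂ - z‖ < r₀ / 4 := by
    apply norm_lt_of_qf_lt (by positivity)
    exact (hmin' u₁ hu₁B).trans_lt (hqsymm ▸ hz1)
  have hzu₁ : ‖z - u₁‖ < r₀ / 4 := norm_lt_of_qf_lt (by positivity) hz1
  have hx₂u₁ : ‖x₂ - u₁‖ < r₀ / 2 := by
    have : x₂ - u₁ = (x₂ - z) + (z - u₁) := by abel
    rw [this]
    have := norm_add_le (x₂ - z) (z - u₁)
    linarith
  have hx₂b : x₂ ∈ ball u₁ r₀ := by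
    rw [mem_ball, dist_eq_norm]; linarith
  have hx₂B : x₂ ∈ closedBall u₁ r₀ := hx₂.1
  set ν := x₂ - z with hνdef
  have hν0 : ν ≠ 0 := by
    intro h
    have h3 : x₂ = z := sub_eq_zero.mp h
    exact hx₂.2 (h3 ▸ hzA)
  have hν : 0 < qf ν := qf_pos hν0
  -- the segment to `z`
  have hseg : ∀ t ∈ Ioo (0 : ℝ) 1, ∀ a, act e θ a (x₂ - t • ν) = x₂ - t • ν := by
    intro t ht
    apply hAfix
    by_contra hcon
    have h3 : x₂ - t • ν ∈ closedBall u₁ r₀ := by
      rw [mem_closedBall, dist_eq_norm]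
      have h4 : x₂ - t • ν - u₁ = (x₂ - u₁) - t • ν := by abel
      rw [h4]
      have h5 := norm_sub_le (x₂ - u₁) (t • ν)
      rw [norm_smul, Real.norm_of_nonneg ht.1.le] at h5
      have h6 : t * ‖ν‖ ≤ 1 * ‖ν‖ := mul_le_mul_of_nonneg_right ht.2.le (norm_nonneg _)
      linarith
    have h4 := hmin' _ ⟨h3, hcon⟩
    have h5 : x₂ - t • ν - z = (1 - t) • ν := by
      rw [hνdef]; module
    rw [h5, qf_smul] at h4
    have h6 : (1 - t) ^ 2 < 1 := by nlinarith [ht.1, ht.2]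
    nlinarith
  have hx₂f : ∀ a, act e θ a x₂ = x₂ := by
    intro a
    have h3 : ContinuousAt (act e θ a) x₂ :=
      (hactc a).continuousAt (mem_of_superset (isOpen_ball.mem_nhds hx₂b) ball_subset_closedBall)
    have h4 : Tendsto (fun t : ℝ => x₂ - t • ν) (𝓝[>] 0) (𝓝 x₂) := by
      have h5 : Continuous (fun t : ℝ => x₂ - t • ν) := by fun_prop
      have h6 := h5.tendsto 0
      rw [zero_smul, sub_zero] at h6
      exact h6.mono_left nhdsWithin_le_nhds
    have h5 : Tendsto (fun t : ℝ => act e θ a (x₂ - t • ν)) (𝓝[>] 0) (𝓝 (act e θ a x₂)) :=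
      Tendsto.comp (g := act e θ a) h3 h4
    have h6 : (fun t : ℝ => act e θ a (x₂ - t • ν)) =ᶠ[𝓝[>] 0] (fun t : ℝ => x₂ - t • ν) := by
      filter_upwards [Ioo_mem_nhdsGT (zero_lt_one' ℝ)] with t ht
      exact hseg t ht a
    exact tendsto_nhds_unique (h5.congr' h6) h4
  have hnonfix : ∀ u ∈ closedBall u₁ r₀, (∃ a, act e θ a u ≠ u) → qf ν ≤ qf (u - z) := by
    rintro u hu ⟨a, ha⟩
    exact hmin' u ⟨hu, fun huA => ha (hAfix u huA a)⟩
  -- the data at the contact point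
  have hx₂t : x₂ ∈ e.target := hB hx₂B
  set x' := e.symm x₂ with hx'
  have hx's : x' ∈ e.source := e.map_target hx₂t
  have hex' : e x' = x₂ := e.right_inv hx₂t
  have hx'reg : x' ∈ R := (hball hx₂B).2.1.2
  have hdata : ∀ j : ℕ, ∃ r > 0, ∃ K : ℝ≥0∞, K ≠ ∞ ∧ ∃ ε : ℝ, 0 < ε ∧
      ∀ r' : ℝ, 0 < r' → r' ≤ r → ∀ N : ℕ, 0 < N →
        GV (d + 2) (act e θ (j : ℤ_[p])) x₂ r' N ≤ K * ENNReal.ofReal ((N : ℝ) ^ (-ε)) := by
    intro j
    obtain ⟨r, hr, -, -, K, hK, ε, hε, hSV⟩ := reg_chart2 e hC hC' hx's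
      (f := fun y => θ (Multiplicative.ofAdd (j : ℤ_[p])) • y) (continuous_const_smul _)
      (hsrc _ x₂ hx₂B) (hH (θ (Multiplicative.ofAdd (j : ℤ_[p]))) x' hx'reg)
    rw [hex'] at hSV
    exact ⟨r, hr, K, hK, ε, hε, hSV⟩
  choose rj hrj Kj hKj εj hεj hSVj using hdata
  obtain ⟨r₂, hr₂, hr₂le⟩ := exists_pos_le_finset (Finset.range p) rj (fun j _ => hrj j)
  obtain ⟨ε, hε, hεle⟩ := exists_pos_le_finset (Finset.range p) εj (fun j _ => hεj j)
  have hinv : invSet e θ u₁ r₀ ∈ 𝓝 x₂ := (invSet_isOpen hθ hB hsrc).mem_nhds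
    ⟨hx₂b, fun a => by rw [hx₂f a]; exact hx₂b⟩
  obtain ⟨r₃, hr₃, hr₃sub⟩ := Metric.nhds_basis_closedBall.mem_iff.mp hinv
  have hνn : 0 < ‖ν‖ := norm_pos_iff.mpr hν0
  set r₄ : ℝ := qf ν / (4 * Fintype.card (Fin (d + 1)) * ‖ν‖) with hr₄
  have hcard : (0 : ℝ) < Fintype.card (Fin (d + 1)) := by
    rw [Fintype.card_fin]; positivity
  have hr₄0 : 0 < r₄ := by positivity
  set σ := min r₂ (min r₃ r₄) with hσdef
  have hσ : 0 < σ := lt_min hr₂ (lt_min hr₃ hr₄0)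
  have hσ2 : σ ≤ r₂ := min_le_left _ _
  have hσ3 : σ ≤ r₃ := (min_le_right _ _).trans (min_le_left _ _)
  have hσ4 : σ ≤ r₄ := (min_le_right _ _).trans (min_le_right _ _)
  have hσinv : closedBall x₂ σ ⊆ invSet e θ u₁ r₀ :=
    (closedBall_subset_closedBall hσ3).trans hr₃sub
  have hσB : closedBall x₂ σ ⊆ closedBall u₁ r₀ := fun u hu =>
    ball_subset_closedBall (hσinv hu).1
  apply uc_core2 (K := ∑ j ∈ Finset.range p, Kj j) (ε := ε) (ν := ν) hθ hσ (hσB.trans hB)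
    (fun a u hu => hsrc a u (hσB hu)) _ hε _ hx₂f hν _ _ _
  · exact (ENNReal.sum_lt_top.mpr fun j _ => lt_of_le_of_ne le_top (hKj j)).ne
  · intro a N hN
    obtain ⟨j, hj, b, hab⟩ := exists_digit a
    have h3 : GV (d + 2) (act e θ a) x₂ σ N = GV (d + 2) (act e θ (j : ℤ_[p])) x₂ σ N := by
      apply GV_congr hσ hN
      intro u hu
      rw [hab, act_add hsrc _ _ (hσB hu), hpfix b u (hσB hu)]
    rw [h3]
    refine (hSVj j σ hσ (hσ2.trans (hr₂le j (Finset.mem_range.mpr hj))) N hN).trans ?_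
    apply mul_le_mul'
    · exact Finset.single_le_sum (f := Kj) (fun _ _ => zero_le) (Finset.mem_range.mpr hj)
    · apply ENNReal.ofReal_le_ofReal
      apply Real.rpow_le_rpow_of_exponent_le (by exact_mod_cast hN)
      exact neg_le_neg (hεle j (Finset.mem_range.mpr hj))
  · rw [div_le_iff₀ hν]
    have h3 : σ * (4 * Fintype.card (Fin (d + 1)) * ‖ν‖) ≤ qf ν := by
      rw [hr₄, le_div_iff₀ (by positivity)] at hσ4
      exact hσ4
    linarith
  · intro u hu hnf a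
    have hw : act e θ a u ∈ closedBall u₁ r₀ := ball_subset_closedBall ((hσinv hu).2 a)
    have huB := hσB hu
    have hback : act e θ (-a) (act e θ a u) = u := by
      rw [← act_add hsrc _ _ huB, neg_add_cancel, act_zero hB huB]
    have hwnf : ∃ b, act e θ b (act e θ a u) ≠ act e θ a u := by
      by_contra hcon
      push Not at hcon
      have h3 := hcon (-a)
      rw [hback] at h3
      rw [← h3] at hcon
      obtain ⟨b, hb⟩ := hnf
      exact hb (hcon b)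
    apply bf_parab_pos hν hνdef _ (hnonfix _ hw hwnf)
    intro h3
    rw [h3] at hwnf
    obtain ⟨b, hb⟩ := hwnf
    exact hb (hx₂f b)
  · intro δ hδ
    by_contra hcon
    push Not at hcon
    apply hx₂.2
    refine ⟨hx₂b, ?_⟩
    exact Metric.eventually_nhds_iff_ball.mpr ⟨δ, hδ, hcon⟩

end Pool.Agent.Helper3.HS
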