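import Pool.Agent.Helper3.HS.Global
import Pool.Agent.Helper3.HS2.Local2
import Pool.Agent.Helper3.HS2.UCc

/-!
# The global theorem, second version
-/

set_option autoImplicit false
set_option linter.unusedSectionVars false
set_option linter.unusedVariables false

open Set MeasureTheory Metric Filter Topology
open scoped NNReal ENNReal

namespace Pool.Agent.Helper3.HS

variable {d : ℕ} {X : Type*} [MetricSpace X] {G : Type*} [Group G] [TopologicalSpace G]
  [MulAction G X]

variable [IsTopologicalGroup G] [ContinuousSMul G X]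

theorem descend2 [MeasurableSpace X] [BorelSpace X] [BaireSpace G] {R : Set X} (hRo : IsOpen R)
    (hR : R ⊆ regPts (d + 1) X)
    (hH : ∀ g : G, ∀ x ∈ R, RegAt (d + 1) (fun y : X => g • y) x)
    {p : ℕ} [Fact p.Prime] {θ : Multiplicative ℤ_[p] →* G} (hθ : Continuous θ) {x₁ : X}
    (hx₁ : x₁ ∈ R)
    (hcl : x₁ ∈ closure {x | ∀ᶠ x' in 𝓝 x, ∀ a : ℤ_[p], θ (Multiplicative.ofAdd a) • x' = x'}) :
    ∀ᶠ x in 𝓝 x₁, ∀ a : ℤ_[p], θ (Multiplicative.ofAdd a) • x = x := by
  obtain ⟨V, hV, N, hN, hloc⟩ := local_theorem2 (hR hx₁) (fun g => hH g x₁ hx₁)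
  obtain ⟨k, hk⟩ := exists_pow_mem hθ hV
  have hPk : ∀ᶠ x in 𝓝 x₁, ∀ a : ℤ_[p], θ (Multiplicative.ofAdd ((p : ℤ_[p]) ^ k * a)) • x = x := by
    filter_upwards [hN] with x hx a
    exact hloc p (θ.comp (mulHom ((p : ℤ_[p]) ^ k))) (hθ.comp (continuous_mulHom _))
      (fun a => hk (Multiplicative.toAdd a)) (Multiplicative.ofAdd a) x hx
  have hdesc : ∀ j : ℕ, (∀ᶠ x in 𝓝 x₁, ∀ a : ℤ_[p],
      θ (Multiplicative.ofAdd ((p : ℤ_[p]) ^ j * a)) • x = x) →
      ∀ᶠ x in 𝓝 x₁, ∀ a : ℤ_[p], θ (Multiplicative.ofAdd a) • x = x := by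
    intro j
    induction j with
    | zero =>
      intro h
      simpa using h
    | succ j ih =>
      intro h
      apply ih
      have h1 := uc_local2 hRo hR hx₁ (θ := θ.comp (mulHom ((p : ℤ_[p]) ^ j)))
        (hθ.comp (continuous_mulHom _)) hH
      simp only [MonoidHom.comp_apply, mulHom_ofAdd] at h1
      apply h1
      · filter_upwards [h] with x hx a
        have := hx a
        rwa [pow_succ, mul_assoc] at this
      · refine closure_mono ?_ hcl
        intro x hx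
        filter_upwards [hx] with x' hx' a
        exact hx' _
  exact hdesc k hPk

/-- **The global theorem.** -/
theorem global_theorem2 [MeasurableSpace X] [BorelSpace X] [BaireSpace G] [FaithfulSMul G X]
    {R : Set X} (hRo : IsOpen R) (hR : R ⊆ regPts (d + 1) X)
    (hdense : Dense R) (hconn : IsPreconnected R)
    (hH : ∀ g : G, ∀ x ∈ R, RegAt (d + 1) (fun y : X => g • y) x) :
    ∃ V ∈ 𝓝 (1 : G), ∀ (p : ℕ) [Fact p.Prime] (θ : Multiplicative ℤ_[p] →* G),
      Continuous θ → (∀ a, θ a ∈ V) → ∀ a, θ a = 1 := by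
  rcases R.eq_empty_or_nonempty with hem | ⟨x₀, hx₀⟩
  · refine ⟨univ, univ_mem, fun p _ θ _ _ a => ?_⟩
    have hX : IsEmpty X := by
      rw [hem] at hdense
      by_contra hne
      rw [not_isEmpty_iff] at hne
      exact absurd hdense.nonempty not_nonempty_empty
    apply FaithfulSMul.eq_of_smul_eq_smul (α := X)
    intro x
    exact (hX.false x).elim
  obtain ⟨V, hV, N, hN, hloc⟩ := local_theorem2 (hR hx₀) (fun g => hH g x₀ hx₀)
  refine ⟨V, hV, fun p _ θ hθ hθV => ?_⟩
  set O : Set X := {x | ∀ᶠ x' in 𝓝 x, ∀ a : ℤ_[p], θ (Multiplicative.ofAdd a) • x' = x'} with hO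
  have hOo : IsOpen O := isOpen_setOfPred_eventually_nhds
  have hx₀O : x₀ ∈ O := by
    change ∀ᶠ x' in 𝓝 x₀, ∀ a : ℤ_[p], θ (Multiplicative.ofAdd a) • x' = x'
    filter_upwards [hN] with x hx a
    exact hloc p θ hθ hθV (Multiplicative.ofAdd a) x hx
  have hsub : R ⊆ O := by
    apply hconn.subset_of_closure_inter_subset hOo ⟨x₀, hx₀, hx₀O⟩
    rintro x ⟨hxc, hxr⟩
    exact descend2 hRo hR hH hθ hxr hxc
  intro a
  apply FaithfulSMul.eq_of_smul_eq_smul (α := X)
  intro x
  rw [one_smul]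
  have h1 : closure R ⊆ {x : X | ∀ a : ℤ_[p], θ (Multiplicative.ofAdd a) • x = x} :=
    closure_minimal (fun x hx => (hsub hx).self_of_nhds) (isClosed_fixed θ)
  exact h1 (hdense x) (Multiplicative.toAdd a)

end Pool.Agent.Helper3.HS
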