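import Pool.Agent.Helper3.HS2.AvgGood

/-!
# Existence of good neighbourhoods
-/

set_option autoImplicit false
set_option linter.unusedSectionVars false
set_option linter.unusedVariables false

open Set MeasureTheory Metric Filter Topology
open scoped NNReal ENNReal Function

namespace Pool.Agent.Helper3.HS

variable {d : ℕ} {p : ℕ} [hp : Fact p.Prime] [MeasurableSpace ℤ_[p]] [BorelSpace ℤ_[p]]
  {ν : Measure ℤ_[p]}

/-- The averaged distance to the set `S`. -/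
noncomputable def lev (ν : Measure ℤ_[p]) (Γ : ℤ_[p] → (Fin (d + 1) → ℝ) → (Fin (d + 1) → ℝ))
    (S : Set (Fin (d + 1) → ℝ)) (c : ℤ_[p]) (w : Fin (d + 1) → ℝ) : ℝ :=
  ∫ a, infDist (Γ (p * a + c) w) S ∂ν

variable {Γ : ℤ_[p] → (Fin (d + 1) → ℝ) → (Fin (d + 1) → ℝ)} {S : Set (Fin (d + 1) → ℝ)}

theorem cont_arg (hΓ : Continuous (fun q : ℤ_[p] × (Fin (d + 1) → ℝ) => Γ q.1 q.2))
    (S : Set (Fin (d + 1) → ℝ)) (c : ℤ_[p]) :
    Continuous (fun q : (Fin (d + 1) → ℝ) × ℤ_[p] => infDist (Γ (p * q.2 + c) q.1) S) := by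
  have h1 : Continuous (fun q : (Fin (d + 1) → ℝ) × ℤ_[p] =>
      ((p * q.2 + c, q.1) : ℤ_[p] × (Fin (d + 1) → ℝ))) := by fun_prop
  exact (continuous_infDist_pt S).comp (hΓ.comp h1)

theorem cont_arg' (hΓ : Continuous (fun q : ℤ_[p] × (Fin (d + 1) → ℝ) => Γ q.1 q.2))
    (S : Set (Fin (d + 1) → ℝ)) (c : ℤ_[p]) (w : Fin (d + 1) → ℝ) :
    Continuous (fun a : ℤ_[p] => infDist (Γ (p * a + c) w) S) :=
  (cont_arg hΓ S c).comp (f := fun a : ℤ_[p] => (w, a)) (by fun_prop)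

theorem lev_continuous [IsProbabilityMeasure ν]
    (hΓ : Continuous (fun q : ℤ_[p] × (Fin (d + 1) → ℝ) => Γ q.1 q.2))
    (S : Set (Fin (d + 1) → ℝ)) (c : ℤ_[p]) : Continuous (lev ν Γ S c) :=
  ravg_continuous (f := fun w a => infDist (Γ (p * a + c) w) S) (cont_arg hΓ S c)

theorem lev_shift {D : PreDat (Fin (d + 1) → ℝ) p}
    (hΓg : ∀ a b, ∀ u ∈ D.U, Γ a (D.g b u) = Γ (a + b) u) (S : Set (Fin (d + 1) → ℝ))
    (c b : ℤ_[p]) {u : Fin (d + 1) → ℝ} (hu : u ∈ D.U) :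
    lev ν Γ S c (D.g b u) = lev ν Γ S (c + b) u := by
  unfold lev
  congr 1
  funext a
  rw [hΓg _ _ u hu, add_assoc]

theorem lev_inv [ν.IsAddRightInvariant] (S : Set (Fin (d + 1) → ℝ)) (c b : ℤ_[p])
    (u : Fin (d + 1) → ℝ) : lev ν Γ S (c + p * b) u = lev ν Γ S c u := by
  unfold lev
  have h1 := integral_add_right_eq_self (μ := ν) (fun a => infDist (Γ (p * a + c) u) S) b
  rw [← h1]
  congr 1
  funext a
  congr 2
  ring

theorem exists_good_set (D : PreDat (Fin (d + 1) → ℝ) p) {c : Fin (d + 1) → ℝ} {σ : ℝ}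
    (hDU : D.U ⊆ closedBall c σ) [IsProbabilityMeasure ν] [ν.IsAddRightInvariant]
    (hΓ : Continuous (fun q : ℤ_[p] × (Fin (d + 1) → ℝ) => Γ q.1 q.2))
    (hΓg : ∀ a b, ∀ u ∈ D.U, Γ a (D.g b u) = Γ (a + b) u)
    (hinj : InjOn (Γ 0) (closedBall c σ)) {qs : ℕ → (Fin (d + 1) → ℝ)} (hqs : DenseRange qs)
    {F : (Fin (d + 1) → ℝ) → (Fin (d + 1) → ℝ)} {y : Fin (d + 1) → ℝ}
    {H : Set (Fin (d + 1) → ℝ)}
    (hgen : ∀ n j : ℕ, ∀ᵐ t ∂(volume : Measure ℝ), ∀ w ∈ D.U, F w = y →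
      lev ν Γ (range fun b : ℤ_[p] => Γ (p * b) (qs n)) (-(j : ℤ_[p])) w = t → w ∉ H)
    (hFinv : ∀ a, ∀ x ∈ D.U, F (D.g a x) = F x)
    {u₀ : Fin (d + 1) → ℝ} (hu₀ : u₀ ∈ D.U) (hm : ∃ a, D.g a u₀ ≠ u₀) :
    ∃ P, Good volume D F y H P ∧ u₀ ∈ P := by
  classical
  -- the orbit
  have hgc : ∀ u ∈ D.U, Continuous (fun b : ℤ_[p] => D.g (p * b) u) := by
    intro u hu
    have h1 : Continuous (fun b : ℤ_[p] => ((p * b, u) : ℤ_[p] × (Fin (d + 1) → ℝ))) := by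
      fun_prop
    exact D.hgj.comp_continuous h1 (fun a => ⟨mem_univ _, hu⟩)
  set O₀ : Set (Fin (d + 1) → ℝ) := range (fun b : ℤ_[p] => D.g (p * b) u₀) with hO₀
  have hO₀c : IsCompact O₀ := isCompact_range (hgc u₀ hu₀)
  have hO₀U : O₀ ⊆ D.U := by rintro _ ⟨b, rfl⟩; exact D.hgU _ u₀ hu₀
  have hdisj : ∀ j : ℕ, 0 < j → j < p → Disjoint O₀ (D.g (j : ℤ_[p]) '' O₀) := by
    intro j hj hjp
    rw [Set.disjoint_left]
    rintro _ ⟨b, rfl⟩ ⟨_, ⟨b', rfl⟩, heq⟩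
    simp only at heq
    rw [← D.hgadd _ _ u₀ hu₀] at heq
    have h1 := congrArg (D.g (-(p * b))) heq
    rw [D.inv _ hu₀, ← D.hgadd _ _ u₀ hu₀] at h1
    have e : -((p : ℤ_[p]) * b) + ((j : ℤ_[p]) + p * b') = (j : ℤ_[p]) - p * (b - b') := by ring
    rw [e] at h1
    exact moved_unit D hu₀ hm (isUnit_sub hj hjp (b - b')) h1
  -- the open set `W₀`
  have hsep : ∀ j : ℕ, ∃ A B : Set (Fin (d + 1) → ℝ), IsOpen A ∧ IsOpen B ∧
      (0 < j → j < p → O₀ ⊆ A ∧ D.g (j : ℤ_[p]) '' O₀ ⊆ B ∧ Disjoint A B) := by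
    intro j
    by_cases h : 0 < j ∧ j < p
    · obtain ⟨A, B, hA, hB, h1, h2, h3⟩ := SeparatedNhds.of_isCompact_isCompact hO₀c
        (hO₀c.image (D.hg (j : ℤ_[p]))) (hdisj j h.1 h.2)
      exact ⟨A, B, hA, hB, fun _ _ => ⟨h1, h2, h3⟩⟩
    · exact ⟨univ, univ, isOpen_univ, isOpen_univ, fun h1 h2 => absurd ⟨h1, h2⟩ h⟩
  choose A B hA hB hAB using hsep
  set N : Set (Fin (d + 1) → ℝ) := D.U ∩ ⋂ j ∈ (Finset.range p).filter (fun j => 0 < j),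
    (A j ∩ D.g (j : ℤ_[p]) ⁻¹' (B j)) with hN
  have hNo : IsOpen N := D.hU.inter (isOpen_biInter_finset fun j _ =>
    (hA j).inter ((hB j).preimage (D.hg _)))
  have hO₀N : O₀ ⊆ N := by
    intro u hu
    refine ⟨hO₀U hu, mem_iInter₂.mpr fun j hj => ?_⟩
    rw [Finset.mem_filter, Finset.mem_range] at hj
    exact ⟨(hAB j hj.2 hj.1).1 hu, (hAB j hj.2 hj.1).2.1 ⟨u, hu, rfl⟩⟩
  obtain ⟨W₀, hW₀o, hO₀W₀, hW₀N⟩ := normal_exists_closure_subset hO₀c.isClosed hNo hO₀N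
  have hW₀U : closure W₀ ⊆ D.U := hW₀N.trans inter_subset_left
  have hW₀d : ∀ j : ℕ, 0 < j → j < p →
      Disjoint (D.g (j : ℤ_[p]) '' closure W₀) (closure W₀) := by
    intro j hj hjp
    rw [Set.disjoint_left]
    rintro _ ⟨u, hu, rfl⟩ hu'
    have hmem : j ∈ (Finset.range p).filter (fun j => 0 < j) := by
      rw [Finset.mem_filter, Finset.mem_range]; exact ⟨hjp, hj⟩
    have h1 := (mem_iInter₂.mp (hW₀N hu).2 j hmem).2
    have h2 := (mem_iInter₂.mp (hW₀N hu').2 j hmem).1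
    exact Set.disjoint_left.mp (hAB j hj hjp).2.2 h2 h1
  -- the invariant open set `W₁`
  set W₁ : Set (Fin (d + 1) → ℝ) := {x | x ∈ D.U ∧ ∀ b : ℤ_[p], D.g (p * b + 0) x ∈ W₀} with hW₁
  have hW₁o : IsOpen W₁ := D.isOpen_all hW₀o 0
  have hW₁W₀ : W₁ ⊆ W₀ := by
    intro u hu
    have := hu.2 0
    rwa [mul_zero, add_zero, D.hg0 u hu.1] at this
  have hW₁inv : ∀ b : ℤ_[p], ∀ u ∈ D.U, D.g (p * b) u ∈ W₁ → u ∈ W₁ := by
    intro b u hu h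
    refine ⟨hu, fun b' => ?_⟩
    have := h.2 (b' - b)
    rw [← D.hgadd _ _ u hu] at this
    have e : (p : ℤ_[p]) * (b' - b) + 0 + p * b = p * b' + 0 := by ring
    rwa [e] at this
  have hO₀W₁ : O₀ ⊆ W₁ := by
    rintro _ ⟨b, rfl⟩
    refine ⟨D.hgU _ u₀ hu₀, fun b' => hO₀W₀ ⟨b' + b, ?_⟩⟩
    simp only
    rw [← D.hgadd _ _ u₀ hu₀]
    congr 1
    ring
  obtain ⟨η, hη, hthick⟩ := hO₀c.exists_thickening_subset_open hW₁o hO₀W₁
  -- the modulus of injectivity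
  obtain ⟨t₁, ht₁, ht₁'⟩ : ∃ t₁ > 0, ∀ v ∈ closedBall c σ, ∀ w ∈ closedBall c σ,
      dist (Γ 0 v) (Γ 0 w) < t₁ → dist v w < η / 2 := by
    have hΓ0 : Continuous (Γ 0) := hΓ.comp (continuous_const.prodMk continuous_id)
    set Kc : Set ((Fin (d + 1) → ℝ) × (Fin (d + 1) → ℝ)) :=
      (closedBall c σ ×ˢ closedBall c σ) ∩ {q | η / 2 ≤ dist q.1 q.2} with hKc
    have hKcc : IsCompact Kc := by
      apply IsCompact.inter_right ((isCompact_closedBall _ _).prod (isCompact_closedBall _ _))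
      exact isClosed_le continuous_const (continuous_fst.dist continuous_snd)
    have hFc : Continuous (fun q : (Fin (d + 1) → ℝ) × (Fin (d + 1) → ℝ) =>
        Γ 0 q.1 - Γ 0 q.2) := (hΓ0.comp continuous_fst).sub (hΓ0.comp continuous_snd)
    obtain ⟨r, hr, hgap⟩ := exists_gap hKcc hFc.continuousOn (y := 0) (by
      rintro ⟨v, w⟩ ⟨⟨hv, hw⟩, hvw⟩ heq
      have h1 : v = w := hinj hv hw (sub_eq_zero.mp heq)
      simp only [mem_ofPred_eq] at hvw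
      rw [h1, dist_self] at hvw
      linarith)
    refine ⟨r, hr, fun v hv w hw hlt => ?_⟩
    by_contra hcon
    rw [not_lt] at hcon
    have h1 := hgap (v, w) ⟨⟨hv, hw⟩, hcon⟩
    rw [dist_zero_right, ← dist_eq_norm] at h1
    simp only at h1
    linarith
  -- the point of the dense sequence
  have hev1 : ∀ᶠ q in 𝓝 u₀, ∀ b ∈ (univ : Set ℤ_[p]),
      dist (D.g (p * b) q) (D.g (p * b) u₀) < η / 2 := by
    apply isCompact_univ.eventually_forall_of_forall_eventually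
    intro b _
    have h2 : ContinuousAt (fun q : ℤ_[p] × (Fin (d + 1) → ℝ) => D.g q.1 q.2) (p * b, u₀) := by
      apply D.hgj.continuousAt
      exact (isOpen_univ.prod D.hU).mem_nhds ⟨mem_univ _, hu₀⟩
    have h3 : ContinuousAt (fun z : (Fin (d + 1) → ℝ) × ℤ_[p] =>
        ((p * z.2, z.1) : ℤ_[p] × (Fin (d + 1) → ℝ))) (u₀, b) := by
      apply Continuous.continuousAt
      fun_prop
    have h4 : ContinuousAt (fun z : (Fin (d + 1) → ℝ) × ℤ_[p] => D.g (p * z.2) z.1) (u₀, b) :=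
      ContinuousAt.comp (g := fun q : ℤ_[p] × (Fin (d + 1) → ℝ) => D.g q.1 q.2)
        (f := fun z : (Fin (d + 1) → ℝ) × ℤ_[p] =>
          ((p * z.2, z.1) : ℤ_[p] × (Fin (d + 1) → ℝ))) h2 h3
    have h5 : ContinuousAt (fun z : (Fin (d + 1) → ℝ) × ℤ_[p] => D.g (p * z.2) u₀) (u₀, b) :=
      ((hgc u₀ hu₀).comp continuous_snd).continuousAt
    have h6 : ContinuousAt (fun z : (Fin (d + 1) → ℝ) × ℤ_[p] =>
        dist (D.g (p * z.2) z.1) (D.g (p * z.2) u₀)) (u₀, b) := Filter.Tendsto.dist h4 h5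
    have h7 : dist (D.g (p * b) u₀) (D.g (p * b) u₀) < η / 2 := by rw [dist_self]; positivity
    exact h6.eventually (gt_mem_nhds h7)
  have hev2 : ∀ᶠ q in 𝓝 u₀, ∀ b ∈ (univ : Set ℤ_[p]),
      dist (Γ (p * b + (-((0 : ℕ) : ℤ_[p]))) u₀) (Γ (p * b) q) < t₁ := by
    apply isCompact_univ.eventually_forall_of_forall_eventually
    intro b _
    have h4 : Continuous (fun z : (Fin (d + 1) → ℝ) × ℤ_[p] => Γ (p * z.2) z.1) :=
      hΓ.comp (f := fun z : (Fin (d + 1) → ℝ) × ℤ_[p] =>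
        ((p * z.2, z.1) : ℤ_[p] × (Fin (d + 1) → ℝ))) (by fun_prop)
    have h5 : Continuous (fun z : (Fin (d + 1) → ℝ) × ℤ_[p] =>
        Γ (p * z.2 + (-((0 : ℕ) : ℤ_[p]))) u₀) :=
      hΓ.comp (f := fun z : (Fin (d + 1) → ℝ) × ℤ_[p] =>
        ((p * z.2 + (-((0 : ℕ) : ℤ_[p])), u₀) : ℤ_[p] × (Fin (d + 1) → ℝ))) (by fun_prop)
    have h6 := (h5.dist h4).continuousAt (x := (u₀, b))
    have h7 : dist (Γ (p * b + (-((0 : ℕ) : ℤ_[p]))) u₀) (Γ (p * b) u₀) < t₁ := by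
      rw [Nat.cast_zero, neg_zero, add_zero, dist_self]; exact ht₁
    exact h6.eventually (gt_mem_nhds h7)
  obtain ⟨n, hn1, hn2, hn3⟩ : ∃ n, (∀ b ∈ (univ : Set ℤ_[p]),
      dist (D.g (p * b) (qs n)) (D.g (p * b) u₀) < η / 2) ∧ (∀ b ∈ (univ : Set ℤ_[p]),
      dist (Γ (p * b + (-((0 : ℕ) : ℤ_[p]))) u₀) (Γ (p * b) (qs n)) < t₁) ∧ qs n ∈ D.U := by
    have h1 := (hev1.and (hev2.and (D.hU.mem_nhds hu₀)))
    obtain ⟨x, hx, n, rfl⟩ := mem_closure_iff_nhds.mp (hqs u₀) _ h1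
    exact ⟨n, hx.1, hx.2.1, hx.2.2⟩
  set q := qs n with hq
  set S : Set (Fin (d + 1) → ℝ) := range (fun b : ℤ_[p] => Γ (p * b) q) with hS
  have hSne : S.Nonempty := ⟨_, 0, rfl⟩
  have hlev0 : lev ν Γ S (-((0 : ℕ) : ℤ_[p])) u₀ < t₁ := by
    apply int_lt (cont_arg' hΓ S _ u₀)
    intro a
    exact (infDist_le_dist_of_mem (s := S) (y := Γ (p * a) q) ⟨a, rfl⟩).trans_lt
      (hn2 a (mem_univ a))
  -- the generic level
  have hae : ∀ᵐ t ∂(volume : Measure ℝ), ∀ j : ℕ, (∀ w ∈ D.U, F w = y →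
      lev ν Γ S (-(j : ℤ_[p])) w = t → w ∉ H) ∧
      ¬ 0 < volume {w : Fin (d + 1) → ℝ | lev ν Γ S (-(j : ℤ_[p])) w = t} := by
    rw [ae_all_iff]
    intro j
    have h1 := hgen n j
    have h2 : ∀ᵐ t ∂(volume : Measure ℝ),
        t ∉ {t : ℝ | 0 < volume {w : Fin (d + 1) → ℝ | lev ν Γ S (-(j : ℤ_[p])) w = t}} :=
      (Measure.countable_meas_level_set_pos (lev_continuous hΓ S _).measurable).ae_notMem _
    filter_upwards [h1, h2] with t h3 h4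
    exact ⟨h3, h4⟩
  obtain ⟨t, ht, htt⟩ : ∃ t ∈ Ioo (lev ν Γ S (-((0 : ℕ) : ℤ_[p])) u₀) t₁, ∀ j : ℕ,
      (∀ w ∈ D.U, F w = y → lev ν Γ S (-(j : ℤ_[p])) w = t → w ∉ H) ∧
      ¬ 0 < volume {w : Fin (d + 1) → ℝ | lev ν Γ S (-(j : ℤ_[p])) w = t} := by
    have h3 : (volume.restrict (Ioo (lev ν Γ S (-((0 : ℕ) : ℤ_[p])) u₀) t₁)) ≠ 0 := by
      rw [Ne, Measure.restrict_eq_zero, Real.volume_Ioo, ENNReal.ofReal_eq_zero, not_le]
      linarith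
    have h4 : (ae (volume.restrict (Ioo (lev ν Γ S (-((0 : ℕ) : ℤ_[p])) u₀) t₁))).NeBot :=
      ae_neBot.mpr h3
    have h5 := ae_restrict_of_ae (s := Ioo (lev ν Γ S (-((0 : ℕ) : ℤ_[p])) u₀) t₁) hae
    obtain ⟨t, ht1, ht2⟩ := (h5.and (ae_restrict_mem measurableSet_Ioo)).exists
    exact ⟨t, ht2, ht1⟩
  -- the good set
  have key : ∀ u ∈ D.U, lev ν Γ S (-((0 : ℕ) : ℤ_[p])) u < t₁ → u ∈ W₁ := by
    intro u hu hlt
    obtain ⟨a, ha⟩ := exists_lt_of_int (cont_arg' hΓ S _ u) hlt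
    obtain ⟨_, ⟨b, rfl⟩, hb⟩ := (infDist_lt_iff hSne).mp ha
    rw [Nat.cast_zero, neg_zero, add_zero] at hb
    have e1 : Γ (p * a) u = Γ 0 (D.g (p * a) u) := by rw [hΓg 0 _ u hu, zero_add]
    have e2 : Γ (p * b) q = Γ 0 (D.g (p * b) q) := by rw [hΓg 0 _ q hn3, zero_add]
    simp only at hb
    rw [e1, e2] at hb
    have h1 := ht₁' _ (hDU (D.hgU _ u hu)) _ (hDU (D.hgU _ q hn3)) hb
    have h2 := hn1 b (mem_univ b)
    have h3 : dist (D.g (p * a) u) (D.g (p * b) u₀) < η := by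
      have := dist_triangle (D.g (p * a) u) (D.g (p * b) q) (D.g (p * b) u₀)
      linarith
    apply hW₁inv a u hu
    apply hthick
    exact mem_thickening_iff.mpr ⟨_, ⟨b, rfl⟩, h3⟩
  set P : Set (Fin (d + 1) → ℝ) := {u | u ∈ D.U ∧ lev ν Γ S (-((0 : ℕ) : ℤ_[p])) u < t} with hP
  have hPW₁ : P ⊆ W₁ := fun u hu => key u hu.1 (hu.2.trans ht.2)
  have hPcl : closure P ⊆ closure W₀ := closure_mono (hPW₁.trans hW₁W₀)
  have hPo : IsOpen P := D.hU.inter (isOpen_lt (lev_continuous hΓ S _) continuous_const)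
  have hPU : closure P ⊆ D.U := hPcl.trans hW₀U
  have hfr : ∀ u ∈ frontier P, u ∈ D.U ∧ lev ν Γ S (-((0 : ℕ) : ℤ_[p])) u = t := by
    intro u hu
    rw [hPo.frontier_eq] at hu
    have huU := hPU hu.1
    refine ⟨huU, le_antisymm ?_ ?_⟩
    · have h1 : closure P ⊆ {u | lev ν Γ S (-((0 : ℕ) : ℤ_[p])) u ≤ t} :=
        closure_minimal (fun u hu => hu.2.le)
          (isClosed_le (lev_continuous hΓ S _) continuous_const)
      exact h1 hu.1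
    · by_contra hcon
      rw [not_le] at hcon
      exact hu.2 ⟨huU, hcon⟩
  have hfrj : ∀ j : ℕ, ∀ u ∈ frontier P, D.g (j : ℤ_[p]) u ∈ D.U ∧
      lev ν Γ S (-(j : ℤ_[p])) (D.g (j : ℤ_[p]) u) = t := by
    intro j u hu
    obtain ⟨h1, h2⟩ := hfr u hu
    refine ⟨D.hgU _ u h1, ?_⟩
    rw [lev_shift hΓg S _ _ h1, neg_add_cancel, ← h2]
    simp
  refine ⟨P, ⟨hPo, hPU, ?_, ?_, ?_, ?_⟩, ⟨hu₀, ht.1⟩⟩
  · intro b z hz
    refine ⟨D.hgU _ z hz.1, ?_⟩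
    rw [lev_shift hΓg S _ _ hz.1, lev_inv]
    exact hz.2
  · intro j hj hjp
    exact (hW₀d j hj hjp).mono (image_mono hPcl) hPcl
  · intro j hj
    have h1 : D.g (j : ℤ_[p]) '' frontier P ⊆ {w | lev ν Γ S (-(j : ℤ_[p])) w = t} := by
      rintro _ ⟨u, hu, rfl⟩
      exact (hfrj j u hu).2
    have h2 := (htt j).2
    rw [not_lt, nonpos_iff_eq_zero] at h2
    exact measure_mono_null h1 h2
  · intro j hj z hz heq
    have hzU := (hfr z hz).1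
    apply (htt j).1 _ (hfrj j z hz).1 _ (hfrj j z hz).2
    rw [hFinv _ z hzU]
    exact heq

end Pool.Agent.Helper3.HS
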