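import Pool.Agent.Helper3.HS.Morrey

/-!
# Oscillation on a cube for Hajłasz functions with a Hölder bound
-/

set_option autoImplicit false
set_option linter.unusedSectionVars false
set_option linter.unusedVariables false

open Set MeasureTheory Metric Filter Topology
open scoped NNReal ENNReal

namespace Pool.Agent.Helper3.HS

/-- The constant in the mixed inequality. -/
noncomputable def mixC (d : ℕ) (α s β Hc : ℝ) : ℝ :=
  (2 * (2 * ((2 * 2 ^ ((d : ℝ) / s)) / (2 ^ (-(α - d / s)) - 1) *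
    (2 ^ (-(α - d / s)) * (4 * Hc) ^ (-((α - d / s) / β)))))) ^ s

variable {d : ℕ}

/-- Mixed inequality on a cube: the oscillation of a Hölder continuous Hajłasz function. -/
theorem morrey_mixed {Y : Type*} [PseudoEMetricSpace Y] {a : Fin d → ℝ} {h : ℝ} (hh : 0 < h)
    {α s β Hc : ℝ} (hα0 : 0 < α) (hs : 0 < s) (hβ : 0 < β) (hHc : 0 < Hc) (hαs : α * s < d)
    {f : (Fin d → ℝ) → Y}
    {ρ : (Fin d → ℝ) → ℝ≥0∞} (hρ : Measurable ρ)
    (hfρ : ∀ x ∈ Icc a (fun k => a k + h), ∀ z ∈ Icc a (fun k => a k + h),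
      edist (f x) (f z) ≤ edist x z ^ α * (ρ x + ρ z))
    (hfβ : ∀ x ∈ Icc a (fun k => a k + h), ∀ z ∈ Icc a (fun k => a k + h),
      edist (f x) (f z) ≤ ENNReal.ofReal Hc * edist x z ^ β) :
    Metric.ediam (f '' Icc a (fun k => a k + h)) ^ (s + (d - α * s) / β) ≤
      ENNReal.ofReal (mixC d α s β Hc) * ∫⁻ w in Icc a (fun k => a k + h), ρ w ^ s := by
  set S : Set (Fin d → ℝ) := Icc a (fun k => a k + h) with hS
  set I : ℝ≥0∞ := ∫⁻ w in S, ρ w ^ s with hI
  have hδ : α - d / s < 0 := by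
    rw [sub_neg, lt_div_iff₀ hs]; exact hαs
  set δ : ℝ := α - d / s with hδdef
  -- subcubes
  set sub : (Fin d → ℝ) → ℕ → Set (Fin d → ℝ) := fun x k =>
    Icc (fun i => x i + (2 : ℝ)⁻¹ ^ k * (a i - x i))
      (fun i => x i + (2 : ℝ)⁻¹ ^ k * (a i + h - x i)) with hsub
  have hpow : ∀ k : ℕ, 0 < (2 : ℝ)⁻¹ ^ k := fun k => by positivity
  have hpow1 : ∀ k : ℕ, (2 : ℝ)⁻¹ ^ k ≤ 1 := fun k => pow_le_one₀ (by norm_num) (by norm_num)
  have hsubS : ∀ x ∈ S, ∀ k, sub x k ⊆ S := by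
    intro x hx k z hz
    rw [hS, mem_Icc, Pi.le_def, Pi.le_def] at hx ⊢
    rw [hsub, mem_Icc, Pi.le_def, Pi.le_def] at hz
    constructor
    · intro i
      have h1 := hz.1 i
      have h2 := hx.1 i
      have h3 := hpow1 k
      try simp only at h1
      nlinarith [hpow k]
    · intro i
      have h1 := hz.2 i
      have h2 := hx.2 i
      have h3 := hpow1 k
      try simp only at h1 h2 ⊢
      nlinarith [hpow k]
  have hsubmono : ∀ x ∈ S, ∀ k, sub x (k + 1) ⊆ sub x k := by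
    intro x hx k z hz
    rw [hS, mem_Icc, Pi.le_def, Pi.le_def] at hx
    rw [hsub, mem_Icc, Pi.le_def, Pi.le_def] at hz ⊢
    have h4 : (2 : ℝ)⁻¹ ^ (k + 1) = (2 : ℝ)⁻¹ ^ k / 2 := by rw [pow_succ]; ring
    constructor
    · intro i
      have h1 := hz.1 i
      have h2 := hx.1 i
      try simp only at h1 ⊢
      rw [h4] at h1
      nlinarith [hpow k]
    · intro i
      have h1 := hz.2 i
      have h2 := hx.2 i
      try simp only at h1 h2 ⊢
      rw [h4] at h1
      nlinarith [hpow k]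
  have hsub0 : ∀ x, sub x 0 = S := by
    intro x
    simp only [hsub, hS, pow_zero, one_mul, add_sub_cancel]
  have hedist : ∀ x k, ∀ z ∈ sub x k, ∀ w ∈ sub x k,
      edist z w ≤ ENNReal.ofReal ((2 : ℝ)⁻¹ ^ k * h) := by
    intro x k z hz w hw
    rw [edist_dist]
    apply ENNReal.ofReal_le_ofReal
    rw [dist_pi_le_iff (by positivity)]
    intro i
    rw [hsub, mem_Icc, Pi.le_def, Pi.le_def] at hz hw
    have h1 := hz.1 i
    have h2 := hz.2 i
    have h3 := hw.1 i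
    have h4 := hw.2 i
    try simp only at h1 h2 h3 h4
    rw [Real.dist_eq, abs_le]
    constructor <;> nlinarith [hpow k]
  have hxsub : ∀ x ∈ S, ∀ k, x ∈ sub x k := by
    intro x hx k
    rw [hS, mem_Icc, Pi.le_def, Pi.le_def] at hx
    rw [hsub, mem_Icc, Pi.le_def, Pi.le_def]
    constructor
    · intro i
      have h2 := hx.1 i
      try simp only
      nlinarith [hpow k]
    · intro i
      have h2 := hx.2 i
      try simp only at h2 ⊢
      nlinarith [hpow k]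
  have hvol : ∀ x k, volume (sub x k) = ENNReal.ofReal (((2 : ℝ)⁻¹ ^ k * h) ^ d) := by
    intro x k
    rw [hsub, Real.volume_Icc_pi]
    have : ∀ i : Fin d, x i + (2 : ℝ)⁻¹ ^ k * (a i + h - x i) -
        (x i + (2 : ℝ)⁻¹ ^ k * (a i - x i)) = (2 : ℝ)⁻¹ ^ k * h := fun i => by ring
    simp_rw [this]
    rw [Finset.prod_const, Finset.card_univ, Fintype.card_fin, ENNReal.ofReal_pow (by positivity)]
  -- good points
  have hgood : ∀ x ∈ S, ∀ k, ∃ z ∈ sub x k,
      ρ z ≤ ENNReal.ofReal (((2 : ℝ)⁻¹ ^ k * h) ^ (-(d / s) : ℝ)) * I ^ (1 / s) := by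
    intro x hx k
    have hbase : 0 < (2 : ℝ)⁻¹ ^ k * h := by positivity
    obtain ⟨z, hz, hle⟩ := exists_le_setLAverage (μ := volume) (s := sub x k)
      (f := fun w => ρ w ^ s) (by
        rw [hvol]
        simp only [ne_eq, ENNReal.ofReal_eq_zero, not_le]
        positivity) (by rw [hvol]; exact ENNReal.ofReal_ne_top) (hρ.pow_const s).aemeasurable
    refine ⟨z, hz, ?_⟩
    rw [setLAverage_eq, hvol] at hle
    have h1 : ∫⁻ w in sub x k, ρ w ^ s ≤ I := lintegral_mono_set (hsubS x hx k)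
    have h2 : ρ z ^ s ≤ I / ENNReal.ofReal (((2 : ℝ)⁻¹ ^ k * h) ^ d) :=
      hle.trans (ENNReal.div_le_div_right h1 _)
    have h3 : ρ z = (ρ z ^ s) ^ (1 / s) := by
      rw [← ENNReal.rpow_mul, mul_one_div_cancel hs.ne', ENNReal.rpow_one]
    rw [h3]
    refine (ENNReal.rpow_le_rpow h2 (by positivity)).trans_eq ?_
    rw [ENNReal.div_eq_inv_mul, ENNReal.mul_rpow_of_nonneg _ _ (by positivity),
      ← ENNReal.ofReal_inv_of_pos (by positivity), ENNReal.ofReal_rpow_of_pos (by positivity)]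
    congr 2
    rw [← Real.rpow_natCast, ← Real.rpow_neg hbase.le, ← Real.rpow_mul hbase.le]
    congr 1
    ring
  -- a common starting point
  have haS : a ∈ S := by
    rw [hS, mem_Icc]
    exact ⟨le_rfl, fun k => by simp only; linarith⟩
  obtain ⟨z₀, hz₀S, hz₀⟩ := hgood a haS 0
  rw [hsub0] at hz₀S
  set q : ℝ := 2 ^ (-δ) with hq
  have hq0 : 0 < q := by positivity
  have hq1 : 1 < q := Real.one_lt_rpow (by norm_num) (by linarith)
  set A : ℝ := (2 * 2 ^ ((d : ℝ) / s)) * h ^ δ with hA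
  have hA0 : 0 ≤ A := by positivity
  set B : ℝ := (2 * 2 ^ ((d : ℝ) / s)) / (q - 1) with hB
  have hB0 : 0 < B := div_pos (by positivity) (by linarith)
  have hdist : ∀ x ∈ S, ∀ k : ℕ, edist (f z₀) (f x) ≤
      ENNReal.ofReal (B * ((2 : ℝ)⁻¹ ^ k * h) ^ δ) * I ^ (1 / s) +
        ENNReal.ofReal (Hc * ((2 : ℝ)⁻¹ ^ k * h) ^ β) := by
    intro x hx
    choose z hz hρz using hgood x hx
    set zz : ℕ → (Fin d → ℝ) := fun k => if k = 0 then z₀ else z k with hzz
    have hzzsub : ∀ k, zz k ∈ sub x k := by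
      intro k
      simp only [hzz]
      split_ifs with hk
      · subst hk; rw [hsub0]; exact hz₀S
      · exact hz k
    have hzzρ : ∀ k, ρ (zz k) ≤
        ENNReal.ofReal (((2 : ℝ)⁻¹ ^ k * h) ^ (-(d / s) : ℝ)) * I ^ (1 / s) := by
      intro k
      simp only [hzz]
      split_ifs with hk
      · subst hk; exact hz₀
      · exact hρz k
    have hzzS : ∀ k, zz k ∈ S := fun k => hsubS x hx k (hzzsub k)
    have hstep : ∀ k, edist (f (zz k)) (f (zz k.succ)) ≤
        ENNReal.ofReal (A * q ^ k) * I ^ (1 / s) := by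
      intro k
      have hbk : 0 < (2 : ℝ)⁻¹ ^ k * h := by positivity
      have hbk' : 0 < (2 : ℝ)⁻¹ ^ (k + 1) * h := by positivity
      have h1 := hfρ _ (hzzS k) _ (hzzS (k + 1))
      have h2 : edist (zz k) (zz (k + 1)) ^ α ≤ ENNReal.ofReal (((2 : ℝ)⁻¹ ^ k * h) ^ α) := by
        rw [← ENNReal.ofReal_rpow_of_pos hbk]
        exact ENNReal.rpow_le_rpow (hedist x k _ (hzzsub k) _
          (hsubmono x hx k (hzzsub (k + 1)))) hα0.le
      have h3 : ρ (zz k) + ρ (zz (k + 1)) ≤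
          ENNReal.ofReal (2 * ((2 : ℝ)⁻¹ ^ (k + 1) * h) ^ (-(d / s) : ℝ)) * I ^ (1 / s) := by
        have h4 : ((2 : ℝ)⁻¹ ^ k * h) ^ (-(d / s) : ℝ) ≤
            ((2 : ℝ)⁻¹ ^ (k + 1) * h) ^ (-(d / s) : ℝ) := by
          have h5 : (2 : ℝ)⁻¹ ^ (k + 1) * h ≤ (2 : ℝ)⁻¹ ^ k * h := by
            have : (2 : ℝ)⁻¹ ^ (k + 1) ≤ (2 : ℝ)⁻¹ ^ k := by
              rw [pow_succ]
              have := hpow k
              linarith
            gcongr
          have h6 : 0 ≤ (d : ℝ) / s := by positivity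
          exact Real.rpow_le_rpow_of_nonpos hbk' h5 (by linarith)
        calc ρ (zz k) + ρ (zz (k + 1))
            ≤ ENNReal.ofReal (((2 : ℝ)⁻¹ ^ (k + 1) * h) ^ (-(d / s) : ℝ)) * I ^ (1 / s) +
              ENNReal.ofReal (((2 : ℝ)⁻¹ ^ (k + 1) * h) ^ (-(d / s) : ℝ)) * I ^ (1 / s) := by
                apply add_le_add _ (hzzρ (k + 1))
                refine (hzzρ k).trans ?_
                gcongr
          _ = _ := by
                rw [← add_mul, ← ENNReal.ofReal_add (by positivity) (by positivity), two_mul]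
      refine h1.trans ((mul_le_mul' h2 h3).trans_eq ?_)
      rw [← mul_assoc, ← ENNReal.ofReal_mul (by positivity)]
      congr 2
      -- real computation
      rw [hA, hq, Real.mul_rpow (by positivity) hh.le, Real.mul_rpow (by positivity) hh.le]
      have e1 : ((2 : ℝ)⁻¹ ^ k) ^ α = (2 : ℝ) ^ (-(k * α)) := by
        rw [inv_pow, ← Real.rpow_natCast, ← Real.rpow_neg (by norm_num), ← Real.rpow_mul
          (by norm_num)]
        congr 1; ring
      have e2 : ((2 : ℝ)⁻¹ ^ (k + 1)) ^ (-(d / s) : ℝ) = (2 : ℝ) ^ ((k + 1) * (d / s)) := by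
        rw [inv_pow, ← Real.rpow_natCast, ← Real.rpow_neg (by norm_num), ← Real.rpow_mul
          (by norm_num)]
        congr 1; push_cast; ring
      have e3 : ((2 : ℝ) ^ (-δ)) ^ k = (2 : ℝ) ^ (-(k * δ)) := by
        rw [← Real.rpow_natCast, ← Real.rpow_mul (by norm_num)]
        congr 1; ring
      rw [e1, e2, e3]
      have e4 : h ^ α * h ^ (-(d / s) : ℝ) = h ^ δ := by
        rw [← Real.rpow_add hh, hδdef]; congr 1
      have e5 : (2 : ℝ) ^ (-(k * α)) * (2 : ℝ) ^ ((k + 1) * (d / s)) =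
          (2 : ℝ) ^ ((d : ℝ) / s) * (2 : ℝ) ^ (-(k * δ)) := by
        rw [← Real.rpow_add (by norm_num), ← Real.rpow_add (by norm_num), hδdef]
        congr 1; ring
      calc (2 : ℝ) ^ (-(k * α)) * h ^ α * (2 * ((2 : ℝ) ^ ((k + 1) * (d / s)) *
            h ^ (-(d / s) : ℝ)))
          = 2 * ((2 : ℝ) ^ (-(k * α)) * (2 : ℝ) ^ ((k + 1) * (d / s))) *
            (h ^ α * h ^ (-(d / s) : ℝ)) := by ring
        _ = _ := by rw [e4, e5]; ring
    intro k
    have h1 : edist (zz 0) (zz 0) = 0 := edist_self _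
    have h2 : edist (f (zz 0)) (f (zz k)) ≤ ∑ i ∈ Finset.range k,
        ENNReal.ofReal (A * q ^ i) * I ^ (1 / s) :=
      (edist_le_range_sum_edist (fun k => f (zz k)) k).trans
        (Finset.sum_le_sum fun i _ => hstep i)
    have hz0 : zz 0 = z₀ := by simp [hzz]
    rw [hz0, ← Finset.sum_mul] at h2
    have h3 : ∑ i ∈ Finset.range k, ENNReal.ofReal (A * q ^ i) ≤
        ENNReal.ofReal (B * ((2 : ℝ)⁻¹ ^ k * h) ^ δ) := by
      rw [← ENNReal.ofReal_sum_of_nonneg (fun i _ => by positivity)]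
      apply ENNReal.ofReal_le_ofReal
      rw [← Finset.mul_sum, geom_sum_eq hq1.ne']
      have e1 : ((2 : ℝ)⁻¹ ^ k) ^ δ = q ^ k := by
        rw [hq, inv_pow, ← Real.rpow_natCast, ← Real.rpow_neg (by norm_num),
          ← Real.rpow_mul (by norm_num), ← Real.rpow_natCast, ← Real.rpow_mul (by norm_num)]
        congr 1; ring
      rw [Real.mul_rpow (by positivity) hh.le, e1, hA, hB]
      have h4 : (0 : ℝ) < q - 1 := by linarith
      have h5 : 0 < h ^ δ := Real.rpow_pos_of_pos hh δ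
      have h6 : (0 : ℝ) < 2 * 2 ^ ((d : ℝ) / s) := by positivity
      rw [mul_div_assoc', div_mul_eq_mul_div]
      apply div_le_div_of_nonneg_right _ h4.le
      have h7 : q ^ k - 1 ≤ q ^ k := by linarith
      calc 2 * 2 ^ ((d : ℝ) / s) * h ^ δ * (q ^ k - 1) ≤
          2 * 2 ^ ((d : ℝ) / s) * h ^ δ * q ^ k := by gcongr
        _ = _ := by ring
    have h4 : edist (f (zz k)) (f x) ≤ ENNReal.ofReal (Hc * ((2 : ℝ)⁻¹ ^ k * h) ^ β) := by
      refine (hfβ _ (hzzS k) x hx).trans ?_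
      rw [ENNReal.ofReal_mul hHc.le, ← ENNReal.ofReal_rpow_of_pos (by positivity)]
      gcongr
      exact hedist x k _ (hzzsub k) _ (hxsub x hx k)
    refine (edist_triangle _ (f (zz k)) _).trans (add_le_add (h2.trans ?_) h4)
    gcongr
  have hdiam : ∀ k : ℕ, Metric.ediam (f '' S) ≤
      ENNReal.ofReal (2 * (B * ((2 : ℝ)⁻¹ ^ k * h) ^ δ)) * I ^ (1 / s) +
        ENNReal.ofReal (2 * (Hc * ((2 : ℝ)⁻¹ ^ k * h) ^ β)) := by
    intro k
    apply Metric.ediam_le
    rintro _ ⟨x, hx, rfl⟩ _ ⟨y, hy, rfl⟩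
    have h1 := hdist x hx k
    have h2 := hdist y hy k
    rw [edist_comm] at h1
    refine (edist_triangle (f x) (f z₀) (f y)).trans ((add_le_add h1 h2).trans_eq ?_)
    have e1 : 0 ≤ B * ((2 : ℝ)⁻¹ ^ k * h) ^ δ := by positivity
    have e2 : 0 ≤ Hc * ((2 : ℝ)⁻¹ ^ k * h) ^ β := by positivity
    rw [two_mul, two_mul, ENNReal.ofReal_add e1 e1, ENNReal.ofReal_add e2 e2]
    ring
  -- the size of the image
  set ωE := Metric.ediam (f '' S) with hωE
  have hωb : ωE ≤ ENNReal.ofReal (Hc * h ^ β) := by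
    apply Metric.ediam_le
    rintro _ ⟨x, hx, rfl⟩ _ ⟨y, hy, rfl⟩
    refine (hfβ x hx y hy).trans ?_
    rw [ENNReal.ofReal_mul hHc.le, ← ENNReal.ofReal_rpow_of_pos hh]
    gcongr
    have h1 := hedist x 0 x (hxsub x hx 0) y (by rw [hsub0]; exact hy)
    rwa [pow_zero, one_mul] at h1
  have hωfin : ωE ≠ ∞ := (hωb.trans_lt ENNReal.ofReal_lt_top).ne
  set ω := ωE.toReal with hω
  have hωof : ωE = ENNReal.ofReal ω := (ENNReal.ofReal_toReal hωfin).symm
  have hωle : ω ≤ Hc * h ^ β := by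
    rw [hωof] at hωb
    exact (ENNReal.ofReal_le_ofReal_iff (by positivity)).mp hωb
  have hω0 : 0 ≤ ω := ENNReal.toReal_nonneg
  have hqq : 0 < s + (d - α * s) / β := by
    have : 0 < (d - α * s) / β := div_pos (by linarith) hβ
    linarith
  rcases hω0.eq_or_lt with h0 | hωpos
  · rw [hωof, ← h0, ENNReal.ofReal_zero, ENNReal.zero_rpow_of_pos hqq]
    exact zero_le
  -- the scale
  set ρs : ℝ := (ω / (4 * Hc)) ^ (1 / β) with hρs
  have hρs0 : 0 < ρs := by positivity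
  have hρsβ : ρs ^ β = ω / (4 * Hc) := by
    rw [hρs, ← Real.rpow_mul (by positivity), one_div_mul_cancel hβ.ne', Real.rpow_one]
  have hρsh : ρs ≤ h := by
    have h1 : ρs ^ β ≤ h ^ β := by
      rw [hρsβ, div_le_iff₀ (by positivity)]
      have : 0 < h ^ β := Real.rpow_pos_of_pos hh β
      nlinarith
    exact (Real.rpow_le_rpow_iff hρs0.le hh.le hβ).mp h1
  obtain ⟨n, hn1, hn2⟩ := exists_nat_pow_near_of_lt_one (x := ρs / h) (y := (2 : ℝ)⁻¹)
    (by positivity) ((div_le_one hh).mpr hρsh) (by norm_num) (by norm_num)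
  set rk : ℝ := (2 : ℝ)⁻¹ ^ (n + 1) * h with hrk
  have hrk0 : 0 < rk := by positivity
  have hrk1 : rk ≤ ρs := by
    rw [hrk, ← le_div_iff₀ hh]; exact hn1.le
  have hrk2 : ρs / 2 ≤ rk := by
    rw [hrk, pow_succ]
    rw [div_le_iff₀ hh] at hn2
    linarith
  have hd := hdiam (n + 1)
  rw [← hrk] at hd
  have h1 : 2 * (Hc * rk ^ β) ≤ ω / 2 := by
    have h2 : rk ^ β ≤ ρs ^ β := Real.rpow_le_rpow hrk0.le hrk1 hβ.le
    rw [hρsβ] at h2
    have h3 : Hc * rk ^ β ≤ Hc * (ω / (4 * Hc)) := by gcongr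
    have h4 : Hc * (ω / (4 * Hc)) = ω / 4 := by field_simp
    linarith
  have h2 : ENNReal.ofReal (ω / 2) ≤ ENNReal.ofReal (2 * (B * rk ^ δ)) * I ^ (1 / s) := by
    have h3 : ENNReal.ofReal (ω / 2) + ENNReal.ofReal (ω / 2) ≤
        ENNReal.ofReal (2 * (B * rk ^ δ)) * I ^ (1 / s) + ENNReal.ofReal (ω / 2) := by
      rw [← ENNReal.ofReal_add (by positivity) (by positivity), add_halves, ← hωof]
      exact hd.trans (add_le_add le_rfl (ENNReal.ofReal_le_ofReal h1))
    exact (ENNReal.add_le_add_iff_right ENNReal.ofReal_ne_top).mp h3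
  have h3 : rk ^ δ ≤ (ρs / 2) ^ δ := Real.rpow_le_rpow_of_nonpos (by positivity) hrk2 hδ.le
  have h4 : ENNReal.ofReal (ω / 2) ≤ ENNReal.ofReal (2 * (B * (ρs / 2) ^ δ)) * I ^ (1 / s) := by
    refine h2.trans ?_
    gcongr
  have h5 : ENNReal.ofReal ((ω / 2) ^ s) ≤
      ENNReal.ofReal ((2 * (B * (ρs / 2) ^ δ)) ^ s) * I := by
    have := ENNReal.rpow_le_rpow h4 hs.le
    rwa [ENNReal.mul_rpow_of_nonneg _ _ hs.le, ← ENNReal.rpow_mul, one_div_mul_cancel hs.ne',
      ENNReal.rpow_one, ENNReal.ofReal_rpow_of_pos (by positivity),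
      ENNReal.ofReal_rpow_of_pos (by positivity)] at this
  have h6 := mul_le_mul' (le_refl (ENNReal.ofReal (2 ^ s * ω ^ (-(s * δ / β))))) h5
  rw [← mul_assoc, ← ENNReal.ofReal_mul (by positivity), ← ENNReal.ofReal_mul (by positivity)] at h6
  rw [hωof, ENNReal.ofReal_rpow_of_pos hωpos]
  have e1 : ω ^ (s + (d - α * s) / β) = 2 ^ s * ω ^ (-(s * δ / β)) * (ω / 2) ^ s := by
    have e2 : s + (d - α * s) / β = s + -(s * δ / β) := by
      rw [hδdef]
      field_simp
      ring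
    rw [e2, Real.rpow_add hωpos, Real.div_rpow hωpos.le (by norm_num)]
    field_simp
  have e3 : 2 ^ s * ω ^ (-(s * δ / β)) * (2 * (B * (ρs / 2) ^ δ)) ^ s =
      (2 * (2 * (B * (2 ^ (-δ) * (4 * Hc) ^ (-(δ / β)))))) ^ s := by
    have e4 : (ρs / 2) ^ δ = 2 ^ (-δ) * ((4 * Hc) ^ (-(δ / β)) * ω ^ (δ / β)) := by
      rw [Real.div_rpow hρs0.le (by norm_num), hρs, ← Real.rpow_mul (by positivity),
        Real.div_rpow hωpos.le (by positivity), Real.rpow_neg (by norm_num),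
        Real.rpow_neg (by positivity)]
      have e5 : 1 / β * δ = δ / β := by ring
      rw [e5]
      field_simp
    have e6 : ω ^ (-(s * δ / β)) = (ω ^ (-(δ / β))) ^ s := by
      rw [← Real.rpow_mul hωpos.le]
      congr 1
      ring
    rw [e4, e6, ← Real.mul_rpow (by norm_num) (by positivity),
      ← Real.mul_rpow (by positivity) (by positivity)]
    congr 1
    have e7 : ω ^ (-(δ / β)) * ω ^ (δ / β) = 1 := by
      rw [← Real.rpow_add hωpos, neg_add_cancel, Real.rpow_zero]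
    calc 2 * ω ^ (-(δ / β)) * (2 * (B * (2 ^ (-δ) * ((4 * Hc) ^ (-(δ / β)) * ω ^ (δ / β)))))
        = 2 * (2 * (B * (2 ^ (-δ) * (4 * Hc) ^ (-(δ / β))))) * (ω ^ (-(δ / β)) * ω ^ (δ / β)) := by
          ring
      _ = _ := by rw [e7, mul_one]
  rw [e1]
  rw [e3] at h6
  refine h6.trans_eq ?_
  unfold mixC
  rfl

end Pool.Agent.Helper3.HS
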