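import Pool.Agent.Helper3.HS.Split

/-!
# The splitting lemma, with invariance
-/

set_option autoImplicit false
set_option linter.unusedSectionVars false
set_option linter.unusedVariables false

open Set MeasureTheory Metric Filter Topology
open scoped NNReal ENNReal

namespace Pool.Agent.Helper3.HS

variable {p : ℕ} [hp : Fact p.Prime]

section split

variable {K : Type*} [TopologicalSpace K] [CompactSpace K] [T2Space K]

theorem exists_split_inv [TotallyDisconnectedSpace K] {T : ℤ_[p] → K → K}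
    (hT : Continuous (fun q : ℤ_[p] × K => T q.1 q.2))
    (h0 : ∀ x, T 0 x = x) (hadd : ∀ a b x, T (a + b) x = T a (T b x))
    (hfix : ∀ x, ∃ a, T a x ≠ x) :
    ∃ A : Set K, IsClopen A ∧ (∀ b : ℤ_[p], ∀ z ∈ A, T (p * b) z ∈ A) ∧
      (∀ x, ∃ i < p, ∃ z ∈ A, T (i : ℤ_[p]) z = x) ∧
      ∀ i < p, ∀ j < p, i ≠ j → ∀ z ∈ A, ∀ w ∈ A, T (i : ℤ_[p]) z ≠ T (j : ℤ_[p]) w := by
  classical
  have hTa : ∀ a, Continuous (T a) := fun a => hT.comp (continuous_const.prodMk continuous_id)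
  have hinv : ∀ a z, T (-a) (T a z) = z := fun a z => by rw [← hadd, neg_add_cancel, h0]
  have hinv' : ∀ a z, T a (T (-a) z) = z := fun a z => by rw [← hadd, add_neg_cancel, h0]
  choose V hVc hxV hVi hVd using exists_local hT h0 hadd hfix
  have key : ∀ S : Finset K, ∃ A : Set K, IsClopen A ∧
      (∀ b : ℤ_[p], ∀ z ∈ A, T (p * b) z ∈ A) ∧ (∀ j : ℕ, 0 < j → j < p → ∀ z ∈ A, T j z ∉ A) ∧
      ∀ x ∈ S, ∀ z ∈ V x, ∃ j < p, T (j : ℤ_[p]) z ∈ A := by
    intro S
    induction S using Finset.induction_on with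
    | empty =>
      exact ⟨∅, isClopen_empty, by simp, by simp, by simp⟩
    | insert x S hx ih =>
      obtain ⟨A, hAc, hAi, hAd, hAS⟩ := ih
      set O : Set K := {z | ∃ j < p, T (j : ℤ_[p]) z ∈ A} with hO
      have hOc : IsClopen O := by
        have : O = ⋃ j ∈ Finset.range p, (T (j : ℤ_[p])) ⁻¹' A := by
          ext z; simp [hO]
        rw [this]
        exact isClopen_biUnion_finset fun j _ =>
          ⟨hAc.isClosed.preimage (hTa _), hAc.isOpen.preimage (hTa _)⟩
      have hOi : ∀ c z, z ∈ O → T c z ∈ O := by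
        rintro c z ⟨j, hj, hz⟩
        obtain ⟨j', hj', b, hb⟩ := exists_digit ((j : ℤ_[p]) - c)
        refine ⟨j', hj', ?_⟩
        rw [← hadd]
        have h1 : (j' : ℤ_[p]) + c = p * (-b) + j := by
          have : (j : ℤ_[p]) = j' + p * b + c := by rw [← hb]; ring
          rw [this]; ring
        rw [h1, hadd]
        exact hAi _ _ hz
      have hAO : A ⊆ O := fun z hz => ⟨0, hp.out.pos, by simpa [h0] using hz⟩
      refine ⟨A ∪ (V x \ O), hAc.union ((hVc x).diff hOc), ?_, ?_, ?_⟩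
      · rintro b z (hz | ⟨hz, hzn⟩)
        · exact Or.inl (hAi b z hz)
        · refine Or.inr ⟨hVi x b z hz, fun hmem => hzn ?_⟩
          have := hOi (-(p * b)) _ hmem
          rwa [hinv] at this
      · rintro j hj0 hjp z (hz | ⟨hz, hzn⟩) (hz' | ⟨hz', hzn'⟩)
        · exact hAd j hj0 hjp z hz hz'
        · exact hzn' (hOi _ _ (hAO hz))
        · exact hzn ⟨j, hjp, hz'⟩
        · exact hVd x j hj0 hjp z hz hz'
      · intro x' hx' z hz
        rcases Finset.mem_insert.mp hx' with rfl | hx'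
        · by_cases hzO : z ∈ O
          · obtain ⟨j, hj, hjz⟩ := hzO
            exact ⟨j, hj, Or.inl hjz⟩
          · exact ⟨0, hp.out.pos, Or.inr (by rw [Nat.cast_zero, h0]; exact ⟨hz, hzO⟩)⟩
        · obtain ⟨j, hj, hjz⟩ := hAS x' hx' z hz
          exact ⟨j, hj, Or.inl hjz⟩
  obtain ⟨t, ht⟩ := isCompact_univ.elim_nhds_subcover V (fun x _ => (hVc x).isOpen.mem_nhds (hxV x))
  obtain ⟨A, hAc, hAi, hAd, hAS⟩ := key t
  refine ⟨A, hAc, hAi, ?_, ?_⟩
  · intro x
    obtain ⟨x', hx', hxx'⟩ := mem_iUnion₂.mp (ht.2 (mem_univ x))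
    obtain ⟨j, hj, hjz⟩ := hAS x' hx' x hxx'
    rcases Nat.eq_zero_or_pos j with rfl | hj0
    · refine ⟨0, hp.out.pos, T ((0 : ℕ) : ℤ_[p]) x, hjz, ?_⟩
      rw [Nat.cast_zero, h0, h0]
    · refine ⟨p - j, by omega, T (p * (-1)) (T (j : ℤ_[p]) x), hAi _ _ hjz, ?_⟩
      rw [← hadd, ← hadd, Nat.cast_sub hj.le]
      have : (p : ℤ_[p]) - j + p * -1 + j = 0 := by ring
      rw [this, h0]
  · have main : ∀ i j : ℕ, i < j → j < p → ∀ z ∈ A, ∀ w ∈ A, T (i : ℤ_[p]) z ≠ T (j : ℤ_[p]) w := by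
      intro i j hij hj z hz w hw heq
      have h1 : z = T ((j - i : ℕ) : ℤ_[p]) w := by
        rw [← hinv (i : ℤ_[p]) z, heq, ← hadd, Nat.cast_sub hij.le]
        congr 1
        ring
      rw [h1] at hz
      exact hAd (j - i) (by omega) (by omega) w hw hz
    intro i hi j hj hij z hz w hw heq
    rcases lt_or_gt_of_ne hij with h | h
    · exact main i j h hj z hz w hw heq
    · exact main j i h hi w hw z hz heq.symm

end split

end Pool.Agent.Helper3.HS
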