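import Pool.Agent.Helper3.HS.Deg4
import Pool.Agent.Helper3.HS2.Split2

/-!
# Walls and chambers
-/

set_option autoImplicit false
set_option linter.unusedSectionVars false
set_option linter.unusedVariables false

open Set MeasureTheory Metric Filter Topology
open scoped NNReal ENNReal Function

namespace Pool.Agent.Helper3.HS

variable {V : Type*} [NormedAddCommGroup V] [NormedSpace ℝ V] [FiniteDimensional ℝ V]
  [MeasurableSpace V] [BorelSpace V] {μ : Measure V} [μ.IsAddHaarMeasure]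

/-- An action of the `p`-adic integers on a bounded open set. -/
structure PreDat (V : Type*) [NormedAddCommGroup V] (p : ℕ) [Fact p.Prime] where
  U : Set V
  g : ℤ_[p] → V → V
  hU : IsOpen U
  hUb : Bornology.IsBounded U
  hg : ∀ a, Continuous (g a)
  hgj : ContinuousOn (fun q : ℤ_[p] × V => g q.1 q.2) (univ ×ˢ U)
  hgU : ∀ a, ∀ x ∈ U, g a x ∈ U
  hg0 : ∀ x ∈ U, g 0 x = x
  hgadd : ∀ a b, ∀ x ∈ U, g (a + b) x = g a (g b x)

/-- An action of the `p`-adic integers on a bounded open set by orientation-preserving maps. -/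
structure Dat (μ : Measure V) [μ.IsAddHaarMeasure] (p : ℕ) [Fact p.Prime] extends
    PreDat V p where
  hpos : ∀ a, ∀ X ⊆ U, IsOpen X → ∀ x ∈ X, HasDeg μ X (g a) (g a x) 1

variable {p : ℕ} [hp : Fact p.Prime]

namespace PreDat

variable (D : PreDat V p)

theorem inv (a : ℤ_[p]) {x : V} (hx : x ∈ D.U) : D.g (-a) (D.g a x) = x := by
  rw [← D.hgadd _ _ x hx, neg_add_cancel, D.hg0 x hx]

theorem inv' (a : ℤ_[p]) {x : V} (hx : x ∈ D.U) : D.g a (D.g (-a) x) = x := by
  rw [← D.hgadd _ _ x hx, add_neg_cancel, D.hg0 x hx]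

theorem image_eq (a : ℤ_[p]) {O : Set V} (hO : O ⊆ D.U) :
    D.g a '' O = D.U ∩ (D.g (-a)) ⁻¹' O := by
  ext x
  constructor
  · rintro ⟨z, hz, rfl⟩
    exact ⟨D.hgU a z (hO hz), by rw [mem_preimage, D.inv a (hO hz)]; exact hz⟩
  · rintro ⟨hx, hx'⟩
    exact ⟨_, hx', D.inv' a hx⟩

theorem image_open (a : ℤ_[p]) {O : Set V} (hO : O ⊆ D.U) (hOo : IsOpen O) :
    IsOpen (D.g a '' O) := by
  rw [D.image_eq a hO]
  exact D.hU.inter (hOo.preimage (D.hg _))

theorem image_sub (a : ℤ_[p]) {O : Set V} (hO : O ⊆ D.U) : D.g a '' O ⊆ D.U := by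
  rintro _ ⟨z, hz, rfl⟩
  exact D.hgU a z (hO hz)

theorem closure_image (a : ℤ_[p]) {X : Set V} (hXU : closure X ⊆ D.U) :
    closure (D.g a '' X) ⊆ D.g a '' closure X := by
  have : ProperSpace V := FiniteDimensional.proper ℝ V
  have h1 : IsCompact (closure X) := (D.hUb.subset (subset_closure.trans hXU)).isCompact_closure
  exact closure_minimal (image_mono subset_closure) (h1.image (D.hg a)).isClosed

theorem frontier_image (a : ℤ_[p]) {X : Set V} (hX : IsOpen X) (hXU : closure X ⊆ D.U) :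
    frontier (D.g a '' X) ⊆ D.g a '' frontier X := by
  intro x hx
  have hXU' : X ⊆ D.U := subset_closure.trans hXU
  rw [(D.image_open a hXU' hX).frontier_eq] at hx
  obtain ⟨z, hz, rfl⟩ := D.closure_image a hXU hx.1
  refine ⟨z, ?_, rfl⟩
  rw [hX.frontier_eq]
  exact ⟨hz, fun h => hx.2 ⟨z, h, rfl⟩⟩

/-- The points all of whose translates by a coset of `p ℤ_p` lie in an open set. -/
theorem isOpen_all {O : Set V} (hO : IsOpen O) (c : ℤ_[p]) :
    IsOpen {x | x ∈ D.U ∧ ∀ b : ℤ_[p], D.g (p * b + c) x ∈ O} := by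
  rw [isOpen_iff_mem_nhds]
  rintro x ⟨hxU, hx⟩
  have h1 : ∀ᶠ x' in 𝓝 x, ∀ b ∈ (univ : Set ℤ_[p]), D.g (p * b + c) x' ∈ O := by
    apply isCompact_univ.eventually_forall_of_forall_eventually
    intro b _
    have h2 : ContinuousAt (fun q : ℤ_[p] × V => D.g q.1 q.2) (p * b + c, x) := by
      apply D.hgj.continuousAt
      exact (isOpen_univ.prod D.hU).mem_nhds ⟨mem_univ _, hxU⟩
    have h3 : ContinuousAt (fun z : V × ℤ_[p] => ((p * z.2 + c, z.1) : ℤ_[p] × V)) (x, b) := by
      apply Continuous.continuousAt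
      fun_prop
    have h4 : ContinuousAt (fun z : V × ℤ_[p] => D.g (p * z.2 + c) z.1) (x, b) :=
      ContinuousAt.comp (g := fun q : ℤ_[p] × V => D.g q.1 q.2)
        (f := fun z : V × ℤ_[p] => ((p * z.2 + c, z.1) : ℤ_[p] × V)) h2 h3
    exact h4.eventually (hO.mem_nhds (hx b))
  filter_upwards [h1, D.hU.mem_nhds hxU] with x' h2 h3
  exact ⟨h3, fun b => h2 b (mem_univ b)⟩

end PreDat

namespace Dat

variable (D : Dat μ p)

theorem transport (a : ℤ_[p]) {X : Set V} (hX : IsOpen X) (hXU : X ⊆ D.U) {A : V → V}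
    (hA : Continuous A) {y : V} {κ : ℝ} (hdeg : HasDeg μ (D.g a '' X) A y κ)
    (hne : ∀ x ∈ frontier X, A (D.g a x) ≠ y) : HasDeg μ X (fun x => A (D.g a x)) y κ := by
  have h1 := HasDeg.comp μ hX (D.hUb.subset hXU) (D.image_open a hXU hX)
    (D.hUb.subset (D.image_sub a hXU)) (D.hg a) hA (y := y) (s := 1) (k := κ)
    (fun x hx heq => by
      have hxX : x ∈ X := by
        by_contra hn
        exact hne x (by rw [hX.frontier_eq]; exact ⟨hx, hn⟩) heq
      exact ⟨x, hxX, rfl⟩) hne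
    (fun z hz _ => by
      obtain ⟨x, hx, rfl⟩ := hz
      exact D.hpos a X hXU hX x hx) hdeg
  rwa [one_mul] at h1

end Dat

/-- The data near the walls. -/
structure Wall (D : Dat μ p) where
  F : V → V
  G : V → V
  y : V
  ε : ℝ
  B : Set V
  N : ℕ → Set V
  Nc : ℕ → Set V
  lam : ℕ → V → ℝ
  hBc : IsCompact B
  hBU : B ⊆ D.U
  hBinv : ∀ a, ∀ x ∈ B, D.g a x ∈ B
  hFinv : ∀ a, ∀ x ∈ D.U, F (D.g a x) = F x
  hN : ∀ l < p, IsOpen (N l)
  hNd : ∀ l < p, ∀ l' < p, l ≠ l' → Disjoint (N l) (N l')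
  hNcN : ∀ l < p, Nc l ⊆ N l
  hlamc : ∀ l < p, Continuous (lam l)
  hlam0 : ∀ l < p, ∀ x, 0 ≤ lam l x
  hlam1 : ∀ l < p, ∀ x, lam l x ≤ 1
  hlamN : ∀ l < p, ∀ x ∉ N l, lam l x = 0
  hlamNc : ∀ l < p, ∀ x ∈ Nc l, lam l x = 1
  hshift : ∀ l < p, ∀ j < p, ∀ x ∈ Nc l, l + j < p → D.g (j : ℤ_[p]) x ∈ Nc (l + j)
  hshift' : ∀ l < p, ∀ j < p, ∀ x ∈ Nc l, p ≤ l + j → D.g (j : ℤ_[p]) x ∈ Nc (l + j - p)
  hpshift : ∀ l < p, ∀ b : ℤ_[p], ∀ x ∈ Nc l, D.g (p * b) x ∈ Nc l
  hε : 0 < ε
  hgap : ∀ x ∈ B, (∀ l < p, x ∉ Nc l) → 2 * ε < dist (F x) y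
  hG : Continuous G
  hGF : ∀ x ∈ D.U, dist (G x) (F x) ≤ ε
  hGB : ∀ x ∈ B, G x ≠ y
  hGN : ∀ l < p, ∀ x ∈ frontier (N l), G x ≠ y

namespace Wall

variable {D : Dat μ p} (W : Wall D)

/-- The admissible maps. -/
def Adm (A : V → V) : Prop :=
  Continuous A ∧ (∀ x ∈ D.U, dist (A x) (W.F x) ≤ W.ε) ∧ ∀ x ∈ W.B, A x ≠ W.y

theorem adm_G : W.Adm W.G := ⟨W.hG, W.hGF, W.hGB⟩

variable {W}

theorem Adm.comp {A : V → V} (h : W.Adm A) (a : ℤ_[p]) : W.Adm (fun x => A (D.g a x)) := by
  refine ⟨h.1.comp (D.hg a), fun x hx => ?_, fun x hx => h.2.2 _ (W.hBinv a x hx)⟩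
  rw [← W.hFinv a x hx]
  exact h.2.1 _ (D.hgU a x hx)

theorem far {x : V} (hx : x ∈ W.B) (hxN : ∀ l < p, x ∉ W.Nc l) {z : V}
    (hz : dist z (W.F x) ≤ W.ε) : z ≠ W.y := by
  rintro rfl
  have := W.hgap x hx hxN
  rw [dist_comm] at this
  have := W.hε
  linarith

/-- The mixed map. -/
noncomputable def mix (W : Wall D) (P : ℕ → V → V) (x : V) : V :=
  W.G x + ∑ l ∈ Finset.range p, W.lam l x • (P l x - W.G x)

/-- The local modification. -/
noncomputable def loc (W : Wall D) (l : ℕ) (P : V → V) (x : V) : V :=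
  W.G x + W.lam l x • (P x - W.G x)

theorem mix_eq_loc {P : ℕ → V → V} {l : ℕ} (hl : l < p) {x : V}
    (hx : ∀ l' < p, l' ≠ l → x ∉ W.N l') : W.mix P x = W.loc l (P l) x := by
  unfold mix loc
  rw [Finset.sum_eq_single l]
  · intro l' hl' hne
    rw [W.hlamN l' (Finset.mem_range.mp hl') x (hx l' (Finset.mem_range.mp hl') hne), zero_smul]
  · intro h
    exact absurd (Finset.mem_range.mpr hl) h

theorem mix_eq_G {P : ℕ → V → V} {x : V} (hx : ∀ l < p, x ∉ W.N l) : W.mix P x = W.G x := by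
  unfold mix
  rw [Finset.sum_eq_zero, add_zero]
  intro l hl
  rw [W.hlamN l (Finset.mem_range.mp hl) x (hx l (Finset.mem_range.mp hl)), zero_smul]

theorem other {l : ℕ} (hl : l < p) {x : V} (hx : x ∈ W.N l) :
    ∀ l' < p, l' ≠ l → x ∉ W.N l' := fun l' hl' hne hx' =>
  Set.disjoint_left.mp (W.hNd l' hl' l hl hne) hx' hx

theorem loc_core {P : V → V} {l : ℕ} (hl : l < p) {x : V} (hx : x ∈ W.Nc l) :
    W.loc l P x = P x := by
  unfold loc
  rw [W.hlamNc l hl x hx, one_smul]
  abel

theorem loc_out {P : V → V} {l : ℕ} (hl : l < p) {x : V} (hx : x ∉ W.N l) :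
    W.loc l P x = W.G x := by
  unfold loc
  rw [W.hlamN l hl x hx, zero_smul, add_zero]

theorem mix_core {P : ℕ → V → V} {l : ℕ} (hl : l < p) {x : V} (hx : x ∈ W.Nc l) :
    W.mix P x = P l x := by
  rw [mix_eq_loc hl (other hl (W.hNcN l hl hx)), loc_core hl hx]

theorem continuous_loc {P : V → V} (hP : Continuous P) {l : ℕ} (hl : l < p) :
    Continuous (W.loc l P) := by
  unfold loc
  exact W.hG.add ((W.hlamc l hl).smul (hP.sub W.hG))

theorem continuous_mix {P : ℕ → V → V} (hP : ∀ l < p, Continuous (P l)) :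
    Continuous (W.mix P) := by
  unfold mix
  apply W.hG.add
  apply continuous_finsetSum
  intro l hl
  have hl' := Finset.mem_range.mp hl
  exact (W.hlamc l hl').smul ((hP l hl').sub W.hG)

theorem dist_loc {P : V → V} {l : ℕ} (hl : l < p) {x : V} (hx : x ∈ D.U)
    (hP : dist (P x) (W.F x) ≤ W.ε) : dist (W.loc l P x) (W.F x) ≤ W.ε := by
  have h1 : W.loc l P x = (1 - W.lam l x) • W.G x + W.lam l x • P x := by
    unfold loc
    module
  rw [h1]
  have h2 : (1 - W.lam l x) • W.G x + W.lam l x • P x ∈ closedBall (W.F x) W.ε :=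
    convex_closedBall _ _ (mem_closedBall.mpr (W.hGF x hx)) (mem_closedBall.mpr hP)
      (by linarith [W.hlam1 l hl x]) (W.hlam0 l hl x) (by ring)
  exact mem_closedBall.mp h2

/-- Values of a locally modified map on the walls. -/
theorem loc_ne {P : V → V} (hP : W.Adm P) {l : ℕ} (hl : l < p) {x : V} (hx : x ∈ W.B) :
    W.loc l P x ≠ W.y := by
  by_cases hxc : x ∈ W.Nc l
  · rw [loc_core hl hxc]
    exact hP.2.2 x hx
  by_cases hxN : x ∈ W.N l
  · apply far hx _ (dist_loc hl (W.hBU hx) (hP.2.1 x (W.hBU hx)))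
    intro l' hl' hx'
    by_cases hll : l' = l
    · rw [hll] at hx'
      exact hxc hx'
    · exact other hl hxN l' hl' hll (W.hNcN l' hl' hx')
  · rw [loc_out hl hxN]
    exact W.hGB x hx

theorem adm_mix {P : ℕ → V → V} (hP : ∀ l < p, W.Adm (P l)) : W.Adm (W.mix P) := by
  refine ⟨continuous_mix fun l hl => (hP l hl).1, fun x hx => ?_, fun x hx => ?_⟩
  · by_cases h : ∃ l < p, x ∈ W.N l
    · obtain ⟨l, hl, hxl⟩ := h
      rw [mix_eq_loc hl (other hl hxl)]
      exact dist_loc hl hx ((hP l hl).2.1 x hx)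
    · push Not at h
      rw [mix_eq_G h]
      exact W.hGF x hx
  · by_cases h : ∃ l < p, x ∈ W.N l
    · obtain ⟨l, hl, hxl⟩ := h
      rw [mix_eq_loc hl (other hl hxl)]
      exact loc_ne (hP l hl) hl hx
    · push Not at h
      rw [mix_eq_G h]
      exact W.hGB x hx

section chamber

variable {X : Set V}

/-- The degree on a chamber only depends on the values near the walls. -/
theorem deg_congr (hX : IsOpen X) (hXU : closure X ⊆ D.U) (hXB : frontier X ⊆ W.B) {M M' : V → V}
    (hM : W.Adm M) (hM' : W.Adm M') (h : ∀ l < p, ∀ x ∈ W.B, x ∈ W.Nc l → M x = M' x) {κ : ℝ}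
    (hκ : HasDeg μ X M W.y κ) : HasDeg μ X M' W.y κ := by
  have hXb : Bornology.IsBounded X := D.hUb.subset (subset_closure.trans hXU)
  apply HasDeg.homotopy μ hX hXb hM.1.continuousOn hM'.1.continuousOn hκ
  intro x hx t ht heq
  have hxB := hXB hx
  have e : (1 - t) • (M x - W.y) + t • (M' x - W.y) = ((1 - t) • M x + t • M' x) - W.y := by
    module
  rw [e] at heq
  have heq' := sub_eq_zero.mp heq
  by_cases hc : ∃ l < p, x ∈ W.Nc l
  · obtain ⟨l, hl, hxl⟩ := hc
    rw [h l hl x hxB hxl, ← add_smul, sub_add_cancel, one_smul] at heq'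
    exact hM'.2.2 x hxB heq'
  · push Not at hc
    have h2 : (1 - t) • M x + t • M' x ∈ closedBall (W.F x) W.ε :=
      convex_closedBall _ _ (mem_closedBall.mpr (hM.2.1 x (W.hBU hxB)))
        (mem_closedBall.mpr (hM'.2.1 x (W.hBU hxB))) (by linarith [ht.2]) ht.1 (by ring)
    exact far hxB hc (mem_closedBall.mp h2) heq'

theorem frontier_piece (hX : IsOpen X) (hXB : frontier X ⊆ W.B) {l : ℕ} (hl : l < p) {x : V}
    (hx : x ∈ frontier (X ∩ W.N l)) : x ∈ W.B ∨ x ∈ frontier (W.N l) := by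
  have h1 := frontier_inter_subset X (W.N l) hx
  rcases h1 with h | h
  · exact Or.inl (hXB h.1)
  · exact Or.inr h.2

theorem piece_ne (hX : IsOpen X) (hXB : frontier X ⊆ W.B) {l : ℕ} (hl : l < p)
    {P : V → V} (hP : W.Adm P) {x : V} (hx : x ∈ frontier (X ∩ W.N l)) :
    W.loc l P x ≠ W.y := by
  rcases frontier_piece hX hXB hl hx with h | h
  · exact loc_ne hP hl h
  · have h2 : x ∉ W.N l := by
      rw [(W.hN l hl).frontier_eq] at h
      exact h.2
    rw [loc_out hl h2]
    exact W.hGN l hl x h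

theorem bounded_sub (hXU : closure X ⊆ D.U) {Y : Set V} (hY : Y ⊆ X) : Bornology.IsBounded Y :=
  D.hUb.subset (hY.trans (subset_closure.trans hXU))

open Classical in
/-- The local degrees. -/
noncomputable def u (W : Wall D) (X : Set V) (l : ℕ) (P : V → V) : ℝ :=
  if h : ∃ κ, HasDeg μ (X ∩ W.N l) (W.loc l P) W.y κ then h.choose else 0

theorem u_spec (hX : IsOpen X) (hXU : closure X ⊆ D.U) (hXB : frontier X ⊆ W.B) {l : ℕ}
    (hl : l < p) {P : V → V} (hP : W.Adm P) :
    HasDeg μ (X ∩ W.N l) (W.loc l P) W.y (W.u X l P) := by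
  have h : ∃ κ, HasDeg μ (X ∩ W.N l) (W.loc l P) W.y κ :=
    HasDeg.exists μ (hX.inter (W.hN l hl)) (bounded_sub hXU inter_subset_left)
      (continuous_loc hP.1 hl).continuousOn (fun x hx => piece_ne hX hXB hl hP hx)
  unfold u
  rw [dif_pos h]
  exact h.choose_spec

theorem u_unique (hX : IsOpen X) (hXU : closure X ⊆ D.U) (hXB : frontier X ⊆ W.B) {l : ℕ}
    (hl : l < p) {P : V → V} (hP : W.Adm P) {κ : ℝ}
    (hκ : HasDeg μ (X ∩ W.N l) (W.loc l P) W.y κ) : W.u X l P = κ :=
  HasDeg.unique μ (hX.inter (W.hN l hl)) (bounded_sub hXU inter_subset_left)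
    (continuous_loc hP.1 hl).continuousOn (u_spec hX hXU hXB hl hP) hκ

theorem u_congr (hX : IsOpen X) (hXU : closure X ⊆ D.U) (hXB : frontier X ⊆ W.B) {l : ℕ}
    (hl : l < p) {P P' : V → V} (hP : W.Adm P) (hP' : W.Adm P') (h : ∀ x ∈ D.U, P x = P' x) :
    W.u X l P = W.u X l P' := by
  apply u_unique hX hXU hXB hl hP
  apply (u_spec hX hXU hXB hl hP').congr
  intro x hx
  have hxU : x ∈ D.U := hXU (closure_mono inter_subset_left (frontier_subset_closure hx))
  unfold loc
  rw [h x hxU]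

/-- The degree on a chamber is the sum of the local degrees. -/
theorem exists_sum (hX : IsOpen X) (hXU : closure X ⊆ D.U) (hXB : frontier X ⊆ W.B) :
    ∃ v : ℝ, ∀ P : ℕ → V → V, (∀ l < p, W.Adm (P l)) →
      HasDeg μ X (W.mix P) W.y (v + ∑ l ∈ Finset.range p, W.u X l (P l)) := by
  classical
  set C : Set V := ⋃ l ∈ Finset.range p, closure (W.N l) with hC
  have hCc : IsClosed C := isClosed_biUnion_finset fun l _ => isClosed_closure
  set X' : Set V := X ∩ Cᶜ with hX'
  have hX'o : IsOpen X' := hX.inter hCc.isOpen_compl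
  have hX'N : ∀ l < p, ∀ x ∈ closure X', x ∉ W.N l := by
    intro l hl x hx hxN
    have hd : Disjoint X' (W.N l) := by
      rw [Set.disjoint_left]
      intro z hz hz'
      exact hz.2 (mem_biUnion (Finset.mem_coe.mpr (Finset.mem_range.mpr hl)) (subset_closure hz'))
    exact Set.disjoint_left.mp (hd.closure_left (W.hN l hl)) hx hxN
  have hX'ne : ∀ x ∈ frontier X', W.G x ≠ W.y := by
    intro x hx
    have hxc := frontier_subset_closure hx
    by_cases hxX : x ∈ X
    · have hxC : x ∈ C := by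
        by_contra hn
        rw [hX'o.frontier_eq] at hx
        exact hx.2 ⟨hxX, hn⟩
      obtain ⟨l, hl, hxl⟩ := mem_iUnion₂.mp hxC
      have hl' := Finset.mem_range.mp hl
      apply W.hGN l hl'
      rw [(W.hN l hl').frontier_eq]
      exact ⟨hxl, hX'N l hl' x hxc⟩
    · apply W.hGB
      apply hXB
      rw [hX.frontier_eq]
      exact ⟨closure_mono inter_subset_left hxc, hxX⟩
  obtain ⟨v, hv⟩ := HasDeg.exists μ hX'o (bounded_sub hXU inter_subset_left)
    (F := W.G) W.hG.continuousOn hX'ne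
  refine ⟨v, fun P hP => ?_⟩
  have hmix := adm_mix hP
  set Y : ℕ → Set V := fun i => if i < p then X ∩ W.N i else X' with hY
  have hYlt : ∀ l < p, Y l = X ∩ W.N l := fun l hl => by rw [hY]; simp only; rw [if_pos hl]
  have hYp : Y p = X' := by rw [hY]; simp only; rw [if_neg (lt_irrefl p)]
  have hsum := HasDeg.sum μ (Finset.range (p + 1)) hX
    (D.hUb.subset (subset_closure.trans hXU)) (W := Y) (F := W.mix P) (y := W.y)
    (k := fun i => if i < p then W.u X i (P i) else v)
    (by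
      intro i hi
      by_cases h : i < p
      · rw [hYlt i h]; exact hX.inter (W.hN i h)
      · have : i = p := by have := Finset.mem_range.mp hi; omega
        rw [this, hYp]; exact hX'o)
    (by
      intro i hi
      by_cases h : i < p
      · rw [hYlt i h]; exact inter_subset_left
      · have : i = p := by have := Finset.mem_range.mp hi; omega
        rw [this, hYp]; exact inter_subset_left)
    (by
      have main : ∀ i j : ℕ, i < j → j < p + 1 → Disjoint (Y i) (Y j) := by
        intro i j hij hj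
        have hi : i < p := by omega
        rw [hYlt i hi]
        by_cases h : j < p
        · rw [hYlt j h]
          exact (W.hNd i hi j h (by omega)).mono inter_subset_right inter_subset_right
        · have : j = p := by omega
          rw [this, hYp, Set.disjoint_left]
          intro x hx hx'
          exact hX'N i hi x (subset_closure hx') hx.2
      intro i hi j hj hij
      simp only [Finset.coe_range, mem_Iio] at hi hj
      rcases lt_or_gt_of_ne hij with h | h
      · exact main i j h hj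
      · exact (main j i h hi).symm)
    hmix.1.continuousOn
    (by
      intro x hx heq
      have hxX : x ∈ X := by
        by_contra hn
        exact hmix.2.2 x (hXB (by rw [hX.frontier_eq]; exact ⟨hx, hn⟩)) heq
      by_cases h : ∃ l < p, x ∈ W.N l
      · obtain ⟨l, hl, hxl⟩ := h
        exact ⟨l, Finset.mem_range.mpr (by omega), by rw [hYlt l hl]; exact ⟨hxX, hxl⟩⟩
      · push Not at h
        refine ⟨p, Finset.mem_range.mpr (by omega), ?_⟩
        rw [hYp]
        refine ⟨hxX, fun hxC => ?_⟩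
        obtain ⟨l, hl, hxl⟩ := mem_iUnion₂.mp hxC
        have hl' := Finset.mem_range.mp hl
        rw [mix_eq_G h] at heq
        apply W.hGN l hl' x _ heq
        rw [(W.hN l hl').frontier_eq]
        exact ⟨hxl, h l hl'⟩)
    (by
      intro i hi
      by_cases h : i < p
      · rw [hYlt i h, if_pos h]
        apply (u_spec hX hXU hXB h (hP i h)).congr
        intro x hx
        have hxc : x ∈ closure (W.N i) :=
          closure_mono inter_subset_right (frontier_subset_closure hx)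
        symm
        apply mix_eq_loc h
        intro l' hl' hne hx'
        exact Set.disjoint_left.mp ((W.hNd i h l' hl' (Ne.symm hne)).closure_left (W.hN l' hl'))
          hxc hx'
      · have hip : i = p := by have := Finset.mem_range.mp hi; omega
        rw [hip, hYp, if_neg (lt_irrefl p)]
        apply hv.congr
        intro x hx
        symm
        exact mix_eq_G fun l hl => hX'N l hl x (frontier_subset_closure hx))
  rw [Finset.sum_range_succ, if_neg (lt_irrefl p), add_comm] at hsum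
  have : ∑ i ∈ Finset.range p, (if i < p then W.u X i (P i) else v) =
      ∑ l ∈ Finset.range p, W.u X l (P l) := by
    apply Finset.sum_congr rfl
    intro i hi
    rw [if_pos (Finset.mem_range.mp hi)]
  rwa [this] at hsum

end chamber

end Wall

end Pool.Agent.Helper3.HS
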